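import Pool.Agent.CF.Defs

/-!
# MP_6c3636_al, CF, module E01: extensions, basic properties (helper7)

`ex_congr`: compose the isomorphisms. `ex_solv`: `ParkerGL.ab_solvable` (`E ⧸ N` is solvable, isomorphic to `R`). `ex_ext`: let `E ⧸ N ≃* R`, `f : E →* R` the surjective homomorphism with kernel `N`, `N1 = R1.comap f`. `N.subgroupOf N1` has quotient isomorphic to `R1` (the restriction `N1 → R1` of `f` is surjective with this kernel: `QuotientGroup.quotientKerEquivOfSurjective`), and `N.subgroupOf N1 ≃* N` (`Subgroup.subgroupOfEquivOfLe`, `ParkerGL.ab_congr`); so `AB2 N1` by `Ex R1`. `E ⧸ N1 ≃* R ⧸ R1` (kernel of `E → R → R ⧸ R1`), so `AB2 E` by `Ex (R ⧸ R1)`. `ex_hom`: `ex_ext` for `f.ker` and `R ⧸ f.ker ≃* f.range` (`QuotientGroup.quotientKerEquivRange`). `ex_ab`: `AB2 R` for finite `R` with `Ex R`: take `E = R`, `N = ⊥`.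
`ex_quot`: let `f : L →* R` be surjective, `Ex L`, `E ⧸ N ≃* R`, `p : E →* R` with kernel `N`. The fibre product `X = {(e, l) : p e = f l}` (subgroup of `E × L`, finite) has the surjective homomorphism `X → L` (`p` is surjective) with kernel `{(e, 1) : e ∈ N}`, isomorphic to `N`. So `AB2 X` by `Ex L`, and `X → E` is surjective (`f` is surjective), so `AB2 E` by `ParkerGL.ab_quot`.
-/

namespace CF

noncomputable section

open Classical Matrix


/-- the extension property for a surjective homomorphism -/
theorem E01_aux.surj {R : Type} [Group R] (h : Ex R) {E : Type} [Group E] [Finite E] (f : E →* R)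
    (hf : Function.Surjective f) (hab : AB2 f.ker) : AB2 E :=
  h E f.ker ⟨QuotientGroup.quotientKerEquivOfSurjective f hf⟩ hab

/-- the extension property from surjective homomorphisms -/
theorem E01_aux.of_surj {R : Type} [Group R]
    (h : ∀ (E : Type) [Group E] [Finite E] (f : E →* R), Function.Surjective f → AB2 f.ker → AB2 E) :
    Ex R := by
  intro E _ _ N _ hN hab
  obtain ⟨φ⟩ := hN
  have hker : (φ.toMonoidHom.comp (QuotientGroup.mk' N)).ker = N := by
    ext x
    rw [MonoidHom.mem_ker, MonoidHom.comp_apply]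
    constructor
    · intro hx
      have h1 : φ (QuotientGroup.mk' N x) = 1 := hx
      rw [map_eq_one_iff φ φ.injective] at h1
      exact (QuotientGroup.eq_one_iff x).1 h1
    · intro hx
      have h1 : QuotientGroup.mk' N x = 1 := (QuotientGroup.eq_one_iff x).2 hx
      show φ (QuotientGroup.mk' N x) = 1
      rw [h1, map_one]
  refine h E (φ.toMonoidHom.comp (QuotientGroup.mk' N)) ?_ ?_
  · rw [MonoidHom.coe_comp]
    exact φ.surjective.comp (QuotientGroup.mk'_surjective N)
  · exact ParkerGL.ab_congr (MulEquiv.subgroupCongr hker.symm) hab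

theorem ex_congr {R R' : Type} [Group R] [Group R'] (e : R ≃* R') (h : Ex R) : Ex R' := by
  intro E _ _ N _ hN hab
  obtain ⟨f⟩ := hN
  exact h E N ⟨f.trans e.symm⟩ hab

theorem ex_solv {R : Type} [Group R] (h : Group.IsSolvable R) : Ex R := by
  intro E _ _ N _ hN hab
  obtain ⟨f⟩ := hN
  have hs : Group.IsSolvable (E ⧸ N) :=
    Group.isSolvable_of_isSolvable_injective (f := f.toMonoidHom) f.injective
  exact ParkerGL.ab_solvable N hs hab

theorem ex_ext {R : Type} [Group R] (R1 : Subgroup R) [R1.Normal] (h1 : Ex R1)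
    (h2 : Ex (R ⧸ R1)) : Ex R := by
  refine E01_aux.of_surj fun E _ _ f hf hab => ?_
  have hk1 : (f.subgroupComap R1).ker = f.ker.subgroupOf (R1.comap f) := by
    ext x
    rw [MonoidHom.mem_ker, Subgroup.mem_subgroupOf, MonoidHom.mem_ker]
    constructor
    · intro hx
      have h3 := congrArg Subtype.val hx
      exact h3
    · intro hx
      exact Subtype.ext hx
  have hle : f.ker ≤ R1.comap f := by
    intro x hx
    rw [MonoidHom.mem_ker] at hx
    rw [Subgroup.mem_comap, hx]
    exact R1.one_mem
  have hab1 : AB2 (f.subgroupComap R1).ker :=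
    ParkerGL.ab_congr ((Subgroup.subgroupOfEquivOfLe hle).symm.trans
      (MulEquiv.subgroupCongr hk1.symm)) hab
  have hN1 : AB2 (R1.comap f) :=
    E01_aux.surj h1 (f.subgroupComap R1) (f.subgroupComap_surjective_of_surjective R1 hf) hab1
  have hk2 : ((QuotientGroup.mk' R1).comp f).ker = R1.comap f := by
    rw [← MonoidHom.comap_ker, QuotientGroup.ker_mk']
  refine E01_aux.surj h2 ((QuotientGroup.mk' R1).comp f) ?_ ?_
  · rw [MonoidHom.coe_comp]
    exact (QuotientGroup.mk'_surjective R1).comp hf
  · exact ParkerGL.ab_congr (MulEquiv.subgroupCongr hk2.symm) hN1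

theorem ex_hom {R Q : Type} [Group R] [Group Q] (f : R →* Q) (h1 : Ex f.ker) (h2 : Ex f.range) :
    Ex R :=
  ex_ext f.ker h1 (ex_congr (QuotientGroup.quotientKerEquivRange f).symm h2)

theorem ex_ab {R : Type} [Group R] [Finite R] (h : Ex R) : AB2 R := by
  refine E01_aux.surj h (MonoidHom.id R) Function.surjective_id ?_
  have hs : Group.IsSolvable (MonoidHom.id R).ker := by
    have h1 : Subsingleton (MonoidHom.id R).ker := by
      refine ⟨fun a b => Subtype.ext ?_⟩
      have ha : (a : R) = 1 := MonoidHom.mem_ker.1 a.2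
      have hb : (b : R) = 1 := MonoidHom.mem_ker.1 b.2
      rw [ha, hb]
    exact inferInstance
  exact Parker.of_solvable (c := Parker.ctx2) (MonoidHom.id R).ker

theorem ex_quot {L R : Type} [Group L] [Finite L] [Group R] (f : L →* R)
    (hf : Function.Surjective f) (h : Ex L) : Ex R := by
  refine E01_aux.of_surj fun E _ _ p hp hab => ?_
  let X : Subgroup (E × L) :=
    (p.comp (MonoidHom.fst E L)).eqLocus (f.comp (MonoidHom.snd E L))
  have hX : ∀ x : E × L, x ∈ X ↔ p x.1 = f x.2 := fun x => Iff.rfl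
  let π1 : X →* E := (MonoidHom.fst E L).comp X.subtype
  let π2 : X →* L := (MonoidHom.snd E L).comp X.subtype
  have hπ2 : Function.Surjective π2 := by
    intro l
    obtain ⟨e, he⟩ := hp (f l)
    exact ⟨⟨(e, l), he⟩, rfl⟩
  have hπ1 : Function.Surjective π1 := by
    intro e
    obtain ⟨l, hl⟩ := hf (p e)
    exact ⟨⟨(e, l), hl.symm⟩, rfl⟩
  have hp1 : ∀ x : X, x ∈ π2.ker → p x.1.1 = 1 := by
    intro x hx
    have h3 : x.1.2 = 1 := hx
    have h4 : p x.1.1 = f x.1.2 := x.2
    rw [h4, h3, map_one]
  let e1 : p.ker ≃* π2.ker :=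
    { toFun := fun n => ⟨⟨(n.1, 1), by
        show p n.1 = f 1
        rw [map_one]
        exact MonoidHom.mem_ker.1 n.2⟩, rfl⟩
      invFun := fun x => ⟨x.1.1.1, MonoidHom.mem_ker.2 (hp1 x.1 x.2)⟩
      left_inv := fun n => rfl
      right_inv := by
        intro x
        have h3 : x.1.1.2 = 1 := x.2
        apply Subtype.ext
        apply Subtype.ext
        exact Prod.ext rfl h3.symm
      map_mul' := by
        intro a b
        apply Subtype.ext
        apply Subtype.ext
        exact Prod.ext rfl (mul_one (1 : L)).symm }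
  have hXab : AB2 X := E01_aux.surj h π2 hπ2 (ParkerGL.ab_congr e1 hab)
  exact ParkerGL.ab_quot π1 hπ1 hXab

end

end CF
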