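import Pool.Agent.CF.Defs
import Pool.Agent.Parker.P20
import Pool.Agent.Parker.P29

/-!
# MP_6c3636_al, CF, module U01: Clifford step, orbits (helper7)

Variant of `Parker.good_of_orbit` (Parker/P20, same proof up to the last step). Let `H = orbStab` be the stabilizer of the `Γ`-orbit `O` of `θ` (with `P20_aux.orbStab`; `N ≤ H` by `Parker.cj_self`, `H ≠ ⊤`). `E = ∑ φ ∈ O, act (rs N ρ) (es φ)` is a block idempotent for `H` (`clifford_blk`), self adjoint and `Γ`-rational, exactly as in P20. If `Even H.index`, use `Parker.good_blk_odd` (P17; no hypothesis on subgroups). Otherwise `H.index` is odd and `hov` gives `M ≥ H`, `M ≠ ⊤` with (A). Let `O' = {cj N h φ : h ∈ M, φ ∈ O}` (as a filter of `irr Ω N`). Then `E' = ∑ φ ∈ O', act (rs N ρ) (es φ)` is a block idempotent for `M`: `O'` is stable under `M`, and if `g ∉ M` then `cj N g φ ∉ O'` for `φ ∈ O'` (if `cj N g (cj N h φ) = cj N h' φ'` with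 `φ, φ' ∈ O`, then `x = h'⁻¹ g h` maps `φ = σ θ` to `φ' = τ θ`, so `cj N x θ = (σ⁻¹ τ) θ`, `x ∈ H ≤ M`). `E'` is self adjoint (`idem_adj`: all `φ ∈ O'` are self dual, `du_cj`) and rational (`idem_rat`: `O'` is stable under `Γ`, `cj` commutes with `σ`). Use `Parker.good_blk` with `H := M`.
-/

namespace CF

noncomputable section

open Classical Matrix

variable {Ω : Type} [Field Ω] [IsAlgClosed Ω] [CharZero Ω] {G : Type} [Group G] [Finite G]
  {V : Type} [AddCommGroup V] [Module Ω V] [FiniteDimensional Ω V]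
  {ρ : Representation Ω G V} {c : Parker.Ctx Ω} {m : ℕ} {Γ : Subgroup (RingAut Ω)}

open Parker

namespace U01_aux

/-- the block idempotent of a subgroup `K` which contains the stabilizer of the orbit of `θ` -/
theorem blk_orbit {B : LinearMap.BilinForm Ω V} (hB : InvForm ρ B) (N : Subgroup G) [N.Normal]
    (K : Subgroup G) {θ : N → Ω} (hθ : θ ∈ irr Ω N)
    (hmul : mul (rs N ρ).character θ ≠ 0) (hsd : du θ = θ)
    (hK : ∀ x : G, (∃ σ ∈ Γ, cj N x θ = fun n => σ (θ n)) → x ∈ K) :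
    ∃ E : Module.End Ω V, Blk ρ K E ∧ SelfAdj B E ∧ E ∈ Rat Γ ρ := by
  set O : Finset (N → Ω) := (irr Ω N).filter fun φ =>
    ∃ h ∈ K, ∃ σ ∈ Γ, φ = fun n => σ (cj N h θ n) with hOdef
  have memO : ∀ φ, φ ∈ O ↔ ∃ h ∈ K, ∃ σ ∈ Γ, φ = fun n => σ (cj N h θ n) := by
    intro φ
    rw [hOdef, Finset.mem_filter]
    constructor
    · exact fun h => h.2
    · rintro ⟨h, hh, σ, hσ, rfl⟩
      exact ⟨sigma_mem_irr (cj_mem_irr N hθ h) σ, h, hh, σ, hσ, rfl⟩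
  have hOirr : ∀ φ ∈ O, φ ∈ irr Ω N := fun φ hφ => (Finset.mem_filter.1 hφ).1
  have hstab : ∀ h ∈ K, ∀ φ ∈ O, cj N h φ ∈ O := by
    intro h hh φ hφ
    obtain ⟨h', hh', τ, hτ, rfl⟩ := (memO φ).1 hφ
    refine (memO _).2 ⟨h * h', K.mul_mem hh hh', τ, hτ, ?_⟩
    rw [P20_aux.cj_sigma, cj_mul]
  have hoff : ∀ x, x ∉ K → ∀ φ ∈ O, cj N x φ ∉ O := by
    intro x hx φ hφ hcon
    obtain ⟨h, hh, σ, hσ, rfl⟩ := (memO φ).1 hφ
    obtain ⟨h', hh', τ, hτ, h1⟩ := (memO _).1 hcon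
    have h2 : h'⁻¹ * (x * h) ∈ K := by
      refine hK _ ⟨σ⁻¹ * τ, Γ.mul_mem (Γ.inv_mem hσ) hτ, ?_⟩
      rw [P20_aux.cj_sigma, ← cj_mul] at h1
      have h3 : cj N (x * h) θ = fun n => σ⁻¹ (τ (cj N h' θ n)) := by
        funext n
        have h4 : σ (cj N (x * h) θ n) = τ (cj N h' θ n) := congrFun h1 n
        rw [← h4, P20_aux.sigma_inv]
      rw [cj_mul, h3]
      show cj N h'⁻¹ (fun n => σ⁻¹ ((fun k => τ (cj N h' θ k)) n)) = _
      rw [P20_aux.cj_sigma, P20_aux.cj_sigma, P20_aux.cj_inv_cj]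
      rfl
    apply hx
    have h3 : x = h' * (h'⁻¹ * (x * h)) * h⁻¹ := by group
    rw [h3]
    exact K.mul_mem (K.mul_mem hh' h2) (K.inv_mem hh)
  have hθO : θ ∈ O := (memO θ).2 ⟨1, K.one_mem, 1, Γ.one_mem, by rw [cj_one]; rfl⟩
  refine ⟨∑ φ ∈ O, act (rs N ρ) (es φ), clifford_blk N K hOirr hstab hoff ⟨θ, hθO, hmul⟩, ?_, ?_⟩
  · have hBN : InvForm (rs N ρ) B := ⟨hB.symm, hB.nondeg, fun n => hB.inv n⟩
    intro x y
    rw [LinearMap.sum_apply, LinearMap.sum_apply, map_sum, map_sum, LinearMap.sum_apply]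
    refine Finset.sum_congr rfl fun φ hφ => ?_
    rw [idem_adj hBN (hOirr φ hφ)]
    obtain ⟨h, hh, σ, hσ, rfl⟩ := (memO φ).1 hφ
    have h1 : du (fun n => σ (cj N h θ n)) = fun n => σ (cj N h θ n) := by
      have h0 : du (cj N h θ) = cj N h θ := by rw [du_cj, hsd]
      funext n
      have h2 := congrFun h0 n
      simp only [du] at h2 ⊢
      rw [h2]
    rw [h1]
  · refine rat_res (H := N) (idem_rat (rs N ρ) hOirr ?_)
    intro σ hσ φ hφ
    obtain ⟨h, hh, τ, hτ, rfl⟩ := (memO φ).1 hφ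
    exact (memO _).2 ⟨h, hh, σ * τ, Γ.mul_mem hσ hτ, rfl⟩

end U01_aux

theorem good_orbit (hρ : ρ.IsIrreducible) (hev : Even (Module.finrank Ω V)) (hO : Orth ρ)
    (hF : FxC Γ ρ) (hΓ : Ok c m Γ) (N : Subgroup G) [N.Normal]
    (hov : ∀ T : Subgroup G, N ≤ T → T ≠ ⊤ → Odd T.index →
      ∃ M : Subgroup G, T ≤ M ∧ M ≠ ⊤ ∧ PropA c m M) {θ : N → Ω} (hθ : θ ∈ irr Ω N)
    (hmul : mul (rs N ρ).character θ ≠ 0) (hsd : du θ = θ) {g : G}
    (hg : ∀ σ ∈ Γ, cj N g θ ≠ fun n => σ (θ n)) : GoodV c Γ ρ := by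
  obtain ⟨B, hB⟩ := hO
  set H : Subgroup G := P20_aux.orbStab N Γ θ (cj_one N) (cj_mul N) with hH
  have memH : ∀ x : G, x ∈ H ↔ ∃ σ ∈ Γ, cj N x θ = fun n => σ (θ n) := fun x => Iff.rfl
  have hHt : H ≠ ⊤ := by
    intro h
    have h1 : g ∈ H := by rw [h]; exact Subgroup.mem_top g
    obtain ⟨σ, hσ, h2⟩ := (memH g).1 h1
    exact hg σ hσ h2
  rcases Nat.even_or_odd H.index with hi | hi
  · obtain ⟨E, h1, h2, h3⟩ := U01_aux.blk_orbit (Γ := Γ) hB N H hθ hmul hsd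
      (fun x hx => (memH x).2 hx)
    exact good_blk_odd h1 hρ hB h2 h3 hi
  · have hNH : N ≤ H := by
      intro x hx
      refine (memH x).2 ⟨1, Γ.one_mem, ?_⟩
      rw [cj_self N hθ ⟨x, hx⟩]
      rfl
    obtain ⟨M, hHM, _, hA⟩ := hov H hNH hHt hi
    obtain ⟨E, h1, h2, h3⟩ := U01_aux.blk_orbit (Γ := Γ) hB N M hθ hmul hsd
      (fun x hx => hHM ((memH x).2 hx))
    exact good_blk h1 hρ hB h2 h3 hF hΓ hA hev

end

end CF
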