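import Pool.Agent.CF.Defs
import Pool.Agent.CF.U01

/-!
# MP_6c3636_al, CF, module U02: Clifford step, the restriction is isotypic (helper7)

`card_one` is `Parker.card_eq_one` (P19) with a weaker hypothesis: only the subgroups `H` of index two which contain `N` are excluded, where `N` acts trivially on `Θ`. In the proof in P19 the index two subgroup comes from `exists_index_two T` for the kernel `T` of the action of `G` on `Θ`; `N ≤ T ≤ H`. `iso_type` is `Parker.step3` (P20) with the same proof: `NoOdd (rs N ρ)` is excluded by `good_of_res` with (A), (B) of `N`; `good_of_orbit` is replaced by `good_orbit` (U01); `card_eq_one` is replaced by `card_one` (`N` acts trivially on `irr Ω N` by `Parker.cj_self`). If `N ≤ H` and `H.index = 2` then `H` is normal and contains the commutator subgroup (`G ⧸ H` is commutative), so `H ≥ commutator G ⊔ N = ⊤`, contradiction.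
-/

namespace CF

noncomputable section

open Classical Matrix

variable {Ω : Type} [Field Ω] [IsAlgClosed Ω] [CharZero Ω] {G : Type} [Group G] [Finite G]
  {V : Type} [AddCommGroup V] [Module Ω V] [FiniteDimensional Ω V]
  {ρ : Representation Ω G V} {c : Parker.Ctx Ω} {m : ℕ} {Γ : Subgroup (RingAut Ω)}

open Parker

omit [IsAlgClosed Ω] [CharZero Ω] in
theorem card_one {H₀ E X : Type} [Group H₀] [Finite H₀] [Group E]
    [MulAction E X] [MulAction H₀ X] (Θ : Finset X)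
    (hG : ∀ (g : H₀), ∀ x ∈ Θ, g • x ∈ Θ)
    (hst : ∀ (e : E), ∀ x ∈ Θ, e • x ∈ Θ)
    (hcomm : ∀ (g : H₀) (e : E) (x : X), g • e • x = e • g • x)
    (h2 : ∀ e : E, ∃ j : ℕ, ∀ x ∈ Θ, (e ^ (2 ^ j)) • x = x) (hne : Θ.Nonempty)
    (htrans : ∀ x ∈ Θ, ∀ y ∈ Θ, ∃ e : E, e • x = y)
    (htransG : ∀ x ∈ Θ, ∀ y ∈ Θ, ∃ g : H₀, g • x = y) (N : Subgroup H₀)
    (hN : ∀ n ∈ N, ∀ x ∈ Θ, n • x = x)
    (hno : ∀ H : Subgroup H₀, N ≤ H → H.index ≠ 2) : Θ.card = 1 := by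
  obtain ⟨k, hk⟩ := card_two_pow Θ hst h2 hne htrans
  obtain ⟨x, hx⟩ := hne
  have horb : MulAction.orbit H₀ x = (Θ : Set X) := by
    ext y
    constructor
    · rintro ⟨g, rfl⟩
      exact hG g x hx
    · intro hy
      obtain ⟨g, hg⟩ := htransG x hx y hy
      exact ⟨g, hg⟩
  have hidx : (MulAction.stabilizer H₀ x).index = Θ.card := by
    rw [MulAction.index_stabilizer, horb, Set.ncard_coe_finset]
  have hfix : ∀ g ∈ MulAction.stabilizer H₀ x, ∀ y ∈ Θ, g • y = y := by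
    intro g hg y hy
    obtain ⟨e, rfl⟩ := htrans x hx y hy
    rw [hcomm, MulAction.mem_stabilizer_iff.mp hg]
  have hnormal : (MulAction.stabilizer H₀ x).Normal := by
    refine ⟨fun n hn g => ?_⟩
    rw [MulAction.mem_stabilizer_iff, mul_smul, mul_smul, hfix n hn _ (hG g⁻¹ x hx),
      smul_inv_smul]
  have hNle : N ≤ MulAction.stabilizer H₀ x := fun n hn => by
    rw [MulAction.mem_stabilizer_iff]
    exact hN n hn x hx
  by_cases htop : MulAction.stabilizer H₀ x = ⊤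
  · rw [← hidx, htop, Subgroup.index_top]
  · obtain ⟨H, hle, hH⟩ := exists_index_two (MulAction.stabilizer H₀ x) (hidx.trans hk) htop
    exact absurd hH (hno H (hNle.trans hle))

theorem iso_type (hρ : ρ.IsIrreducible) (hev : Even (Module.finrank Ω V)) (hO : Orth ρ)
    (hF : FxC Γ ρ) (hΓ : Ok c m Γ) (hm : m ≠ 0) (hG : Nat.card G ∣ m)
    (N : Subgroup G) [N.Normal] (hAN : PropA c m N) (hBN : PropB c m N)
    (hp : commutator G ⊔ N = ⊤)
    (hov : ∀ T : Subgroup G, N ≤ T → T ≠ ⊤ → Odd T.index →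
      ∃ M : Subgroup G, T ≤ M ∧ M ≠ ⊤ ∧ PropA c m M) (hbad : ¬ GoodV c Γ ρ) :
    ∃ θ ∈ irr Ω N, act (rs N ρ) (es θ) = 1 ∧ (∀ g : G, cj N g θ = θ) ∧
      (∀ σ ∈ Γ, ∀ n, σ (θ n) = θ n) ∧ du θ = θ ∧ Odd (dg θ) := by
  have h1 : ¬ NoOdd (rs N ρ) := fun h =>
    hbad (good_of_res N hAN hBN hΓ hO hF h)
  rw [noOdd_iff] at h1
  push Not at h1
  obtain ⟨θ, hθ, hmul, hsd, hodd⟩ := h1
  rw [Nat.not_even_iff_odd] at hodd
  have hconj : ∀ g : G, ∃ σ ∈ Γ, cj N g θ = fun n => σ (θ n) := by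
    intro g
    by_contra hcon
    push Not at hcon
    exact hbad (good_orbit hρ hev hO hF hΓ N hov hθ hmul hsd hcon)
  set Θ : Finset (N → Ω) := (irr Ω N).filter fun φ => ∃ σ ∈ Γ, φ = fun n => σ (θ n) with hΘdef
  have memΘ : ∀ φ, φ ∈ Θ ↔ ∃ σ ∈ Γ, φ = fun n => σ (θ n) := by
    intro φ
    rw [hΘdef, Finset.mem_filter]
    constructor
    · exact fun h => h.2
    · rintro ⟨σ, hσ, rfl⟩
      exact ⟨sigma_mem_irr hθ σ, σ, hσ, rfl⟩
  have hΘirr : ∀ φ ∈ Θ, φ ∈ irr Ω N := fun φ hφ => (Finset.mem_filter.1 hφ).1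
  have hθΘ : θ ∈ Θ := (memΘ θ).2 ⟨1, Γ.one_mem, rfl⟩
  have hFN : ∀ σ ∈ Γ, Fixes σ (rs N ρ) := fun σ hσ n => hF n σ hσ
  have hmulΘ : ∀ φ ∈ Θ, mul (rs N ρ).character φ ≠ 0 := by
    intro φ hφ
    obtain ⟨σ, hσ, rfl⟩ := (memΘ φ).1 hφ
    rw [mul_sigma (hFN σ hσ) hθ]
    exact hmul
  have hGst : ∀ (g : G), ∀ φ ∈ Θ, cj N g φ ∈ Θ := by
    intro g φ hφ
    obtain ⟨σ, hσ, rfl⟩ := (memΘ φ).1 hφ
    obtain ⟨τ, hτ, h2⟩ := hconj g
    refine (memΘ _).2 ⟨σ * τ, Γ.mul_mem hσ hτ, ?_⟩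
    rw [P20_aux.cj_sigma, h2]
    rfl
  let instE : MulAction Γ (N → Ω) :=
    { smul := fun σ φ n => (σ : RingAut Ω) (φ n)
      one_smul := fun φ => rfl
      mul_smul := fun σ τ φ => rfl }
  let instG : MulAction G (N → Ω) :=
    { smul := fun g φ => cj N g φ
      one_smul := fun φ => cj_one N φ
      mul_smul := fun g h φ => cj_mul N g h φ }
  have hcard : Θ.card = 1 := by
    refine @card_one G Γ (N → Ω) _ _ _ instE instG Θ hGst ?_ ?_ ?_ ⟨θ, hθΘ⟩ ?_ ?_ N ?_ ?_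
    · intro σ φ hφ
      obtain ⟨τ, hτ, rfl⟩ := (memΘ φ).1 hφ
      exact (memΘ _).2 ⟨σ * τ, Γ.mul_mem σ.2 hτ, rfl⟩
    · intro g σ φ
      rfl
    · intro σ
      obtain ⟨j, hj⟩ := two_irr (G := N) hΓ hm ((Subgroup.card_subgroup_dvd_card N).trans hG) σ.2
      refine ⟨j, fun φ hφ => ?_⟩
      funext n
      exact hj φ (hΘirr φ hφ) n
    · intro φ hφ ψ hψ
      obtain ⟨σ, hσ, rfl⟩ := (memΘ φ).1 hφ
      obtain ⟨τ, hτ, rfl⟩ := (memΘ ψ).1 hψ
      refine ⟨⟨τ * σ⁻¹, Γ.mul_mem hτ (Γ.inv_mem hσ)⟩, ?_⟩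
      funext n
      show τ (σ⁻¹ (σ (θ n))) = τ (θ n)
      rw [P20_aux.sigma_inv]
    · intro φ hφ ψ hψ
      obtain ⟨g, hg⟩ := clifford_trans N hρ (hΘirr φ hφ) (hΘirr ψ hψ) (hmulΘ φ hφ) (hmulΘ ψ hψ)
      exact ⟨g, hg.symm⟩
    · intro n hn φ hφ
      exact cj_self N (hΘirr φ hφ) ⟨n, hn⟩
    · intro H hNH hH
      have hc : commutator G ≤ H := by
        rw [commutator_def, Subgroup.commutator_le]
        intro a _ b _
        rw [commutatorElement_def, Subgroup.mul_mem_iff_of_index_two hH,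
          Subgroup.mul_mem_iff_of_index_two hH, Subgroup.mul_mem_iff_of_index_two hH,
          inv_mem_iff, inv_mem_iff]
        tauto
      have htop : H = ⊤ := top_le_iff.1 (hp ▸ sup_le hc hNH)
      rw [htop, Subgroup.index_top] at hH
      exact absurd hH (by norm_num)
  obtain ⟨a, ha⟩ := Finset.card_eq_one.1 hcard
  have hΘ : ∀ φ ∈ Θ, φ = θ := by
    intro φ hφ
    rw [ha, Finset.mem_singleton] at hφ hθΘ
    rw [hφ, hθΘ]
  have hfix : ∀ g : G, cj N g θ = θ := fun g => hΘ _ (hGst g θ hθΘ)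
  refine ⟨θ, hθ, ?_, hfix, ?_, hsd, hodd⟩
  · have h2 := clifford_one N hρ (O := {θ}) (fun φ hφ => by
      rw [Finset.mem_singleton] at hφ
      rw [hφ]
      exact hθ) (fun g φ hφ => by
      rw [Finset.mem_singleton] at hφ ⊢
      rw [hφ]
      exact hfix g) ⟨θ, Finset.mem_singleton_self θ, hmul⟩
    rw [Finset.sum_singleton] at h2
    exact h2
  · intro σ hσ n
    exact congrFun (hΘ _ ((memΘ _).2 ⟨σ, hσ, rfl⟩)) n

end

end CF
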