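import Pool.Agent.CF.Defs
import Pool.Agent.Parker.P28
import Pool.Agent.ParkerGL.F04

/-!
# MP_6c3636_al, CF, module U03: covers of order two (helper7)

(A) and (B) for `G` from (A) and (B) for `G ⧸ Z`, where `Z` is normal, `|Z| ≤ 2` and `G = [G, G] Z`. If `|Z| = 1`, `G ≃* G ⧸ Z`. Let `|Z| = 2`; then `Z` is central (a normal subgroup of order two).
`cover_split`: if some homomorphism `τ` from `G` to a commutative group is nontrivial on `Z`, then `G ≃* (G ⧸ Z) × Z`: `τ` is trivial on `C = commutator G`, so `C ⊓ Z = ⊥` (`Z` has only one nontrivial element) and `C ⊔ Z = ⊤`; so `G` is the direct product of `C` and `Z` (`Z` central), and `C ≃* G ⧸ Z`. (`Subgroup.IsComplement'` and `IsComplement'.QuotientMulEquiv`, or directly: the map `G → (G ⧸ Z) × Z`, `g ↦ (gZ, z)` where `g = c z`, `c ∈ C`.) Then `ab_cover` follows from `ParkerGL.ab_prod` and `Parker.of_solvable Z`.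
Otherwise all `τ : G →* Ωˣ` are trivial on `Z`. (A): `Parker.propA_of_good`; let `ρ` be irreducible, orthogonal, of even degree with fixed character. If `Z` acts trivially use `Parker.good_of_quot`. Otherwise let `P` be a Sylow `2`-subgroup: `Parker.noOdd_sylow` (P25) and `Parker.good_of_res` with (A), (B) of `P` (`Parker.of_solvable`: `P` is a `2`-group, nilpotent, `IsPGroup.isNilpotent`, solvable). (B): for `ρ` irreducible of odd degree `n` the group `Z` acts trivially (see the private `trivial_central` in P28: `ρ z = a • 1` with `a ^ 2 = 1` by Schur, and `det (ρ z) = a ^ n = 1` because `g ↦ det (ρ g)` is a `τ`; so `a = 1`); then `Parker.propB_of_quot`.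
-/

namespace CF

noncomputable section

open Classical Matrix

variable {Ω : Type} [Field Ω] [IsAlgClosed Ω] [CharZero Ω] {G : Type} [Group G] [Finite G]
  {V : Type} [AddCommGroup V] [Module Ω V] [FiniteDimensional Ω V]
  {ρ : Representation Ω G V} {c : Parker.Ctx Ω} {m : ℕ} {Γ : Subgroup (RingAut Ω)}

omit [IsAlgClosed Ω] [CharZero Ω] in
/-- two nontrivial elements of a group of order two are equal -/
private theorem two_unique (Z : Subgroup G) (hZ : Nat.card Z = 2) {a b : G} (ha : a ∈ Z)
    (hb : b ∈ Z) (ha1 : a ≠ 1) (hb1 : b ≠ 1) : a = b := by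
  obtain ⟨w, -, hw'⟩ := (Nat.card_eq_two_iff' (1 : Z)).1 hZ
  have h1 := hw' ⟨a, ha⟩ (fun e => ha1 (congrArg Subtype.val e))
  have h2 := hw' ⟨b, hb⟩ (fun e => hb1 (congrArg Subtype.val e))
  exact congrArg Subtype.val (h1.trans h2.symm)

omit [IsAlgClosed Ω] [CharZero Ω] in
theorem cover_split {A : Type} [CommGroup A] (Z : Subgroup G) [Z.Normal] (hZ : Nat.card Z = 2)
    (hp : commutator G ⊔ Z = ⊤) (τ : G →* A) (hτ : ∃ z ∈ Z, τ z ≠ 1) :
    Nonempty (G ≃* (G ⧸ Z) × Z) := by
  obtain ⟨z, hz, hz1⟩ := hτ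
  have hC : commutator G ≤ τ.ker := Abelianization.commutator_subset_ker τ
  have hdis : Disjoint (commutator G) Z := by
    rw [Subgroup.disjoint_def]
    intro x hx hxZ
    by_contra hne
    apply hz1
    have hz0 : z ≠ 1 := by
      rintro rfl
      exact hz1 (map_one τ)
    rw [← two_unique Z hZ hxZ hz hne hz0]
    exact hC hx
  have hcomp : Subgroup.IsComplement' (commutator G) Z := by
    apply Subgroup.isComplement'_of_disjoint_and_mul_eq_univ hdis
    rw [← Subgroup.mul_normal, hp]
    rfl
  let e : G ⧸ commutator G ≃* Z := hcomp.symm.QuotientMulEquiv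
  let F : G →* (G ⧸ Z) × (G ⧸ commutator G) :=
    (QuotientGroup.mk' Z).prod (QuotientGroup.mk' (commutator G))
  have hF : Function.Injective F := by
    rw [injective_iff_map_eq_one]
    intro g hg
    have h1 : QuotientGroup.mk' Z g = 1 := congrArg Prod.fst hg
    have h2 : QuotientGroup.mk' (commutator G) g = 1 := congrArg Prod.snd hg
    rw [QuotientGroup.mk'_apply, QuotientGroup.eq_one_iff] at h1 h2
    exact Subgroup.disjoint_def.1 hdis h2 h1
  have hcard : Nat.card ((G ⧸ Z) × (G ⧸ commutator G)) ≤ Nat.card G := by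
    have h1 : Nat.card (G ⧸ commutator G) = Nat.card Z := Nat.card_congr e.toEquiv
    rw [Nat.card_prod, h1, ← Subgroup.card_eq_card_quotient_mul_card_subgroup]
  have hbij : Function.Bijective F := hF.bijective_of_nat_card_le hcard
  exact ⟨(MulEquiv.ofBijective F hbij).trans (MulEquiv.prodCongr (MulEquiv.refl _) e)⟩

omit [IsAlgClosed Ω] [CharZero Ω] in
/-- a normal subgroup of order two is central -/
private theorem two_central (Z : Subgroup G) [hZn : Z.Normal] (hZ : Nat.card Z = 2) :
    ∀ z ∈ Z, ∀ g, g * z = z * g := by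
  intro z hz g
  by_cases hz1 : z = 1
  · rw [hz1, mul_one, one_mul]
  have hconj : g * z * g⁻¹ ∈ Z := hZn.conj_mem z hz g
  have hne : g * z * g⁻¹ ≠ 1 := by
    intro h1
    apply hz1
    have h2 : g * z = g := by
      have := congrArg (· * g) h1
      simpa using this
    simpa using h2
  have heq := two_unique Z hZ hconj hz hne hz1
  calc g * z = g * z * g⁻¹ * g := by group
    _ = z * g := by rw [heq]

/-- a representation of odd dimension is trivial on a central subgroup of order two on which every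
homomorphism to `Ωˣ` is trivial -/
private theorem trivial_central (Z : Subgroup G) (hZ : Nat.card Z = 2)
    (hZc : ∀ z ∈ Z, ∀ g, g * z = z * g) (hτ : ∀ (τ : G →* Ωˣ), ∀ z ∈ Z, τ z = 1)
    {n : ℕ} {ρ : Representation Ω G (Fin n → Ω)} (hρ : ρ.IsIrreducible) (hodd : Odd n) :
    ∀ z ∈ Z, ρ z = 1 := by
  intro z hz
  obtain ⟨a, ha⟩ := Parker.schur hρ (T := ρ z) (fun g => by
    rw [← map_mul, ← map_mul, hZc z hz g])
  have hz2 : z ^ 2 = 1 := by
    have h := pow_card_eq_one' (x := (⟨z, hz⟩ : Z))
    rw [hZ] at h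
    exact congrArg Subtype.val h
  have hn : 0 < n := hodd.pos
  have ha2 : a ^ 2 = 1 := by
    have h1 : ρ z ^ 2 = 1 := by rw [← map_pow, hz2, map_one]
    rw [ha, smul_pow, one_pow] at h1
    have h2 := congrArg (fun f : Module.End Ω (Fin n → Ω) => f (fun _ => 1) ⟨0, hn⟩) h1
    simpa using h2
  have hdet : a ^ n = 1 := by
    have h1 := hτ (MonoidHom.toHomUnits (LinearMap.det.comp ρ)) z hz
    have h2 := congrArg (fun u : Ωˣ => (u : Ω)) h1
    simp only [MonoidHom.coe_toHomUnits, MonoidHom.coe_comp, Function.comp_apply,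
      Units.val_one] at h2
    rw [ha, LinearMap.det_smul, map_one, mul_one, Module.finrank_fin_fun] at h2
    exact h2
  obtain ⟨k, rfl⟩ := hodd
  have ha1 : a = 1 := by
    rw [pow_succ, pow_mul, ha2, one_pow, one_mul] at hdet
    exact hdet
  rw [ha, ha1, one_smul]

omit [IsAlgClosed Ω] [CharZero Ω] in
private theorem two_solvable {P : Type} [Group P] [Finite P] (h : IsPGroup 2 P) :
    Group.IsSolvable P := by
  have : Fact (Nat.Prime 2) := ⟨Nat.prime_two⟩
  have : Group.IsNilpotent P := h.isNilpotent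
  infer_instance

theorem ab_cover (Z : Subgroup G) [Z.Normal] (hZ : Nat.card Z ≤ 2)
    (hp : commutator G ⊔ Z = ⊤) (h : ParkerGL.AB c (G ⧸ Z)) : ParkerGL.AB c G := by
  have h0 : 0 < Nat.card Z := Nat.card_pos
  rcases Nat.lt_or_ge (Nat.card Z) 2 with h1 | h1
  · have hb : Z = ⊥ := Subgroup.card_eq_one.1 (by omega)
    subst hb
    exact ParkerGL.ab_congr QuotientGroup.quotientBot h
  · have h2 : Nat.card Z = 2 := le_antisymm hZ h1
    by_cases hτ : ∃ τ : G →* Ωˣ, ∃ z ∈ Z, τ z ≠ 1
    · obtain ⟨τ, hτ⟩ := hτ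
      obtain ⟨e⟩ := cover_split Z h2 hp τ hτ
      have hs : Group.IsSolvable Z :=
        two_solvable (IsPGroup.of_card (n := 1) (by rw [h2, pow_one]))
      exact ParkerGL.ab_congr e.symm (ParkerGL.ab_prod h (Parker.of_solvable Z))
    · push Not at hτ
      have hZc := two_central Z h2
      refine ⟨?_, ?_⟩
      · refine Parker.propA_of_good fun Γ hΓ n ρ hρ hn hO hF => ?_
        have hev : Even (Module.finrank Ω (Fin n → Ω)) := by
          rw [Module.finrank_fin_fun]
          exact hn
        by_cases hZρ : ∀ z ∈ Z, ρ z = 1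
        · exact Parker.good_of_quot Z h.1 hΓ hρ hev hO hF hZρ
        · have : Fact (Nat.Prime 2) := ⟨Nat.prime_two⟩
          obtain ⟨P⟩ : Nonempty (Sylow 2 G) := inferInstance
          have hno := Parker.noOdd_sylow Z hZc h2 hτ hρ hZρ P
          have hs : Group.IsSolvable (P : Subgroup G) := two_solvable P.2
          have hP := Parker.of_solvable (c := c) (P : Subgroup G)
          exact Parker.good_of_res (P : Subgroup G) hP.1 hP.2 hΓ hO hF hno
      · intro Γ hΓ n ρ hρ hodd hγ d hd hσ
        have hodd' : Odd (Module.finrank Ω (Fin n → Ω)) := by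
          rw [Module.finrank_fin_fun]
          exact hodd
        exact Parker.propB_of_quot Z h.2 hΓ hρ hodd'
          (trivial_central Z h2 hZc hτ hρ hodd) hγ hd hσ

end

end CF
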