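import Pool.Agent.CF.Defs
import Pool.Agent.CF.U02
import Pool.Agent.CF.U03
import Pool.Agent.Parker.P23

/-!
# MP_6c3636_al, CF, module U04: Clifford step, property (A) (helper7)

`ab_ker`: the subgroup `M` is normal in `G`, `M ≤ N`, `N / M` has at most two elements (`D` has at most the two values `1`, `-1` and the kernel of `D` corresponds to `M`), `G ⧸ M` has the normal subgroup `Z = N.map (QuotientGroup.mk' M)` of order at most two, `(G ⧸ M) ⧸ Z ≃* G ⧸ N` (`QuotientGroup.quotientQuotientEquivQuotient`), and `commutator (G ⧸ M) ⊔ Z = ⊤` (image of `hp`). Apply `ab_cover` (U03) and `ParkerGL.ab_congr`.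
`up_A`: `Parker.propA_of_good`; assume that `ρ` (even degree, orthogonal, fixed character) is not good; `iso_type` (U02) gives `θ`. Continue as in `Parker.step4` (P23): `θ` is afforded by `θr` of odd degree `a`, `canonical_extension`, `tensor_decomposition` give `S` and `β` (irreducible, orthogonal, even degree, `FxC Γ β` by `fixes_iff`), `M = (ker of n ↦ det (θr n)).map N.subtype` is normal and acts trivially on `β`. By `ab_ker` and `Parker.propA_mono` (P29) `PropA c m (G ⧸ M)`, so `β` is good (`good_of_quot`) and `good_tensor` shows that `ρ` is good. Level: `m = Nat.card G`, `propA_mono`, `propB_mono` for `N` and the `M` of `Over`, and `Parker.propA_one` at the end (P29).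
-/

namespace CF

noncomputable section

open Classical Matrix

variable {Ω : Type} [Field Ω] [IsAlgClosed Ω] [CharZero Ω] {G : Type} [Group G] [Finite G]
  {V : Type} [AddCommGroup V] [Module Ω V] [FiniteDimensional Ω V]
  {ρ : Representation Ω G V} {c : Parker.Ctx Ω} {m : ℕ} {Γ : Subgroup (RingAut Ω)}

open Parker

theorem ab_ker (N : Subgroup G) [N.Normal] (hp : commutator G ⊔ N = ⊤)
    (hQ : ParkerGL.AB c (G ⧸ N)) (D : N →* Ω) (hD : ∀ n, D n = 1 ∨ D n = -1)
    (M : Subgroup G) (hMn : M.Normal) (hM : ∀ g, g ∈ M ↔ ∃ n : N, D n = 1 ∧ (n : G) = g) :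
    ParkerGL.AB c (G ⧸ M) := by
  have hMN : M ≤ N := by
    intro g hg
    obtain ⟨n, _, rfl⟩ := (hM g).1 hg
    exact n.2
  have hsurj : Function.Surjective (QuotientGroup.mk' M) := QuotientGroup.mk'_surjective M
  haveI hZn : (N.map (QuotientGroup.mk' M)).Normal := Subgroup.Normal.map inferInstance _ hsurj
  -- equality in the quotient
  have heq : ∀ n n' : N, D n = D n' → QuotientGroup.mk' M (n : G) = QuotientGroup.mk' M (n' : G) := by
    intro n n' h
    rw [QuotientGroup.mk'_eq_mk']
    have hne : D n⁻¹ * D n = 1 := by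
      rw [← map_mul, inv_mul_cancel, map_one]
    refine ⟨(n : G)⁻¹ * (n' : G), (hM _).2 ⟨n⁻¹ * n', ?_, by push_cast; rfl⟩, by group⟩
    rw [map_mul, ← h, hne]
  have hcard : Nat.card (N.map (QuotientGroup.mk' M)) ≤ 2 := by
    have hex : ∀ z : N.map (QuotientGroup.mk' M), ∃ n : N, QuotientGroup.mk' M (n : G) = (z : G ⧸ M) := by
      rintro ⟨z, hz⟩
      obtain ⟨n, hn, rfl⟩ := Subgroup.mem_map.1 hz
      exact ⟨⟨n, hn⟩, rfl⟩
    choose f hf using hex
    have hinj : Function.Injective (fun z => if D (f z) = 1 then (0 : Fin 2) else 1) := by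
      intro z z' h
      have hne : ¬ ((-1 : Ω) = 1) := by
        intro h3
        have h4 : (2 : Ω) = 0 := by linear_combination -h3
        exact two_ne_zero h4
      have hDD : D (f z) = D (f z') := by
        change (if D (f z) = 1 then (0 : Fin 2) else 1) = (if D (f z') = 1 then (0 : Fin 2) else 1) at h
        rcases hD (f z) with h1 | h1 <;> rcases hD (f z') with h2 | h2
        · rw [h1, h2]
        · rw [h1, h2, if_pos rfl, if_neg hne] at h
          exact absurd h (by decide)
        · rw [h1, h2, if_pos rfl, if_neg hne] at h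
          exact absurd h (by decide)
        · rw [h1, h2]
      apply Subtype.ext
      rw [← hf z, ← hf z']
      exact heq _ _ hDD
    have h := Nat.card_le_card_of_injective _ hinj
    rwa [Nat.card_eq_fintype_card (α := Fin 2), Fintype.card_fin] at h
  have hp' : commutator (G ⧸ M) ⊔ N.map (QuotientGroup.mk' M) = ⊤ := by
    have h1 : (commutator G).map (QuotientGroup.mk' M) = commutator (G ⧸ M) := by
      rw [commutator_def, commutator_def, Subgroup.map_commutator,
        Subgroup.map_top_of_surjective _ hsurj]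
    rw [← h1, ← Subgroup.map_sup, hp, Subgroup.map_top_of_surjective _ hsurj]
  refine ab_cover (N.map (QuotientGroup.mk' M)) hcard hp' ?_
  exact ParkerGL.ab_congr (QuotientGroup.quotientQuotientEquivQuotient M N hMN).symm hQ

theorem up_A (N : Subgroup G) [N.Normal] (hN : ParkerGL.AB c N) (hQ : ParkerGL.AB c (G ⧸ N))
    (hp : commutator G ⊔ N = ⊤) (hov : Over c N) : PropA c 1 G := by
  have hm : Nat.card G ≠ 0 := Nat.card_pos.ne'
  refine propA_one (m := Nat.card G) hm dvd_rfl ?_
  refine propA_of_good fun Γ hΓ n ρ hρ hn hO hF => ?_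
  by_contra hbad
  have hfr : Module.finrank Ω (Fin n → Ω) = n := Module.finrank_fin_fun Ω
  have hev : Even (Module.finrank Ω (Fin n → Ω)) := by rw [hfr]; exact hn
  obtain ⟨θ, hθ, hact, hcj, hθF, hdu, hodd⟩ := iso_type hρ hev hO hF hΓ hm dvd_rfl N
    (propA_mono hN.1) (propB_mono hN.2) hp
    (fun T hNT hT hTo => by
      obtain ⟨M, h1, h2, h3, _⟩ := hov T hNT hT hTo
      exact ⟨M, h1, h2, propA_mono h3⟩) hbad
  obtain ⟨a, θr, hθr, rfl⟩ := mem_irr.1 hθ
  have ha : Odd a := by
    rw [dg_char, Module.finrank_fin_fun] at hodd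
    exact hodd
  have hsd : SD θr := fun g => congrFun hdu g
  have hθO : Orth θr := orth_of_odd hθr hsd (by rw [Module.finrank_fin_fun]; exact ha)
  obtain ⟨S, hS, hSO, hSdet, hSconj, hSF⟩ := canonical_extension N ha hθr hsd hcj
  obtain ⟨b, β, hβ, hdim, hβN, hβ1, hβ2, hβO⟩ :=
    tensor_decomposition N ha hθr hθO hS hSO hρ hact
  let _ : Fintype N := Fintype.ofFinite N
  have hSF' : FxC Γ S := hSF Γ (fun g σ hσ => hθF σ hσ g)
  have hβF : FxC Γ β := by
    intro g σ hσ
    have h := (fixes_iff (θ := θr) (S := S) (ρ := ρ) (β := β) N (fun n => det_orth hθO n) hβ1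
      (fun g => hβ2 g) (σ := σ) (fun g => hSF' g σ hσ)).1 (fun g => hF g σ hσ)
    exact h g
  have hb : Even (Module.finrank Ω (Fin b → Ω)) := by
    rw [Module.finrank_fin_fun]
    rw [hdim, Nat.even_mul] at hev
    rcases hev with h | h
    · exact absurd h (Nat.not_even_iff_odd.2 ha)
    · exact h
  let D : N →* Ω := (LinearMap.det : Module.End Ω (Fin a → Ω) →* Ω).comp θr
  have hD : ∀ n, D n = LinearMap.det (θr n) := fun n => rfl
  let M : Subgroup G := (MonoidHom.ker D).map N.subtype
  have hM : ∀ g : G, g ∈ M ↔ ∃ n : N, D n = 1 ∧ (n : G) = g := by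
    intro g
    simp only [M, Subgroup.mem_map, MonoidHom.mem_ker, Subgroup.coe_subtype]
  have hMn : M.Normal := by
    refine ⟨fun x hx g => ?_⟩
    obtain ⟨n, hn, rfl⟩ := (hM x).1 hx
    refine (hM _).2 ⟨MulAut.conjNormal g n, ?_, MulAut.conjNormal_apply g n⟩
    have h := congrArg LinearMap.det (hSconj g n)
    rw [map_mul, map_mul, hSdet, one_mul, mul_one, ← hD, ← hD, hn] at h
    exact h.symm
  have hβM : ∀ n ∈ M, β n = 1 := by
    intro n hn
    obtain ⟨n, hn1, rfl⟩ := (hM n).1 hn
    rw [hβN, ← hD, hn1, one_smul]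
  have hAB : ParkerGL.AB c (G ⧸ M) :=
    ab_ker N hp hQ D (fun n => det_orth hθO n) M hMn hM
  have hgood : GoodV c Γ β := good_of_quot M (propA_mono hAB.1) hΓ hβ hb (hβO hO) hβF hβM
  exact hbad (good_tensor hρ hβ1 hSO hSF' hβF hgood hF)

end

end CF
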