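import Pool.Agent.CF.Defs
import Pool.Agent.Parker.P27
import Pool.Agent.Parker.P29

/-!
# MP_6c3636_al, CF, module U05: Clifford step, property (B), inertia groups (helper7)

Variant of `Parker.propB_inertia` (P27). `H = {g : cj N g θ = θ}` is not `⊤`, contains `N` (`cj_self`), and has odd index (`clifford_blk` for `O = {θ}` and `blk_finrank`: the odd number `finrank V` is a multiple of `H.index`). Let `M ≥ H` from `hov` and `O = {cj N h θ : h ∈ M}` (filter of `irr Ω N`), `E = ∑ φ ∈ O, act (rs N ρ) (es φ)`. It is a block idempotent for `M` (`clifford_blk`: if `g ∉ M` and `cj N g (cj N h θ) = cj N h' θ` then `h'⁻¹ g h ∈ H ≤ M`). Then follow the proof in P27 with `t = ∑ φ ∈ O, es φ` instead of `es θ` (`act` is additive, `Parker.act_sum`): the character of `hblk.rep` is `x ↦ ∑ n, t n * ρ.character (x * n)`. If `σ ∈ Γ` fixes the character of `ρ` it fixes `θ` and all `cj N h θ`, so `t`; if `γ` maps it to the dual, it maps `θ`, all `cj N h θ` and `t` to the duals. `Fixes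 σ hblk.rep → Fixes σ ρ` by `blk_induced`. Finally `Parker.propB_gen` for `M`.
-/

namespace CF

noncomputable section

open Classical Matrix

variable {Ω : Type} [Field Ω] [IsAlgClosed Ω] [CharZero Ω] {G : Type} [Group G] [Finite G]
  {V : Type} [AddCommGroup V] [Module Ω V] [FiniteDimensional Ω V]
  {ρ : Representation Ω G V} {c : Parker.Ctx Ω} {m : ℕ} {Γ : Subgroup (RingAut Ω)}

open Parker

theorem inertia_B (hΓ : Ok c m Γ) (hρ : ρ.IsIrreducible)
    (hodd : Odd (Module.finrank Ω V)) (N : Subgroup G) [N.Normal] {θ : N → Ω}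
    (hθ : θ ∈ irr Ω N) (hmul : mul (rs N ρ).character θ ≠ 0)
    (h1 : ∀ σ ∈ Γ, Fixes σ ρ → ∀ n, σ (θ n) = θ n)
    (h2 : ∀ γ ∈ Γ, (∀ g, γ (ρ.character g) = ρ.character g⁻¹) → ∀ n, γ (θ n) = θ n⁻¹)
    (hT : ∃ g : G, cj N g θ ≠ θ)
    (hov : ∀ T : Subgroup G, N ≤ T → T ≠ ⊤ → Odd T.index →
      ∃ M : Subgroup G, T ≤ M ∧ M ≠ ⊤ ∧ PropB c m M)
    (hγ : ∃ γ ∈ Γ, ∀ g, γ (ρ.character g) = ρ.character g⁻¹) {d : Ω} (hd : d ≠ 0)
    (hσ : ∀ σ ∈ Γ, σ d = if Fixes σ ρ then d else - d) : InV c Γ (c.av d) := by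
  haveI := Fintype.ofFinite N
  set H : Subgroup G :=
    { carrier := {g | cj N g θ = θ}
      mul_mem' := by
        intro a b ha hb
        change cj N a θ = θ at ha
        change cj N b θ = θ at hb
        change cj N (a * b) θ = θ
        rw [cj_mul, hb, ha]
      one_mem' := cj_one N θ
      inv_mem' := by
        intro a ha
        change cj N a θ = θ at ha
        change cj N a⁻¹ θ = θ
        conv_lhs => rw [← ha]
        rw [← cj_mul, inv_mul_cancel, cj_one] } with hH
  have hmemH : ∀ g, g ∈ H ↔ cj N g θ = θ := fun g => Iff.rfl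
  have hHtop : H ≠ ⊤ := by
    obtain ⟨g, hg⟩ := hT
    intro h
    apply hg
    rw [← hmemH, h]
    trivial
  have hNH : N ≤ H := by
    intro g hg
    rw [hmemH]
    exact cj_self N hθ ⟨g, hg⟩
  have hblk0 : Blk ρ H (act (rs N ρ) (es θ)) := by
    have h := clifford_blk N (ρ := ρ) H (O := {θ})
      (by
        intro φ hφ
        rw [Finset.mem_singleton] at hφ
        rw [hφ]
        exact hθ)
      (by
        intro h hh φ hφ
        rw [Finset.mem_singleton] at hφ ⊢
        rw [hφ]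
        exact (hmemH h).1 hh)
      (by
        intro g hg φ hφ hc
        rw [Finset.mem_singleton] at hφ hc
        rw [hφ] at hc
        exact hg ((hmemH g).2 hc))
      ⟨θ, Finset.mem_singleton_self θ, hmul⟩
    rwa [Finset.sum_singleton] at h
  have hHodd : Odd H.index := by
    have h := hodd
    rw [blk_finrank hblk0 hρ, Nat.odd_mul] at h
    exact h.1
  obtain ⟨M, hHM, hMtop, hMB⟩ := hov H hNH hHtop hHodd
  haveI := Fintype.ofFinite (G ⧸ M)
  set O : Finset (N → Ω) := (irr Ω N).filter (fun φ => ∃ h ∈ M, φ = cj N h θ) with hO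
  have hmemO : ∀ φ, φ ∈ O ↔ φ ∈ irr Ω N ∧ ∃ h ∈ M, φ = cj N h θ := by
    intro φ
    rw [hO, Finset.mem_filter]
  set t : N → Ω := ∑ φ ∈ O, es φ with ht
  have hblk : Blk ρ M (act (rs N ρ) t) := by
    have h := clifford_blk N (ρ := ρ) M (O := O)
      (fun φ hφ => ((hmemO φ).1 hφ).1)
      (by
        intro h hh φ hφ
        obtain ⟨h3, h', hh', h4⟩ := (hmemO φ).1 hφ
        refine (hmemO _).2 ⟨cj_mem_irr N h3 h, h * h', M.mul_mem hh hh', ?_⟩
        rw [h4, cj_mul])
      (by
        intro g hg φ hφ hc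
        obtain ⟨h3, h', hh', h4⟩ := (hmemO φ).1 hφ
        obtain ⟨_, h'', hh'', h5⟩ := (hmemO _).1 hc
        apply hg
        have h6 : h''⁻¹ * g * h' ∈ M := by
          apply hHM
          rw [hmemH, mul_assoc, cj_mul, cj_mul, ← h4, h5, ← cj_mul, inv_mul_cancel, cj_one]
        have h7 : g = h'' * (h''⁻¹ * g * h') * h'⁻¹ := by group
        rw [h7]
        exact M.mul_mem (M.mul_mem hh'' h6) (M.inv_mem hh'))
      ⟨θ, (hmemO θ).2 ⟨hθ, 1, M.one_mem, (cj_one N θ).symm⟩, hmul⟩
    rwa [← act_sum] at h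
  have hirr := blk_irr hblk hρ
  have hodd' : Odd (Module.finrank Ω (LinearMap.range (act (rs N ρ) t))) := by
    have h := hodd
    rw [blk_finrank hblk hρ, Nat.odd_mul] at h
    exact h.2
  have hch : ∀ x : M, hblk.rep.character x = ∑ n : N, t n * ρ.character ((x : G) * n) := by
    intro x
    rw [blk_char hblk x, P27_aux.trace_mul_act]
  have htn : ∀ n : N, t n = ∑ φ ∈ O, es φ n := by
    intro n
    rw [ht, Finset.sum_apply]
  have hfix : ∀ σ ∈ Γ, (Fixes σ ρ ↔ Fixes σ hblk.rep) := by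
    intro σ hσΓ
    constructor
    · intro hf x
      have hts : ∀ n : N, σ (t n) = t n := by
        intro n
        rw [htn, map_sum]
        refine Finset.sum_congr rfl fun φ hφ => ?_
        obtain ⟨_, h', _, h4⟩ := (hmemO φ).1 hφ
        have h5 : ∀ k : N, σ (φ k) = φ k := by
          intro k
          rw [h4]
          exact h1 σ hσΓ hf _
        unfold es
        rw [map_mul, map_mul, map_inv₀, map_natCast, h5, h5]
      rw [hch, map_sum]
      refine Finset.sum_congr rfl fun n _ => ?_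
      rw [map_mul, hts, hf]
    · intro hf g
      rw [blk_induced hblk hρ g, map_sum]
      refine Finset.sum_congr rfl fun q _ => ?_
      split_ifs with hq
      · exact hf _
      · exact map_zero σ
  obtain ⟨γ, hγΓ, hγρ⟩ := hγ
  refine propB_gen hMB hΓ hirr hodd' ⟨γ, hγΓ, fun x => ?_⟩ hd (fun σ hσΓ => ?_)
  · have hθγ := h2 γ hγΓ hγρ
    have hts : ∀ n : N, γ (t n) = t n⁻¹ := by
      intro n
      rw [htn, htn, map_sum]
      refine Finset.sum_congr rfl fun φ hφ => ?_
      obtain ⟨_, h', _, h4⟩ := (hmemO φ).1 hφ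
      have h5 : ∀ k : N, γ (φ k) = φ k⁻¹ := by
        intro k
        rw [h4]
        change γ (θ (MulAut.conjNormal h'⁻¹ k)) = θ (MulAut.conjNormal h'⁻¹ k⁻¹)
        rw [hθγ]
        exact congrArg θ (map_inv (MulAut.conjNormal h'⁻¹ : N ≃* N) k).symm
      unfold es
      rw [map_mul, map_mul, map_inv₀, map_natCast, h5, h5, inv_one]
    rw [hch, map_sum]
    have h5 : hblk.rep.character x⁻¹ = ∑ n : N, t n * ρ.character ((n : G) * (x : G)⁻¹) := by
      rw [hch]
      refine Finset.sum_congr rfl fun n _ => ?_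
      congr 1
      rw [Subgroup.coe_inv]
      change LinearMap.trace Ω V (ρ ((x : G)⁻¹ * (n : G)))
        = LinearMap.trace Ω V (ρ ((n : G) * (x : G)⁻¹))
      rw [ρ.map_mul, ρ.map_mul, LinearMap.trace_mul_comm]
    rw [h5, ← Equiv.sum_comp (Equiv.inv N) (fun n : N => t n * ρ.character ((n : G) * (x : G)⁻¹))]
    refine Finset.sum_congr rfl fun n _ => ?_
    rw [map_mul, hts, hγρ]
    simp only [Equiv.inv_apply, Subgroup.coe_inv, _root_.mul_inv_rev]
  · rw [hσ σ hσΓ]
    by_cases hf : Fixes σ ρ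
    · rw [if_pos hf, if_pos ((hfix σ hσΓ).1 hf)]
    · rw [if_neg hf, if_neg (fun h => hf ((hfix σ hσΓ).2 h))]

end

end CF
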