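import Pool.Agent.CF.Defs
import Pool.Agent.CF.U04
import Pool.Agent.CF.U05

/-!
# MP_6c3636_al, CF, module U06: Clifford step, property (B), and the theorem (helper7)

Level `m = Nat.card G`, `Parker.propB_one` (P29). `Parker.exists_theta` (P27) gives `θ`. (i) `θ` not invariant: `inertia_B` (U05). (ii) `θ` invariant, not fixed by `Γ`: `Parker.propB_normal` (P27) uses its hypothesis `hsub` only for `H = N` (last lines of its proof): repeat its proof with `PropB c m N` (if `N = ⊤` the theorem `up_AB` is `ab_congr` for `N ≃* G`, `Subgroup.topEquiv`, so you may assume `N ≠ ⊤`). (iii) `θ` invariant and fixed by `Γ`: then `du θ = θ` (`γ` fixes `θ` and maps it to the dual). Repeat the proof of `Parker.propB_tensor` (P27); where it uses `hquot M` use `ab_ker` (U04) for `D n = det (τ n)` (values `1`, `-1` by `det_orth`) and `propB_mono`. See `Parker.claimB` (P28) for the assembly.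
-/

namespace CF

noncomputable section

open Classical Matrix

variable {Ω : Type} [Field Ω] [IsAlgClosed Ω] [CharZero Ω] {G : Type} [Group G] [Finite G]
  {V : Type} [AddCommGroup V] [Module Ω V] [FiniteDimensional Ω V]
  {ρ : Representation Ω G V} {c : Parker.Ctx Ω} {m : ℕ} {Γ : Subgroup (RingAut Ω)}

open Parker

namespace U06_aux

/-- `θ` invariant in `G` but not `Γ`-fixed: use (B) for `N` -/
theorem normal_B (hΓ : Ok c m Γ) (N : Subgroup G) [N.Normal] (hBN : PropB c m N) {θ : N → Ω}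
    (hθ : θ ∈ irr Ω N) (hθo : Odd (dg θ))
    (h1 : ∀ σ ∈ Γ, Fixes σ ρ → ∀ n, σ (θ n) = θ n)
    (h2 : ∀ γ ∈ Γ, (∀ g, γ (ρ.character g) = ρ.character g⁻¹) → ∀ n, γ (θ n) = θ n⁻¹)
    (hnf : ∃ σ ∈ Γ, ∃ n, σ (θ n) ≠ θ n)
    (hγ : ∃ γ ∈ Γ, ∀ g, γ (ρ.character g) = ρ.character g⁻¹) {d : Ω} (hd : d ≠ 0)
    (hσ : ∀ σ ∈ Γ, σ d = if Fixes σ ρ then d else - d) : InV c Γ (c.av d) := by
  rw [mem_irr] at hθ
  obtain ⟨n, τ, hτ, hτc⟩ := hθ
  have hodd : Odd n := by
    have h := dg_char τ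
    rw [hτc] at h
    rw [h] at hθo
    simpa using hθo
  have hd2 : d ≠ -d := by
    intro h
    apply hd
    have h3 : (2 : Ω) * d = 0 := by linear_combination h
    rcases mul_eq_zero.1 h3 with h4 | h4
    · exact absurd h4 two_ne_zero
    · exact h4
  have hfix : ∀ σ ∈ Γ, (Fixes σ ρ ↔ Fixes σ τ) := by
    intro σ hσΓ
    constructor
    · intro hf x
      rw [hτc]
      exact h1 σ hσΓ hf x
    · intro hf
      by_contra hcon
      obtain ⟨σ₀, hσ₀, x, hx⟩ := hnf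
      have h3 : ¬ Fixes σ₀ ρ := fun h => hx (h1 σ₀ hσ₀ h x)
      have h4 : σ₀ d = -d := by rw [hσ σ₀ hσ₀, if_neg h3]
      have h5 : σ d = -d := by rw [hσ σ hσΓ, if_neg hcon]
      have h6 : (σ₀ * σ) d = d := by
        rw [RingAut.mul_apply, h5, map_neg, h4, neg_neg]
      have h7 : Fixes (σ₀ * σ) ρ := by
        by_contra h8
        have h9 := hσ (σ₀ * σ) (Γ.mul_mem hσ₀ hσΓ)
        rw [if_neg h8, h6] at h9
        exact hd2 h9
      have h8 := h1 (σ₀ * σ) (Γ.mul_mem hσ₀ hσΓ) h7 x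
      have h9 := hf x
      rw [hτc] at h9
      rw [RingAut.mul_apply, h9] at h8
      exact hx h8
  obtain ⟨γ, hγΓ, hγρ⟩ := hγ
  refine hBN Γ hΓ n τ hτ hodd ⟨γ, hγΓ, fun x => ?_⟩ d hd (fun σ hσΓ => ?_)
  · rw [hτc]
    exact h2 γ hγΓ hγρ x
  · rw [hσ σ hσΓ]
    by_cases hf : Fixes σ ρ
    · rw [if_pos hf, if_pos ((hfix σ hσΓ).1 hf)]
    · rw [if_neg hf, if_neg (fun h => hf ((hfix σ hσΓ).2 h))]

/-- `θ` invariant in `G` and `Γ`-fixed: tensor decomposition and (B) for `G ⧸ M`,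
`M = ker (det θ)` -/
theorem tensor_B (hΓ : Ok c m Γ) (hρ : ρ.IsIrreducible)
    (hodd : Odd (Module.finrank Ω V)) (N : Subgroup G) [N.Normal]
    {θ : N → Ω} (hθ : θ ∈ irr Ω N) (hθo : Odd (dg θ)) (hmul : mul (rs N ρ).character θ ≠ 0)
    (hT : ∀ g : G, cj N g θ = θ) (hf : ∀ σ ∈ Γ, ∀ n, σ (θ n) = θ n) (hsd : du θ = θ)
    (hquot : ∀ (M : Subgroup G) [M.Normal] (D : N →* Ω), (∀ n, D n = 1 ∨ D n = -1) →
      (∀ g, g ∈ M ↔ ∃ n : N, D n = 1 ∧ (n : G) = g) → PropB c m (G ⧸ M))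
    (hγ : ∃ γ ∈ Γ, ∀ g, γ (ρ.character g) = ρ.character g⁻¹) {d : Ω} (hd : d ≠ 0)
    (hσ : ∀ σ ∈ Γ, σ d = if Fixes σ ρ then d else - d) : InV c Γ (c.av d) := by
  have := Fintype.ofFinite N
  have hone : act (rs N ρ) (es θ) = 1 := by
    have h := clifford_one N hρ (O := {θ})
      (by
        intro φ hφ
        rw [Finset.mem_singleton] at hφ
        rw [hφ]
        exact hθ)
      (by
        intro g φ hφ
        rw [Finset.mem_singleton] at hφ ⊢
        rw [hφ]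
        exact hT g)
      ⟨θ, Finset.mem_singleton_self θ, hmul⟩
    rwa [Finset.sum_singleton] at h
  have hθ' := hθ
  rw [mem_irr] at hθ'
  obtain ⟨a, τ, hτ, hτc⟩ := hθ'
  have ha : Odd a := by
    have h := dg_char τ
    rw [hτc] at h
    rw [h] at hθo
    simpa using hθo
  have hSDτ : SD τ := by
    intro x
    rw [hτc]
    exact congrFun hsd x
  have hOτ : Orth τ := orth_of_odd hτ hSDτ (by simpa using ha)
  obtain ⟨S, hS1, hSO, hSdet, hS2, hS3⟩ := canonical_extension N ha hτ hSDτ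
    (fun g => by rw [hτc]; exact hT g)
  have hSF : FxC Γ S := hS3 Γ (fun x σ hσΓ => by rw [hτc]; exact hf σ hσΓ x)
  obtain ⟨b, β, hβ, hdim, hβN, hc1, hc2, -⟩ := tensor_decomposition N ha hτ hOτ hS1 hSO hρ
    (by rw [hτc]; exact hone)
  have hdet : ∀ n : N, LinearMap.det (τ n) = 1 ∨ LinearMap.det (τ n) = -1 :=
    fun n => det_orth hOτ n
  have hb : Odd b := by
    rw [hdim, Nat.odd_mul] at hodd
    exact hodd.2
  -- the kernel of the determinant
  have hdconj : ∀ (g : G) (n : N),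
      LinearMap.det (τ (MulAut.conjNormal g n)) = LinearMap.det (τ n) := by
    intro g n
    have h := congrArg LinearMap.det (hS2 g n)
    rw [map_mul, map_mul, hSdet, one_mul, mul_one] at h
    exact h.symm
  set f : N →* Ω := (LinearMap.det : Module.End Ω (Fin a → Ω) →* Ω).comp τ with hfdef
  have hfn : ∀ n : N, f n = LinearMap.det (τ n) := fun n => rfl
  set M : Subgroup G := f.ker.map N.subtype with hM
  have hMmem : ∀ g, g ∈ M ↔ ∃ n : N, LinearMap.det (τ n) = 1 ∧ (n : G) = g := by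
    intro g
    rw [hM, Subgroup.mem_map]
    constructor
    · rintro ⟨n, hn, rfl⟩
      exact ⟨n, hn, rfl⟩
    · rintro ⟨n, hn, rfl⟩
      exact ⟨n, hn, rfl⟩
  have hMn : M.Normal := by
    refine ⟨fun x hx g => ?_⟩
    rw [hMmem] at hx ⊢
    obtain ⟨n, hn, rfl⟩ := hx
    exact ⟨MulAut.conjNormal g n, by rw [hdconj, hn], MulAut.conjNormal_apply g n⟩
  obtain ⟨γ, hγΓ, hγρ⟩ := hγ
  refine propB_of_quot M (hquot M f hdet hMmem) hΓ hβ (by simpa using hb) ?_
    ⟨γ, hγΓ, fun g => ?_⟩ hd (fun σ hσΓ => ?_)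
  · intro x hx
    obtain ⟨n, hn, rfl⟩ := (hMmem x).1 hx
    rw [hβN, hn, one_smul]
  · exact conj_fixes N hdet (sd_of_orth hSO) (fun g => hc2 g) (fun g => hSF g γ hγΓ) hγρ g
  · have hiff : Fixes σ ρ ↔ Fixes σ β :=
      fixes_iff N hdet hc1 (fun g => hc2 g) (fun g => hSF g σ hσΓ)
    rw [hσ σ hσΓ]
    by_cases hf' : Fixes σ ρ
    · rw [if_pos hf', if_pos (hiff.1 hf')]
    · rw [if_neg hf', if_neg (fun h => hf' (hiff.2 h))]

end U06_aux

theorem up_B (N : Subgroup G) [N.Normal] (hN : ParkerGL.AB c N) (hQ : ParkerGL.AB c (G ⧸ N))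
    (hp : commutator G ⊔ N = ⊤) (hov : Over c N) : PropB c 1 G := by
  have hm : Nat.card G ≠ 0 := Nat.card_pos.ne'
  refine propB_one hm dvd_rfl ?_
  intro Γ hΓ n ρ hρ hodd hγ d hd hσ
  have hodd' : Odd (Module.finrank Ω (Fin n → Ω)) := by
    rw [Module.finrank_fin_fun]
    exact hodd
  obtain ⟨θ, hθ, hmul, hθo, h1, h2⟩ := exists_theta hΓ hm dvd_rfl hρ hodd' N
  by_cases hT : ∃ g : G, cj N g θ ≠ θ
  · refine inertia_B hΓ hρ hodd' N hθ hmul h1 h2 hT ?_ hγ hd hσ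
    intro T hNT hT1 hT2
    obtain ⟨M, hTM, hM, -, hMB⟩ := hov T hNT hT1 hT2
    exact ⟨M, hTM, hM, propB_mono hMB⟩
  · by_cases hnf : ∃ σ ∈ Γ, ∃ x, σ (θ x) ≠ θ x
    · exact U06_aux.normal_B hΓ N (propB_mono hN.2) hθ hθo h1 h2 hnf hγ hd hσ
    · have hT' : ∀ g : G, cj N g θ = θ := fun g => by
        by_contra h
        exact hT ⟨g, h⟩
      have hf : ∀ σ ∈ Γ, ∀ x, σ (θ x) = θ x := fun σ hs x => by
        by_contra h
        exact hnf ⟨σ, hs, x, h⟩
      have hsd : du θ = θ := by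
        obtain ⟨γ, hγm, hγe⟩ := hγ
        funext x
        have h3 := h2 γ hγm hγe x
        rw [hf γ hγm x] at h3
        exact h3.symm
      refine U06_aux.tensor_B hΓ hρ hodd' N hθ hθo hmul hT' hf hsd ?_ hγ hd hσ
      intro M hMn D hD hMD
      exact propB_mono (ab_ker N hp hQ D hD M hMn hMD).2

theorem up_AB (N : Subgroup G) [N.Normal] (hN : ParkerGL.AB c N) (hQ : ParkerGL.AB c (G ⧸ N))
    (hp : commutator G ⊔ N = ⊤) (hov : Over c N) : ParkerGL.AB c G :=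
  ⟨up_A N hN hQ hp hov, up_B N hN hQ hp hov⟩

end

end CF
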