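import Pool.Agent.CF.Defs
import Pool.Agent.CF.E01
import Pool.Agent.CF.U06

/-!
# MP_6c3636_al, CF, module E02: perfect groups (helper7)

Let `E ⧸ N ≃* R`, `AB2 N`, `f : E →* R` surjective with kernel `N`. Apply `up_AB` (U06) for `N`. `AB2 (E ⧸ N)`: `ParkerGL.ab_congr`. `commutator E ⊔ N = ⊤`: the image of `commutator E` under `f` is `commutator R = ⊤` (`Subgroup.map_commutator` or `map_commutator_eq`), so every `g ∈ E` is `c n`, `c ∈ commutator E`, `f n = 1`. `Over ctx2 N`: let `N ≤ T ≠ ⊤`, `T.index` odd, `X = T.map f`; `X.comap f = T` (`N ≤ T`), so `X ≠ ⊤` and `X.index = T.index` (`Subgroup.index_comap_of_surjective`). Let `X ≤ M0`, `M0 ≠ ⊤`, `Ex M0`, `M = M0.comap f ≥ T`, `M ≠ ⊤` (`f` is surjective). `M ⧸ (N.subgroupOf M) ≃* M0` and `N.subgroupOf M ≃* N`, so `AB2 M` by `Ex M0`.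
`exists_conj`: `U` acts on the cosets `R ⧸ X` by left multiplication; the number of cosets is odd, so there is a fixed point `g X` (`IsPGroup.card_modEq_card_fixedPoints`, or `IsPGroup.nonempty_fixed_point_of_prime_not_dvd_card`), and `u g X = g X` means `g⁻¹ u g ∈ X`.
`ex_perf`: combine: for a proper subgroup `X` of odd index let `g⁻¹ U g ≤ X`, `X' = g X g⁻¹ = X.map (MulAut.conj g)`, which contains `U`, is proper and of odd index; the hypothesis gives `M' ≥ X'`, and `M = M'.map (MulAut.conj g⁻¹) ≥ X` is isomorphic to `M'`.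
-/

namespace CF

noncomputable section

open Classical Matrix


theorem ex_perf0 {R : Type} [Group R] [Finite R] (hp : commutator R = ⊤) (hAB : AB2 R)
    (hM : ∀ X : Subgroup R, X ≠ ⊤ → Odd X.index → ∃ M : Subgroup R, X ≤ M ∧ M ≠ ⊤ ∧ Ex M) :
    Ex R := by
  intro E _ _ N _ he hN
  obtain ⟨e⟩ := he
  obtain ⟨f, hf⟩ : ∃ f : E →* R, f = e.toMonoidHom.comp (QuotientGroup.mk' N) := ⟨_, rfl⟩
  have hfs : Function.Surjective f := by
    rw [hf]
    exact e.surjective.comp (QuotientGroup.mk'_surjective N)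
  have hfk : ∀ x : E, f x = 1 ↔ x ∈ N := by
    intro x
    rw [hf]
    show e (QuotientGroup.mk' N x) = 1 ↔ x ∈ N
    rw [map_eq_one_iff e e.injective, QuotientGroup.mk'_apply, QuotientGroup.eq_one_iff]
  refine up_AB N hN (ParkerGL.ab_congr e.symm hAB) ?_ ?_
  · rw [eq_top_iff]
    intro g _
    have h0 : (commutator E).map f = ⊤ := by
      rw [map_commutator_eq, MonoidHom.range_eq_top.2 hfs]
      exact hp
    have h1 : f g ∈ (commutator E).map f := by
      rw [h0]
      exact Subgroup.mem_top _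
    obtain ⟨c, hc, hcg⟩ := Subgroup.mem_map.1 h1
    have h2 : c⁻¹ * g ∈ N := by
      rw [← hfk, map_mul, map_inv, hcg, inv_mul_cancel]
    have h3 : g = c * (c⁻¹ * g) := by group
    rw [h3]
    exact Subgroup.mul_mem_sup hc h2
  · intro T hNT hT hodd
    have hkT : f.ker ≤ T := fun x hx => hNT ((hfk x).1 hx)
    have hcm : (T.map f).comap f = T := Subgroup.comap_map_eq_self hkT
    have hXt : T.map f ≠ ⊤ := by
      intro h
      rw [h, Subgroup.comap_top] at hcm
      exact hT hcm.symm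
    have hXi : Odd (T.map f).index := by
      rw [← Subgroup.index_comap_of_surjective (T.map f) hfs, hcm]
      exact hodd
    obtain ⟨M0, hXM, hMt, hE⟩ := hM (T.map f) hXt hXi
    refine ⟨M0.comap f, Subgroup.map_le_iff_le_comap.1 hXM, ?_, ?_⟩
    · intro h
      apply hMt
      rw [eq_top_iff]
      intro x _
      obtain ⟨y, rfl⟩ := hfs x
      have : y ∈ M0.comap f := by
        rw [h]
        exact Subgroup.mem_top _
      exact this
    · have hNM : N ≤ M0.comap f := by
        intro x hx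
        rw [Subgroup.mem_comap, (hfk x).2 hx]
        exact M0.one_mem
      have hg : Function.Surjective (f.subgroupComap M0) := by
        rintro ⟨y, hy⟩
        obtain ⟨x, rfl⟩ := hfs y
        exact ⟨⟨x, hy⟩, rfl⟩
      have hk : (f.subgroupComap M0).ker = N.subgroupOf (M0.comap f) := by
        ext x
        rw [MonoidHom.mem_ker, Subgroup.mem_subgroupOf, ← hfk]
        constructor
        · intro h
          have := congrArg Subtype.val h
          exact this
        · intro h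
          exact Subtype.ext h
      have h3 : AB2 (M0.comap f) := by
        refine hE (M0.comap f) (N.subgroupOf (M0.comap f)) ?_
          (ParkerGL.ab_congr (Subgroup.subgroupOfEquivOfLe hNM).symm hN)
        exact ⟨(QuotientGroup.quotientMulEquivOfEq hk.symm).trans
          (QuotientGroup.quotientKerEquivOfSurjective (f.subgroupComap M0) hg)⟩
      exact ⟨h3.1, h3.2⟩

theorem exists_conj {R : Type} [Group R] [Finite R] (U X : Subgroup R)
    (hU : ∀ u ∈ U, ∃ k : ℕ, u ^ (2 ^ k) = 1) (hX : Odd X.index) :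
    ∃ g : R, ∀ u ∈ U, g⁻¹ * u * g ∈ X := by
  have hp : IsPGroup 2 U := by
    intro u
    obtain ⟨k, hk⟩ := hU u.1 u.2
    exact ⟨k, Subtype.ext hk⟩
  have hfact : Fact (Nat.Prime 2) := ⟨Nat.prime_two⟩
  have hnd : ¬ 2 ∣ Nat.card (R ⧸ X) := by
    intro h
    have h1 : Odd (Nat.card (R ⧸ X)) := hX
    exact (Nat.not_even_iff_odd.2 h1) (even_iff_two_dvd.2 h)
  obtain ⟨q, hq⟩ := hp.nonempty_fixed_point_of_prime_not_dvd_card (R ⧸ X) hnd
  obtain ⟨g, rfl⟩ := QuotientGroup.mk_surjective q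
  refine ⟨g, fun u hu => ?_⟩
  have h1 := (MulAction.mem_fixedPoints.1 hq) ⟨u, hu⟩
  have h2 : ((u * g : R) : R ⧸ X) = (g : R ⧸ X) := h1
  have h3 := QuotientGroup.eq.1 h2.symm
  rw [mul_assoc]
  exact h3

theorem ex_perf {R : Type} [Group R] [Finite R] (hp : commutator R = ⊤) (hAB : AB2 R)
    (U : Subgroup R) (hU : ∀ u ∈ U, ∃ k : ℕ, u ^ (2 ^ k) = 1)
    (hM : ∀ X : Subgroup R, X ≠ ⊤ → U ≤ X → ∃ M : Subgroup R, X ≤ M ∧ M ≠ ⊤ ∧ Ex M) :
    Ex R := by
  refine ex_perf0 hp hAB fun X hX hodd => ?_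
  obtain ⟨g, hg⟩ := exists_conj U X hU hodd
  have hc : ∀ x : R, (MulAut.conj g).toMonoidHom x = g * x * g⁻¹ := fun x => rfl
  have hc' : ∀ x : R, (MulAut.conj g⁻¹).toMonoidHom x = g⁻¹ * x * g := by
    intro x
    show g⁻¹ * x * (g⁻¹)⁻¹ = _
    rw [inv_inv]
  have h1 : X.map (MulAut.conj g).toMonoidHom ≠ ⊤ := by
    intro h
    apply hX
    rw [eq_top_iff]
    intro x _
    have h2 : g * x * g⁻¹ ∈ X.map (MulAut.conj g).toMonoidHom := by
      rw [h]
      exact Subgroup.mem_top _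
    obtain ⟨y, hy, hyx⟩ := Subgroup.mem_map.1 h2
    rw [hc] at hyx
    have h3 : y = x := by
      have := congrArg (fun z => g⁻¹ * z * g) hyx
      simpa [mul_assoc] using this
    rw [← h3]
    exact hy
  have h2 : U ≤ X.map (MulAut.conj g).toMonoidHom := by
    intro u hu
    refine Subgroup.mem_map.2 ⟨g⁻¹ * u * g, hg u hu, ?_⟩
    rw [hc]
    group
  obtain ⟨M, hXM, hMt, hE⟩ := hM _ h1 h2
  refine ⟨M.map (MulAut.conj g⁻¹).toMonoidHom, ?_, ?_, ?_⟩
  · intro x hx
    refine Subgroup.mem_map.2 ⟨g * x * g⁻¹, ?_, ?_⟩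
    · exact hXM (Subgroup.mem_map.2 ⟨x, hx, hc x⟩)
    · rw [hc']
      group
  · intro h
    apply hMt
    rw [eq_top_iff]
    intro x _
    have h3 : g⁻¹ * x * g ∈ M.map (MulAut.conj g⁻¹).toMonoidHom := by
      rw [h]
      exact Subgroup.mem_top _
    obtain ⟨y, hy, hyx⟩ := Subgroup.mem_map.1 h3
    rw [hc'] at hyx
    have h4 : y = x := by
      have := congrArg (fun z => g * z * g⁻¹) hyx
      simpa [mul_assoc] using this
    rw [← h4]
    exact hy
  · exact ex_congr ((MulAut.conj g⁻¹).subgroupMap M) hE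

end

end CF
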