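import Pool.Agent.CF.Defs
import Pool.Agent.CF.E02
import Pool.Agent.Parker.R03

/-!
# MP_6c3636_al, CF, module E03: groups with small simple sections

`SmallS R`: all nonabelian simple sections of `R` are in the class `Cls` or `OutP2` (the hypothesis
of `Parker.parker_cls'`, R03). We show by strong induction on `Nat.card R` that `Ex R` holds when
all nonabelian simple sections of `R` satisfy `Parker.PropAB'`: if `R` is trivial it is solvable
(`ex_solv`). Otherwise let `K` be a maximal proper normal subgroup; `R ⧸ K` is simple; `Ex K` by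
induction, so by `ex_ext` it is enough to show `Ex (R ⧸ K)`. If `R ⧸ K` is commutative use
`ex_solv`. Otherwise `S = R ⧸ K` is a nonabelian simple group: `commutator S = ⊤` (it is normal and
not `⊥`), `AB2 S` (`Parker.main_reduction'`), and every proper subgroup `X` of `S` satisfies `Ex X`
by induction; `ex_perf0` (E02) with `M = X`.
-/

namespace CF

noncomputable section

open Classical Matrix
open scoped commutatorElement

namespace E03_aux

/-- a maximal proper normal subgroup -/
theorem exists_max {R : Type} [Group R] [Finite R] (h : (⊥ : Subgroup R) ≠ ⊤) :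
    ∃ (M : Subgroup R) (_ : M.Normal), M ≠ ⊤ ∧ IsSimpleGroup (R ⧸ M) := by
  have hfin : Finite (Subgroup R) := inferInstance
  obtain ⟨M, ⟨hM1, hM3⟩, hmax⟩ := Set.Finite.exists_maximalFor
    (fun M : Subgroup R => Nat.card M) {M : Subgroup R | M.Normal ∧ M ≠ ⊤}
    (Set.toFinite _) ⟨⊥, ⟨inferInstance, h⟩⟩
  refine ⟨M, hM1, hM3, ?_⟩
  have hqnt : Nontrivial (R ⧸ M) := by
    rw [QuotientGroup.nontrivial_iff]
    exact hM3
  have hqs : ∀ H : Subgroup (R ⧸ M), H.Normal → H = ⊥ ∨ H = ⊤ := by
    intro H hH
    have hMle : M ≤ H.comap (QuotientGroup.mk' M) := by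
      intro z hz
      rw [Subgroup.mem_comap]
      have : (QuotientGroup.mk' M) z = 1 := by
        rw [QuotientGroup.mk'_apply, QuotientGroup.eq_one_iff]
        exact hz
      rw [this]
      exact H.one_mem
    by_cases ht : H.comap (QuotientGroup.mk' M) = ⊤
    · right
      have := congrArg (Subgroup.map (QuotientGroup.mk' M)) ht
      rw [Subgroup.map_comap_eq_self_of_surjective (QuotientGroup.mk'_surjective M),
        Subgroup.map_top_of_surjective _ (QuotientGroup.mk'_surjective M)] at this
      exact this
    · left
      have hn : (H.comap (QuotientGroup.mk' M)).Normal := inferInstance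
      have hle : Nat.card (H.comap (QuotientGroup.mk' M)) ≤ Nat.card M := by
        have h1 : Nat.card M ≤ Nat.card (H.comap (QuotientGroup.mk' M)) :=
          Nat.card_le_card_of_injective _ (Subgroup.inclusion_injective hMle)
        exact hmax ⟨hn, ht⟩ h1
      have heq : M = H.comap (QuotientGroup.mk' M) :=
        Subgroup.eq_of_le_of_card_ge hMle hle
      rw [eq_bot_iff]
      intro x hx
      obtain ⟨g, rfl⟩ := QuotientGroup.mk'_surjective M x
      have hg : g ∈ M := by
        rw [heq]
        exact hx
      rw [Subgroup.mem_bot, QuotientGroup.mk'_apply, QuotientGroup.eq_one_iff]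
      exact hg
  exact ⟨hqs⟩

/-- a nonabelian simple group is perfect -/
theorem perfect_simple {S : Type} [Group S] (hs : IsSimpleGroup S)
    (hn : ¬ ∀ x y : S, x * y = y * x) : commutator S = ⊤ := by
  rcases hs.eq_bot_or_eq_top_of_normal (commutator S) inferInstance with h1 | h1
  · exfalso
    apply hn
    intro x y
    have h2 : ⁅x, y⁆ ∈ commutator S :=
      Subgroup.commutator_mem_commutator (Subgroup.mem_top x) (Subgroup.mem_top y)
    rw [h1, Subgroup.mem_bot, commutatorElement_eq_one_iff_mul_comm] at h2
    exact h2
  · exact h1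

/-- groups all of whose nonabelian simple sections are good -/
theorem ex_onSimple : ∀ (k : ℕ) (R : Type) [Group R] [Finite R], Nat.card R = k →
    Parker.OnSimple (fun S _ _ => Parker.PropAB' Parker.ctx2 S) R → Ex R := by
  intro k
  induction k using Nat.strong_induction_on with
  | _ k ih =>
    intro R _ _ hk h
    have hP : ∀ (S S' : Type) [Group S] [Finite S] [Group S'] [Finite S'], S ≃* S' →
        Parker.PropAB' Parker.ctx2 S → Parker.PropAB' Parker.ctx2 S' :=
      fun S S' _ _ _ _ e => Parker.propAB'_congr e
    by_cases ht : (⊥ : Subgroup R) = ⊤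
    · apply ex_solv
      have : Subsingleton R := by
        refine ⟨fun a b => ?_⟩
        have ha : a ∈ (⊥ : Subgroup R) := by
          rw [ht]
          exact Subgroup.mem_top a
        have hb : b ∈ (⊥ : Subgroup R) := by
          rw [ht]
          exact Subgroup.mem_top b
        rw [Subgroup.mem_bot] at ha hb
        rw [ha, hb]
      infer_instance
    obtain ⟨K, hK, hKt, hKs⟩ := exists_max ht
    have hcK : Nat.card K < k := by
      rw [← hk]
      refine lt_of_le_of_ne (Subgroup.card_le_card_group K) fun h1 => hKt ?_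
      exact Subgroup.eq_top_of_card_eq K h1
    have hq : Parker.OnSimple (fun S _ _ => Parker.PropAB' Parker.ctx2 S) (R ⧸ K) :=
      Parker.onSimple_quot hP h K
    have hcq : Nat.card (R ⧸ K) ≤ k := by
      rw [← hk]
      exact Nat.le_of_dvd Nat.card_pos (Subgroup.card_quotient_dvd_card K)
    refine ex_ext K (ih _ hcK K rfl (Parker.onSimple_sub hP h K)) ?_
    by_cases hc : ∀ x y : R ⧸ K, x * y = y * x
    · apply ex_solv
      exact Group.isSolvable_of_comm hc
    · refine ex_perf0 (perfect_simple hKs hc) (Parker.main_reduction' (c := Parker.ctx2) _ hq) ?_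
      intro X hX _
      refine ⟨X, le_rfl, hX, ih (Nat.card X) ?_ X rfl (Parker.onSimple_sub hP hq X)⟩
      refine lt_of_lt_of_le ?_ hcq
      refine lt_of_le_of_ne (Subgroup.card_le_card_group X) fun h1 => hX ?_
      exact Subgroup.eq_top_of_card_eq X h1

end E03_aux

/-- all nonabelian simple sections are small -/
def SmallS (R : Type) [Group R] : Prop :=
  ∀ (H : Subgroup R) (N : Subgroup H) [N.Normal], IsSimpleGroup (H ⧸ N) →
    (∃ x y : H ⧸ N, x * y ≠ y * x) → Parker.Cls (H ⧸ N) ∨ Parker.OutP2 (H ⧸ N)

theorem ex_small {R : Type} [Group R] [Finite R] (h : SmallS R) : Ex R := by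
  refine E03_aux.ex_onSimple (Nat.card R) R rfl ?_
  intro H N hN hs hn
  have hn' : ∃ x y : H ⧸ N, x * y ≠ y * x := by
    by_contra hcon
    push Not at hcon
    exact hn hcon
  rcases h H N hs hn' with h1 | h1
  · exact Parker.cls_propAB' hs hn' h1
  · exact fun _ => Parker.outP2_propAB h1

end

end CF
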