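import Pool.Agent.CF.Defs

/-!
# MP_6c3636_al, CF, module E04: two solvability criteria (helper7, proof by helper21)

`solv_two`: a finite group all of whose elements have `2`-power order is a `2`-group. `solv_23`: induction on the order, so `G` has no proper nontrivial normal subgroups; the number of Sylow `3`-subgroups is `1` or `4`. If it is `1`, `G` is a `2`-group or a `3`-group. If it is `4`, `G` embeds in the symmetric group of degree four, which is solvable.
-/

namespace CF

noncomputable section

open Classical Matrix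

namespace E04_aux

/-- the elements `x` with `x * x = 1` and sign `1` -/
def V4 : Subgroup (Equiv.Perm (Fin 4)) where
  carrier := {x | x * x = 1 ∧ Equiv.Perm.sign x = 1}
  mul_mem' := by
    intro a b ha hb
    have h : ∀ a b : Equiv.Perm (Fin 4), a * a = 1 ∧ Equiv.Perm.sign a = 1 → b * b = 1 ∧ Equiv.Perm.sign b = 1 →
        a * b * (a * b) = 1 ∧ Equiv.Perm.sign (a * b) = 1 := by
      decide +kernel
    exact h a b ha hb
  one_mem' := ⟨rfl, Equiv.Perm.sign_one⟩
  inv_mem' := by
    intro a ha
    have h1 : a⁻¹ = a := inv_eq_of_mul_eq_one_left ha.1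
    rw [h1]
    exact ha

theorem com1 : ∀ a b : Equiv.Perm (Fin 4), Equiv.Perm.sign a = 1 → Equiv.Perm.sign b = 1 →
    a * b * a⁻¹ * b⁻¹ * (a * b * a⁻¹ * b⁻¹) = 1 ∧ Equiv.Perm.sign (a * b * a⁻¹ * b⁻¹) = 1 := by
  decide +kernel

theorem com2 : ∀ a b : Equiv.Perm (Fin 4), a * a = 1 ∧ Equiv.Perm.sign a = 1 → b * b = 1 ∧ Equiv.Perm.sign b = 1 →
    a * b * a⁻¹ * b⁻¹ = 1 := by
  decide +kernel

theorem sol4 : Group.IsSolvable (Equiv.Perm (Fin 4)) := by
  have h1 : derivedSeries (Equiv.Perm (Fin 4)) 1 ≤ (Equiv.Perm.sign (α := Fin 4)).ker := by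
    rw [derivedSeries_succ, Subgroup.commutator_le]
    intro a _ b _
    rw [MonoidHom.mem_ker, map_commutatorElement, commutatorElement_eq_one_iff_mul_comm]
    exact mul_comm _ _
  have h2 : derivedSeries (Equiv.Perm (Fin 4)) 2 ≤ V4 := by
    rw [derivedSeries_succ, Subgroup.commutator_le]
    intro a ha b hb
    exact com1 a b (h1 ha) (h1 hb)
  refine ⟨⟨3, ?_⟩⟩
  rw [eq_bot_iff, derivedSeries_succ, Subgroup.commutator_le]
  intro a ha b hb
  exact com2 a b (h2 ha) (h2 hb)

theorem dvd23 {a b m : ℕ} (ha : a ≤ 3) (h : m ∣ 2 ^ a * 3 ^ b) : ∃ a' b', a' ≤ 3 ∧ m = 2 ^ a' * 3 ^ b' := by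
  obtain ⟨x, y, hx, hy, hxy⟩ := (Nat.dvd_mul).1 h
  obtain ⟨i, hi, rfl⟩ := (Nat.dvd_prime_pow Nat.prime_two).1 hx
  obtain ⟨j, hj, rfl⟩ := (Nat.dvd_prime_pow Nat.prime_three).1 hy
  exact ⟨i, j, hi.trans ha, hxy.symm⟩

theorem pg_sol {G : Type} [Group G] [Finite G] {p : ℕ} [Fact p.Prime] (h : IsPGroup p G) : Group.IsSolvable G := by
  have : Group.IsNilpotent G := h.isNilpotent
  infer_instance

theorem main : ∀ (n : ℕ) (G : Type) [Group G] [Finite G], Nat.card G = n →
    (∃ a b, a ≤ 3 ∧ n = 2 ^ a * 3 ^ b) → Group.IsSolvable G := by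
  intro n
  induction n using Nat.strong_induction_on with
  | _ n ih =>
    intro G _ _ hn hab
    obtain ⟨a, b, ha, hab⟩ := hab
    by_cases hN : ∃ N : Subgroup G, N.Normal ∧ N ≠ ⊥ ∧ N ≠ ⊤
    · obtain ⟨N, hNn, hN1, hN2⟩ := hN
      have hc : Nat.card G = Nat.card (G ⧸ N) * Nat.card N := Subgroup.card_eq_card_quotient_mul_card_subgroup N
      have hpos : 0 < Nat.card G := Nat.card_pos
      have hN3 : 1 < Nat.card N := (Subgroup.one_lt_card_iff_ne_bot N).2 hN1
      have hN4 : 1 < Nat.card (G ⧸ N) := by
        have : Nat.card (G ⧸ N) = N.index := rfl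
        rw [this]
        have h0 : N.index ≠ 1 := fun h => hN2 (Subgroup.index_eq_one.1 h)
        have h1 : N.index ≠ 0 := Subgroup.index_ne_zero_of_finite
        omega
      have s1 : Group.IsSolvable N := by
        refine ih (Nat.card N) ?_ N rfl (dvd23 ha (b := b) ?_)
        · rw [← hn, hc]
          nlinarith
        · rw [← hab, ← hn]
          exact Subgroup.card_subgroup_dvd_card N
      have s2 : Group.IsSolvable (G ⧸ N) := by
        refine ih (Nat.card (G ⧸ N)) ?_ (G ⧸ N) rfl (dvd23 ha (b := b) ?_)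
        · rw [← hn, hc]
          nlinarith
        · rw [← hab, ← hn]
          exact Subgroup.card_quotient_dvd_card N
      exact (Group.isSolvable_iff_subgroup_quotient N).2 ⟨s1, s2⟩
    · push Not at hN
      have : Fact (Nat.Prime 3) := ⟨Nat.prime_three⟩
      have : Fact (Nat.Prime 2) := ⟨Nat.prime_two⟩
      obtain ⟨P⟩ : Nonempty (Sylow 3 G) := inferInstance
      have hPc : Nat.card P = 3 ^ b := by
        rw [P.card_eq_multiplicity, hn, hab]
        congr 1
        rw [Nat.factorization_mul (by positivity) (by positivity), Finsupp.add_apply,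
          Nat.Prime.factorization_pow Nat.prime_two, Nat.Prime.factorization_pow Nat.prime_three]
        simp
      have hidx : (P : Subgroup G).index = 2 ^ a := by
        have h1 := (P : Subgroup G).card_mul_index
        rw [hn, hab] at h1
        have h2 : Nat.card (P : Subgroup G) = 3 ^ b := hPc
        rw [h2, mul_comm] at h1
        exact Nat.eq_of_mul_eq_mul_right (by positivity) h1
      have h1 : Nat.card (Sylow 3 G) ≡ 1 [MOD 3] := card_sylow_modEq_one 3 G
      have h2 : Nat.card (Sylow 3 G) ∣ 2 ^ a := by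
        rw [← hidx]
        exact P.card_dvd_index
      obtain ⟨i, hi, h3⟩ := (Nat.dvd_prime_pow Nat.prime_two).1 h2
      have h4 : Nat.card (Sylow 3 G) = 1 ∨ Nat.card (Sylow 3 G) = 4 := by
        have hi3 : i ≤ 3 := hi.trans ha
        unfold Nat.ModEq at h1
        interval_cases i
        · exact Or.inl h3
        · rw [h3] at h1
          omega
        · exact Or.inr h3
        · rw [h3] at h1
          omega
      rcases h4 with h4 | h4
      · -- normal
        have hs : Subsingleton (Sylow 3 G) := (Nat.card_eq_one_iff_unique.1 h4).1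
        have hPn : (P : Subgroup G).Normal := by
          exact Sylow.normal_of_subsingleton P
        by_cases hb : (P : Subgroup G) = ⊥
        · have h5 : Nat.card (P : Subgroup G) = 1 := by rw [hb, Subgroup.card_bot]
          have h6 : Nat.card G = 2 ^ a := by
            have h7 := (P : Subgroup G).card_mul_index
            rw [h5, one_mul, hidx] at h7
            exact h7.symm
          exact pg_sol (IsPGroup.of_card h6)
        · have h5 := hN _ hPn hb
          have h6 : IsPGroup 3 (⊤ : Subgroup G) := h5 ▸ P.isPGroup'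
          have h7 : IsPGroup 3 G := h6.of_equiv Subgroup.topEquiv
          exact pg_sol h7
      · -- action on four points
        let φ : G →* Equiv.Perm (Sylow 3 G) := MulAction.toPermHom G (Sylow 3 G)
        have hφ : φ.ker = ⊥ := by
          by_contra hne
          have h5 := hN φ.ker inferInstance hne
          have h6 : ∀ (g : G) (Q : Sylow 3 G), g • Q = Q := by
            intro g Q
            have h7 : φ g = 1 := MonoidHom.mem_ker.1 (h5 ▸ Subgroup.mem_top g)
            exact congrArg (fun p : Equiv.Perm (Sylow 3 G) => p Q) h7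
          have h7 : Subsingleton (Sylow 3 G) := by
            refine ⟨fun Q Q' => ?_⟩
            obtain ⟨g, hg⟩ := MulAction.exists_smul_eq G Q Q'
            rw [← hg, h6]
          have h8 : Nat.card (Sylow 3 G) ≤ 1 := Finite.card_le_one_iff_subsingleton.2 h7
          omega
        have hinj : Function.Injective φ := (MonoidHom.ker_eq_bot_iff φ).1 hφ
        have e : Sylow 3 G ≃ Fin 4 := by
          rw [← h4]
          exact Finite.equivFin _
        let ψ : G →* Equiv.Perm (Fin 4) := (e.permCongrHom).toMonoidHom.comp φ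
        have hψ : Function.Injective ψ := (e.permCongrHom).injective.comp hinj
        have := sol4
        exact Group.isSolvable_of_isSolvable_injective hψ

end E04_aux

theorem solv_two {G : Type} [Group G] [Finite G] (h : ∀ x : G, ∃ k : ℕ, x ^ (2 ^ k) = 1) :
    Group.IsSolvable G := by
  have : Fact (Nat.Prime 2) := ⟨Nat.prime_two⟩
  exact E04_aux.pg_sol (p := 2) h

theorem solv_23 {G : Type} [Group G] [Finite G] {a b : ℕ} (ha : a ≤ 3)
    (h : Nat.card G = 2 ^ a * 3 ^ b) : Group.IsSolvable G :=
  E04_aux.main _ G rfl ⟨a, b, ha, h⟩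

end

end CF
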