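import Pool.Agent.CF.T01

/-!
# MP_6c3636_al, CF, module T03: subgroups which contain the unitriangular matrices (helper7)

`flag_lin`: `W ≠ ⊥`; let `k` be maximal with `Fl n k F ≤ W`. If `W ≠ Fl n k F` choose `w ∈ W`, `w ∉ Fl n k F`, so some coordinate `w j ≠ 0` with `j ≥ k`; take `j` maximal. Subtracting an element of `Fl n k F` we may assume `w i = 0` for `i < k`. If `j = k` then `sv k ∈ W`. If `j > k` then `tv k j 1 ∈ Up n F` maps `w` to `w + w j • sv k`, so `sv k ∈ W`. So `Fl n (k + 1) F ≤ W`, contradiction. `0 < k` because `W = Fl n k F ≠ ⊥`.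
`tits_lin`: let `W` be the span of the vectors `mv x (sv 0)`, `x ∈ X`; it is invariant under `X`, nonzero, so `W = Fl n k F` (`flag_lin`), `X ≤ St W`. If `k < n` we are done. If `k = n`, `W = ⊤`: let `Z` be the set of all `v` such that `X` contains all `g : GL` with `mv g x = x + f x • v` for some linear `f` with `f v = 0` (transvections with center `v`; include `v = 0`). `Z` is a subspace: it is stable under scalars; let `v, w ∈ Z`; if they are linearly dependent, clear; otherwise let `f` be linear with `f v = 0`, `f w = 1`, then the transvection `g : x ↦ x + f x • v` is in `X` and maps `w` to `w + v`, and `Z` is stable under `X` (`g t g⁻¹` has center `g v`). `sv 0 ∈ Z`: the transvections with center `sv 0` are upper unitriangular (`f (sv 0) = 0`). So `Z ⊇ W = ⊤` and all `tv i j c` are in `X`; `sl_gen`.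
`sl_not_le`: `tv (last) 0 1` maps `sv 0` to `sv 0 + sv last`.
-/

namespace CF

noncomputable section

open Classical Matrix

variable {n : ℕ} {F : Type} [Field F] [Finite F] [CharP F 2]


theorem T03_aux.sv_mem_Fl {k : ℕ} (i : Fin n) (h : (i : ℕ) < k) : (sv i : Fin n → F) ∈ Fl n k F := by
  intro j hj
  have : j ≠ i := by
    rintro rfl
    omega
  rw [sv, Pi.single_eq_of_ne this]

theorem T03_aux.Fl_zero : Fl n 0 F = ⊥ := by
  rw [eq_bot_iff]
  intro v hv
  rw [Submodule.mem_bot]
  funext i
  exact hv i (Nat.zero_le _)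

theorem T03_aux.Fl_top : Fl n n F = ⊤ := by
  rw [eq_top_iff]
  intro v _ i hi
  exact absurd i.2 (not_lt.2 hi)

theorem flag_lin (W : Submodule F (Fin n → F)) (hU : ∀ u ∈ Up n F, ∀ v ∈ W, mv u v ∈ W)
    (hW : W ≠ ⊥) : ∃ k, 0 < k ∧ k ≤ n ∧ W = Fl n k F := by
  set k := Nat.findGreatest (fun k => Fl n k F ≤ W) n with hk
  have h0 : Fl n 0 F ≤ W := by
    rw [T03_aux.Fl_zero]
    exact bot_le
  have hkW : Fl n k F ≤ W := Nat.findGreatest_spec (P := fun k => Fl n k F ≤ W) (Nat.zero_le n) h0
  have hkn : k ≤ n := Nat.findGreatest_le n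
  have hle : W ≤ Fl n k F := by
    by_contra hcon
    obtain ⟨w, hw, hwn⟩ := SetLike.not_le_iff_exists.1 hcon
    rw [mem_Fl] at hwn
    push Not at hwn
    obtain ⟨i, hi, hi0⟩ := hwn
    -- the largest nonzero coordinate
    have hne : (Finset.univ.filter fun i : Fin n => w i ≠ 0).Nonempty := ⟨i, by simpa using hi0⟩
    set j := (Finset.univ.filter fun i : Fin n => w i ≠ 0).max' hne with hj
    have hj0 : w j ≠ 0 := by
      have := Finset.max'_mem _ hne
      rw [Finset.mem_filter] at this
      exact this.2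
    have hjmax : ∀ l, j < l → w l = 0 := by
      intro l hl
      by_contra h
      have := Finset.le_max' (Finset.univ.filter fun i : Fin n => w i ≠ 0) l (by simpa using h)
      exact absurd hl (not_lt.2 this)
    have hij : i ≤ j := Finset.le_max' _ i (by simpa using hi0)
    have hkj : k ≤ (j : ℕ) := hi.trans hij
    have hkn' : k < n := lt_of_le_of_lt hkj j.2
    have hsv : (sv (⟨k, hkn'⟩ : Fin n) : Fin n → F) ∈ W := by
      rcases Nat.lt_or_eq_of_le hkj with hlt | heq
      · have hlt' : (⟨k, hkn'⟩ : Fin n) < j := hlt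
        have h1 := hU (tv ⟨k, hkn'⟩ j 1) (tv_mem_Up hlt' 1) w hw
        rw [mv_tv hlt'.ne, one_mul] at h1
        have h2 := W.sub_mem h1 hw
        rw [add_sub_cancel_left] at h2
        have h3 := W.smul_mem (w j)⁻¹ h2
        rwa [smul_smul, inv_mul_cancel₀ hj0, one_smul] at h3
      · have hjk : (⟨k, hkn'⟩ : Fin n) = j := Fin.ext heq
        rw [hjk]
        have h1 : w - w j • sv j ∈ Fl n k F := by
          intro l hl
          rw [Pi.sub_apply, Pi.smul_apply, sv, smul_eq_mul]
          by_cases hlj : l = j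
          · subst hlj
            rw [Pi.single_eq_same, mul_one, sub_self]
          · rw [Pi.single_eq_of_ne hlj, mul_zero, sub_zero]
            apply hjmax
            rw [Fin.lt_def]
            have : (l : ℕ) ≠ (j : ℕ) := fun h => hlj (Fin.ext h)
            omega
        have h2 := W.sub_mem hw (hkW h1)
        rw [sub_sub_cancel] at h2
        have h3 := W.smul_mem (w j)⁻¹ h2
        rwa [smul_smul, inv_mul_cancel₀ hj0, one_smul] at h3
    have hk1 : Fl n (k + 1) F ≤ W := by
      intro v hv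
      have h1 : v - v ⟨k, hkn'⟩ • sv ⟨k, hkn'⟩ ∈ Fl n k F := by
        intro l hl
        rw [Pi.sub_apply, Pi.smul_apply, sv, smul_eq_mul]
        by_cases hlk : l = ⟨k, hkn'⟩
        · subst hlk
          rw [Pi.single_eq_same, mul_one, sub_self]
        · rw [Pi.single_eq_of_ne hlk, mul_zero, sub_zero]
          apply hv
          have : (l : ℕ) ≠ k := fun h => hlk (Fin.ext h)
          omega
      have h2 := W.add_mem (hkW h1) (W.smul_mem (v ⟨k, hkn'⟩) hsv)
      rwa [sub_add_cancel] at h2
    have := Nat.le_findGreatest (P := fun k => Fl n k F ≤ W) (n := n) hkn' hk1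
    omega
  have hWk : W = Fl n k F := le_antisymm hle hkW
  refine ⟨k, ?_, hkn, hWk⟩
  rcases Nat.eq_zero_or_pos k with h | h
  · exfalso
    apply hW
    rw [hWk, h, T03_aux.Fl_zero]
  · exact h

/-- the transvections exist -/
theorem T03_aux.exists (v : Fin n → F) (f : (Fin n → F) →ₗ[F] F) (hf : f v = 0) :
    ∃ g : GL (Fin n) F, ∀ x, mv g x = x + f x • v := by
  have hlin : ∀ x : Fin n → F, f x = (fun j => f (sv j)) ⬝ᵥ x := by
    intro x
    have h1 : x = ∑ j, x j • (sv j : Fin n → F) := by
      funext i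
      rw [Finset.sum_apply, Finset.sum_eq_single i]
      · rw [Pi.smul_apply, sv, Pi.single_eq_same, smul_eq_mul, mul_one]
      · intro j _ hj
        rw [Pi.smul_apply, sv, Pi.single_eq_of_ne hj.symm, smul_zero]
      · intro h
        exact absurd (Finset.mem_univ i) h
    conv_lhs => rw [h1]
    rw [map_sum, dotProduct]
    refine Finset.sum_congr rfl fun j _ => ?_
    rw [map_smul, smul_eq_mul, mul_comm]
  set N : Matrix (Fin n) (Fin n) F := vecMulVec v (fun j => f (sv j)) with hN
  have hNN : N * N = 0 := by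
    rw [hN, vecMulVec_mul_vecMulVec, ← hlin v, hf, zero_smul, vecMulVec_zero]
  have h1 : (1 + N) * (1 - N) = 1 := by
    rw [add_mul, mul_sub, mul_sub, hNN]
    simp
  have h2 : (1 - N) * (1 + N) = 1 := by
    rw [sub_mul, mul_add, mul_add, hNN]
    simp
  refine ⟨⟨1 + N, 1 - N, h1, h2⟩, fun x => ?_⟩
  show (1 + N).mulVec x = _
  rw [Matrix.add_mulVec, Matrix.one_mulVec, hN, vecMulVec_mulVec, ← hlin x]
  congr 1
  funext i
  simp [mul_comm]

/-- the set of centers -/
def T03_aux.Z (X : Subgroup (GL (Fin n) F)) : Set (Fin n → F) :=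
  {v | ∀ (g : GL (Fin n) F) (f : (Fin n → F) →ₗ[F] F), f v = 0 →
    (∀ x, mv g x = x + f x • v) → g ∈ X}

theorem T03_aux.smul {X : Subgroup (GL (Fin n) F)} {v : Fin n → F} (hv : v ∈ T03_aux.Z X) (c : F) :
    c • v ∈ T03_aux.Z X := by
  intro g f hf hg
  refine hv g (c • f) ?_ ?_
  · rw [LinearMap.smul_apply, ← map_smul, hf]
  · intro x
    rw [hg x, LinearMap.smul_apply, smul_smul, smul_eq_mul, mul_comm c]

theorem T03_aux.conj {X : Subgroup (GL (Fin n) F)} {v : Fin n → F} (hv : v ∈ T03_aux.Z X)
    {y : GL (Fin n) F} (hy : y ∈ X) : mv y v ∈ T03_aux.Z X := by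
  intro g f hf hg
  set φ : (Fin n → F) →ₗ[F] (Fin n → F) :=
    { toFun := mv y
      map_add' := mv_add y
      map_smul' := mv_smul y } with hφ
  have h1 : y⁻¹ * g * y ∈ X := by
    refine hv _ (f.comp φ) hf ?_
    intro x
    rw [mv_mul, mv_mul, hg, mv_add, mv_smul, mv_inv, mv_inv]
    rfl
  have h2 := X.mul_mem (X.mul_mem hy h1) (X.inv_mem hy)
  have h3 : y * (y⁻¹ * g * y) * y⁻¹ = g := by group
  rwa [h3] at h2

theorem T03_aux.add {X : Subgroup (GL (Fin n) F)} {v w : Fin n → F} (hv : v ∈ T03_aux.Z X)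
    (hw : w ∈ T03_aux.Z X) : v + w ∈ T03_aux.Z X := by
  by_cases h : w ∈ Submodule.span F {v}
  · obtain ⟨c, rfl⟩ := Submodule.mem_span_singleton.1 h
    have h1 : v + c • v = (1 + c) • v := by rw [add_smul, one_smul]
    rw [h1]
    exact T03_aux.smul hv _
  · obtain ⟨f, hf1, hf2⟩ := Submodule.exists_dual_map_eq_bot_of_notMem h inferInstance
    have hfv : f v = 0 := by
      have h1 : f v ∈ (Submodule.span F {v}).map f :=
        Submodule.mem_map_of_mem (Submodule.mem_span_singleton_self v)
      rw [hf2, Submodule.mem_bot] at h1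
      exact h1
    have hf' : ((f w)⁻¹ • f) v = 0 := by
      rw [LinearMap.smul_apply, hfv, smul_zero]
    obtain ⟨g, hg⟩ := T03_aux.exists v ((f w)⁻¹ • f) hf'
    have hgX : g ∈ X := hv g _ hf' hg
    have h2 := T03_aux.conj hw hgX
    rw [hg w, LinearMap.smul_apply, smul_eq_mul, inv_mul_cancel₀ hf1, one_smul, add_comm] at h2
    exact h2

theorem tits_lin (hn : 2 ≤ n) (X : Subgroup (GL (Fin n) F)) (hX : X ≤ SLg n F)
    (hU : Up n F ≤ X) : X = SLg n F ∨ ∃ k, 0 < k ∧ k < n ∧ X ≤ St (Fl n k F) := by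
  have hn0 : 0 < n := by omega
  set e : Fin n → F := sv ⟨0, hn0⟩ with he
  set W : Submodule F (Fin n → F) := Submodule.span F {v | ∃ x ∈ X, v = mv x e} with hW
  have hinv : ∀ x ∈ X, ∀ v ∈ W, mv x v ∈ W := by
    intro x hx v hv
    induction hv using Submodule.span_induction with
    | mem v hv =>
      obtain ⟨y, hy, rfl⟩ := hv
      rw [← mv_mul]
      exact Submodule.subset_span ⟨x * y, X.mul_mem hx hy, rfl⟩
    | zero =>
      rw [mv_zero]
      exact W.zero_mem
    | add a b _ _ iha ihb =>
      rw [mv_add]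
      exact W.add_mem iha ihb
    | smul c a _ iha =>
      rw [mv_smul]
      exact W.smul_mem c iha
  have heW : e ∈ W := Submodule.subset_span ⟨1, X.one_mem, (mv_one e).symm⟩
  have he0 : e ≠ 0 := by
    intro h
    have h1 := congrFun h ⟨0, hn0⟩
    rw [he, sv, Pi.single_eq_same, Pi.zero_apply] at h1
    exact one_ne_zero h1
  have hWne : W ≠ ⊥ := by
    intro h
    rw [h, Submodule.mem_bot] at heW
    exact he0 heW
  obtain ⟨k, hk0, hkn, hWk⟩ := flag_lin W (fun u hu v hv => hinv u (hU hu) v hv) hWne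
  have hSt : X ≤ St W := by
    intro x hx v
    refine ⟨fun h => ?_, hinv x hx v⟩
    have := hinv x⁻¹ (X.inv_mem hx) _ h
    rwa [mv_inv] at this
  rcases Nat.lt_or_eq_of_le hkn with hlt | heq
  · right
    refine ⟨k, hk0, hlt, ?_⟩
    rw [← hWk]
    exact hSt
  · left
    refine le_antisymm hX (sl_gen X ?_)
    have hWtop : W = ⊤ := by
      rw [hWk, heq, T03_aux.Fl_top]
    have heZ : e ∈ T03_aux.Z X := by
      intro g f hf hg
      apply hU
      rw [mem_Up]
      intro i j hij
      rw [← mv_sv, hg, Pi.add_apply, Pi.smul_apply, smul_eq_mul, Matrix.one_apply]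
      have h1 : (sv j : Fin n → F) i = if i = j then 1 else 0 := by
        rw [sv, Pi.single_apply]
      rw [h1]
      by_cases hi : i = ⟨0, hn0⟩
      · have hj : j = ⟨0, hn0⟩ := by
          apply Fin.ext
          rw [Fin.lt_def, hi] at hij
          simp only at hij ⊢
          omega
        rw [hj, ← he, hf, zero_mul, add_zero]
      · have h2 : e i = 0 := by
          rw [he, sv, Pi.single_eq_of_ne hi]
        rw [h2, mul_zero, add_zero]
    have hZ : ∀ v, v ∈ T03_aux.Z X := by
      intro v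
      have hv : v ∈ W := by
        rw [hWtop]
        exact Submodule.mem_top
      induction hv using Submodule.span_induction with
      | mem v hv =>
        obtain ⟨y, hy, rfl⟩ := hv
        exact T03_aux.conj heZ hy
      | zero =>
        have := T03_aux.smul heZ (0 : F)
        rwa [zero_smul] at this
      | add a b _ _ iha ihb => exact T03_aux.add iha ihb
      | smul c a _ iha => exact T03_aux.smul iha c
    intro i j hij c
    refine hZ (sv i) (tv i j c) (c • LinearMap.proj j) ?_ ?_
    · rw [LinearMap.smul_apply, LinearMap.proj_apply, sv, Pi.single_eq_of_ne hij.symm, smul_zero]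
    · intro x
      rw [mv_tv hij, LinearMap.smul_apply, LinearMap.proj_apply, smul_eq_mul]

theorem sl_not_le {k : ℕ} (hk : 0 < k) (hk' : k < n) : ¬ SLg n F ≤ St (Fl n k F) := by
  intro h
  have hn0 : 0 < n := by omega
  have hne : (⟨n - 1, by omega⟩ : Fin n) ≠ ⟨0, hn0⟩ := by
    intro h1
    have := congrArg Fin.val h1
    simp only at this
    omega
  have h1 := (mem_St.1 (h (tv_mem hne (1 : F))) (sv ⟨0, hn0⟩)).2
    (T03_aux.sv_mem_Fl ⟨0, hn0⟩ hk)
  rw [mv_tv hne] at h1
  have h2 := h1 ⟨n - 1, by omega⟩ (by simp only; omega)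
  rw [Pi.add_apply, Pi.smul_apply, sv, sv, Pi.single_eq_of_ne hne, Pi.single_eq_same,
    Pi.single_eq_same, zero_add, mul_one, smul_eq_mul, mul_one] at h2
  exact one_ne_zero h2

end

end CF
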