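import Pool.Agent.CF.T04
import Pool.Agent.CF.E01
import Pool.Agent.CF.E04

/-!
# MP_6c3636_al, CF, module T05: extensions by parabolic subgroups (helper7)

`R = SLg ⊓ St (Fl ..)`. `ex_hom` (E01) for `φ` (`hom1` restricted to `R`): the range contains `SLg k F` (`lift1`), so `Ex` by `h1`. For the kernel `K` of `φ` on `R` use `ex_hom` for the restriction of `ψ` (`hom2`): the range contains `SLg m F` (`lift2`), `Ex` by `h2`; the kernel of `ψ` on `K` consists of elements of `Up` (`up_of`), of `2`-power order (`Up_two`), so it is solvable (`solv_two`, `ex_solv`).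
-/

namespace CF

noncomputable section

open Classical Matrix

variable {n : ℕ} {F : Type} [Field F] [Finite F] [CharP F 2]

theorem ex_stab_lin {k m : ℕ} (h1 : ∀ H : Subgroup (GL (Fin k) F), IsLin H → Ex H)
    (h2 : ∀ H : Subgroup (GL (Fin m) F), IsLin H → Ex H) :
    Ex ↥(SLg (k + m) F ⊓ St (Fl (k + m) k F)) := by
  obtain ⟨φ, hφ⟩ := hom1 (F := F) k m
  obtain ⟨ψ, hψ⟩ := hom2 (F := F) k m
  let ι : ↥(SLg (k + m) F ⊓ St (Fl (k + m) k F)) →* ↥(St (Fl (k + m) k F)) :=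
    Subgroup.inclusion inf_le_right
  let f : ↥(SLg (k + m) F ⊓ St (Fl (k + m) k F)) →* GL (Fin k) F := φ.comp ι
  let f2 : ↥f.ker →* GL (Fin m) F := (ψ.comp ι).comp f.ker.subtype
  have hf : ∀ x : ↥(SLg (k + m) F ⊓ St (Fl (k + m) k F)),
      (f x : Matrix (Fin k) (Fin k) F) = b1 k m x.1 := fun x => hφ (ι x)
  have hf2 : ∀ x : ↥f.ker, (f2 x : Matrix (Fin m) (Fin m) F) = b2 k m x.1.1 := fun x =>
    hψ (ι x.1)
  refine ex_hom f (ex_hom f2 (ex_solv ?_) (h2 f2.range ?_)) (h1 f.range ?_)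
  · refine solv_two fun x => ?_
    have e1 : b1 k m x.1.1.1 = 1 := by
      rw [← hf]
      have h3 : f x.1.1 = 1 := x.1.2
      rw [h3]
      rfl
    have e2 : b2 k m x.1.1.1 = 1 := by
      rw [← hf2]
      have h3 : f2 x.1 = 1 := x.2
      rw [h3]
      rfl
    obtain ⟨r, hr⟩ := Up_two (up_of x.1.1.2.2 e1 e2)
    refine ⟨r, ?_⟩
    apply Subtype.ext
    apply Subtype.ext
    apply Subtype.ext
    exact hr
  · intro B hB
    obtain ⟨g, hg, e1, e2⟩ := lift2 (k := k) (B := B) hB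
    have h3 : f ⟨g, hg⟩ = 1 := by
      apply Units.ext
      rw [hf]
      exact e1
    refine ⟨⟨⟨g, hg⟩, h3⟩, ?_⟩
    apply Units.ext
    rw [hf2]
    exact e2
  · intro A hA
    obtain ⟨g, hg, e1⟩ := lift1 (m := m) (A := A) hA
    refine ⟨⟨g, hg⟩, ?_⟩
    apply Units.ext
    rw [hf]
    exact e1

end

end CF
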