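import Pool.Agent.CF.T02
import Pool.Agent.CF.T03
import Pool.Agent.CF.T05
import Pool.Agent.CF.E02
import Pool.Agent.ParkerGL.F04

/-!
# MP_6c3636_al, CF, module T06: extensions by linear groups (helper7)

Strong induction on `n`. `SLg n F ≤ H` is normal in `H` with commutative quotient (determinant), so by `ex_ext`, `ex_solv`, `ex_congr` it is enough to show `Ex (SLg n F)`. If `n ≤ 1` or (`n = 2` and `Nat.card F ≤ 2`): `sl_small`, `ex_solv`. Otherwise `sl_perfect`; apply `ex_perf` (E02) with `AB2 (SLg n F)` (`ParkerGL.gl_ab n (SLg n F)`) and `U = (Up n F).subgroupOf (SLg n F)` (`Up_two`; `Up n F ≤ SLg n F`: the determinant of a triangular matrix, `Matrix.det_of_upperTriangular`, or `d ^ (2 ^ k) = 1` implies `d = 1` in characteristic two). Let `X` be a proper subgroup of the type `SLg n F` which contains `U`; `X' = X.map (SLg n F).subtype`, `Up ≤ X' ≤ SLg`, `X' ≠ SLg`, so `X' ≤ St (Fl n k F)`, `0 < k < n` (`tits_lin`). `M = (St (Fl n k F)).subgroupOf (SLg n F)`, `M ≠ ⊤` (`sl_not_le`), `M ≃* ↥(SLg n F ⊓ St (Fl n k F))`; with `m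 = n - k`, `n = k + m` (`subst`), `ex_stab_lin` and the induction hypothesis (`k < n`, `m < n`) give `Ex M`.
-/

namespace CF

noncomputable section

open Classical Matrix

variable {n : ℕ} {F : Type} [Field F] [Finite F] [CharP F 2]

namespace T06_aux

theorem up_le : Up n F ≤ SLg n F := by
  intro g hg
  rw [mem_SLg]
  rw [mem_Up] at hg
  have h1 : (g : Matrix (Fin n) (Fin n) F).BlockTriangular id := by
    intro i j hij
    have h2 : j < i := hij
    rw [hg i j (not_lt.2 h2.le), Matrix.one_apply_ne h2.ne']
  rw [Matrix.det_of_upperTriangular h1]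
  apply Finset.prod_eq_one
  intro i _
  rw [hg i i (lt_irrefl i), Matrix.one_apply_eq]

theorem ex_of_sl (H : Subgroup (GL (Fin n) F)) (hH : IsLin H) (h : Ex (SLg n F)) : Ex H := by
  let φ : H →* Fˣ := (Matrix.GeneralLinearGroup.det (n := Fin n) (R := F)).comp H.subtype
  have hmem : ∀ g : H, g ∈ φ.ker ↔ (g : GL (Fin n) F) ∈ SLg n F := by
    intro g
    rw [MonoidHom.mem_ker, mem_SLg]
    constructor
    · intro hg
      have h1 : ((φ g : Fˣ) : F) = ((1 : Fˣ) : F) := by rw [hg]
      exact h1
    · intro hg
      apply Units.ext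
      exact hg
  have hle : SLg n F ≤ H := fun g hg => hH g (mem_SLg.1 hg)
  have hk : φ.ker = (SLg n F).subgroupOf H := by
    ext g
    rw [hmem, Subgroup.mem_subgroupOf]
  apply ex_hom φ
  · rw [hk]
    exact ex_congr (Subgroup.subgroupOfEquivOfLe hle).symm h
  · apply ex_solv
    infer_instance

end T06_aux

open T06_aux

theorem ex_lin {n : ℕ} (H : Subgroup (GL (Fin n) F)) (hH : IsLin H) : Ex H := by
  induction n using Nat.strong_induction_on with
  | _ n ih =>
    apply ex_of_sl H hH
    by_cases hn : n ≤ 1 ∨ (n = 2 ∧ ¬ 2 < Nat.card F)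
    · exact ex_solv (sl_small hn)
    · have hn' : 3 ≤ n ∨ (n = 2 ∧ 2 < Nat.card F) := by
        push Not at hn
        obtain ⟨h1, h2⟩ := hn
        rcases Nat.lt_or_ge n 3 with h3 | h3
        · exact Or.inr ⟨by omega, h2 (by omega)⟩
        · exact Or.inl h3
      have hn2 : 2 ≤ n := by omega
      have hfin : Finite (GL (Fin n) F) := inferInstance
      apply ex_perf (sl_perfect hn') (ParkerGL.gl_ab n (SLg n F) fun g hg => hg)
        ((Up n F).subgroupOf (SLg n F))
      · intro u hu
        rw [Subgroup.mem_subgroupOf] at hu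
        obtain ⟨k, hk⟩ := Up_two hu
        refine ⟨k, ?_⟩
        apply Subtype.ext
        exact hk
      · intro X hX hUX
        have h1 : X.map (SLg n F).subtype ≤ SLg n F := Subgroup.map_subtype_le X
        have h2 : Up n F ≤ X.map (SLg n F).subtype := by
          intro g hg
          rw [Subgroup.mem_map]
          exact ⟨⟨g, up_le hg⟩, hUX (Subgroup.mem_subgroupOf.2 hg), rfl⟩
        rcases tits_lin hn2 _ h1 h2 with h3 | ⟨k, hk0, hkn, h3⟩
        · exfalso
          apply hX
          rw [eq_top_iff]
          intro g _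
          have h4 : (g : GL (Fin n) F) ∈ X.map (SLg n F).subtype := by
            rw [h3]
            exact g.2
          rw [Subgroup.mem_map] at h4
          obtain ⟨x, hx, hxg⟩ := h4
          have : x = g := Subtype.ext hxg
          rwa [← this]
        · refine ⟨(St (Fl n k F)).subgroupOf (SLg n F), ?_, ?_, ?_⟩
          · intro x hx
            rw [Subgroup.mem_subgroupOf]
            exact h3 (Subgroup.mem_map_of_mem (SLg n F).subtype hx)
          · intro h4
            exact sl_not_le (F := F) hk0 hkn (Subgroup.subgroupOf_eq_top.1 h4)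
          · obtain ⟨m, rfl⟩ : ∃ m, n = k + m := ⟨n - k, by omega⟩
            have h5 : Ex ↥(SLg (k + m) F ⊓ St (Fl (k + m) k F)) :=
              ex_stab_lin (fun H hH => ih k (by omega) H hH) (fun H hH => ih m (by omega) H hH)
            have h6 : (St (Fl (k + m) k F)).subgroupOf (SLg (k + m) F) =
                (SLg (k + m) F ⊓ St (Fl (k + m) k F)).subgroupOf (SLg (k + m) F) := by
              ext g
              rw [Subgroup.mem_subgroupOf, Subgroup.mem_subgroupOf, Subgroup.mem_inf]
              exact ⟨fun hg => ⟨g.2, hg⟩, fun hg => hg.2⟩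
            rw [h6]
            exact ex_congr (Subgroup.subgroupOfEquivOfLe inf_le_left).symm h5

end

end CF
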