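import Pool.Agent.CF.W02

/-!
# MP_6c3636_al, CF, module W03: Eichler elements, further properties (helper7)

`ei_smul`: `fm (c • v) x = σ c * fm v x`, so both sides are the same map (`mv_ext`, `mv_ei`). `ei_shift`: `(a + l v) * fm v x + v * fm (a + l v) x = a * fm v x + v * fm a x + (l + σ l) * v * fm v x`. `ei_zero`: `fm 0 x = 0`. `ei_pow`: `ei v a z * ei v a z = ei v 0 (fm a a)` (`ei_mul`, characteristic two), its square is `ei v 0 0 = 1`. `ei_det`: the determinant `d` satisfies `d ^ 4 = 1`; `(d + 1) ^ 4 = 0` in characteristic two, so `d = 1`.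
-/

namespace CF

noncomputable section

open Classical Matrix

variable {n : ℕ} {F : Type} [Field F] [Finite F] [CharP F 2]

theorem ei_smul {σ : F ≃+* F} (hσ : ∀ x, σ (σ x) = x) {v a : Fin n → F} {z c : F} (hc : c ≠ 0)
    (h : Adm σ (c • v) a z) : Adm σ v (σ c • a) (c * σ c * z) ∧
      ei σ (c • v) a z = ei σ v (σ c • a) (c * σ c * z) := by
  have hsc : σ c ≠ 0 := by
    intro h0
    apply hc
    have := congrArg σ h0
    rwa [hσ, map_zero] at this
  have h1 : fm σ v v = 0 := by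
    have := h.iso
    rw [fm_smul_left, fm_smul_right] at this
    rcases mul_eq_zero.1 this with h2 | h2
    · exact absurd h2 hsc
    · rcases mul_eq_zero.1 h2 with h3 | h3
      · exact absurd h3 hc
      · exact h3
  have h2 : fm σ v a = 0 := by
    have := h.perp
    rw [fm_smul_left] at this
    exact (mul_eq_zero.1 this).resolve_left hsc
  have hA : Adm σ v (σ c • a) (c * σ c * z) := by
    refine ⟨h1, ?_, ?_⟩
    · rw [fm_smul_right, h2, mul_zero]
    · rw [fm_smul_left, fm_smul_right, map_mul, map_mul, hσ, ← h.tr]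
      ring
  refine ⟨hA, mv_ext fun j => ?_⟩
  rw [mv_ei hσ h, mv_ei hσ hA, fm_smul_left, fm_smul_left, hσ]
  ext i
  simp only [Pi.add_apply, Pi.smul_apply, smul_eq_mul]
  ring

theorem ei_shift {σ : F ≃+* F} (hσ : ∀ x, σ (σ x) = x) {v a : Fin n → F} {z : F}
    (h : Adm σ v a z) (l : F) : Adm σ v (a + l • v) (z + l + σ l) ∧
      ei σ v a z = ei σ v (a + l • v) (z + l + σ l) := by
  have hav : fm σ a v = 0 := by
    rw [← fm_swap hσ v a, h.perp, map_zero]
  have h2 : (2 : F) = 0 := CharTwo.two_eq_zero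
  have hA : Adm σ v (a + l • v) (z + l + σ l) := by
    refine ⟨h.iso, ?_, ?_⟩
    · rw [fm_add_right, fm_smul_right, h.perp, h.iso, mul_zero, add_zero]
    · rw [fm_add_left, fm_add_right, fm_add_right, fm_smul_left, fm_smul_left, fm_smul_right,
        fm_smul_right, h.perp, h.iso, hav, map_add, map_add, hσ, ← h.tr]
      linear_combination (l + σ l) * h2
  refine ⟨hA, mv_ext fun j => ?_⟩
  rw [mv_ei hσ h, mv_ei hσ hA, fm_add_left, fm_smul_left]
  ext i
  simp only [Pi.add_apply, Pi.smul_apply, smul_eq_mul]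
  linear_combination (-(l + σ l) * fm σ v (sv j) * v i) * h2

theorem ei_zero {σ : F ≃+* F} (hσ : ∀ x, σ (σ x) = x) {a : Fin n → F} {z : F}
    (h : Adm σ 0 a z) : ei σ 0 a z = 1 := by
  refine mv_ext fun j => ?_
  rw [mv_ei hσ h, mv_one, fm_zero_left]
  simp

theorem ei_pow {σ : F ≃+* F} (hσ : ∀ x, σ (σ x) = x) {v a : Fin n → F} {z : F}
    (h : Adm σ v a z) : ei σ v a z ^ 4 = 1 := by
  have haa : a + a = 0 := by
    ext i
    simp only [Pi.add_apply, Pi.zero_apply]
    exact CharTwo.add_self_eq_zero _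
  have hA := adm_mul hσ h h
  have hm := ei_mul hσ h h
  rw [haa, CharTwo.add_self_eq_zero z, zero_add] at hA hm
  have hA2 := adm_mul hσ hA hA
  have hm2 := ei_mul hσ hA hA
  rw [add_zero, CharTwo.add_self_eq_zero (fm σ a a), zero_add, fm_zero_left] at hA2 hm2
  have h0 : ei σ v 0 0 = 1 := by
    refine mv_ext fun j => ?_
    rw [mv_ei hσ hA2, mv_one, fm_zero_left]
    simp
  calc ei σ v a z ^ 4 = (ei σ v a z * ei σ v a z) * (ei σ v a z * ei σ v a z) := by
        rw [show (4 : ℕ) = 2 + 2 from rfl, pow_add, pow_two]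
    _ = 1 := by rw [hm, hm2, h0]

theorem ei_det {σ : F ≃+* F} (hσ : ∀ x, σ (σ x) = x) {v a : Fin n → F} {z : F}
    (h : Adm σ v a z) : (ei σ v a z : Matrix (Fin n) (Fin n) F).det = 1 := by
  have h4 : (ei σ v a z : Matrix (Fin n) (Fin n) F).det ^ 4 = 1 := by
    rw [← Matrix.det_pow, ← Units.val_pow_eq_pow_val, ei_pow hσ h, Units.val_one, Matrix.det_one]
  generalize (ei σ v a z : Matrix (Fin n) (Fin n) F).det = d at h4
  have h2 : (2 : F) = 0 := CharTwo.two_eq_zero
  have h5 : (d - 1) ^ 4 = 0 := by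
    linear_combination h4 + (-2 * d ^ 3 + 3 * d ^ 2 - 2 * d + 1) * h2
  have h6 : d - 1 = 0 := pow_eq_zero_iff (by norm_num) |>.1 h5
  exact sub_eq_zero.1 h6

theorem EG_le_SLg {σ : F ≃+* F} (hσ : ∀ x, σ (σ x) = x) : EG n σ ≤ SLg n F := by
  rw [EG, Subgroup.closure_le]
  rintro g ⟨v, a, z, h, rfl⟩
  exact ei_det hσ h

end

end CF
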