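import Pool.Agent.CF.W21
import Pool.Agent.CF.W03
import Pool.Agent.CF.T06
import Pool.Agent.CF.E03

/-!
# MP_6c3636_al, CF, module Z01: assembly (helper7)

The classes of factors.
-/

namespace CF

noncomputable section

open Classical Matrix


/-- `SL ≤ H`, or `H` consists of isometries and contains all isometries of determinant one -/
theorem ex_matrix {F : Type} [Field F] [Finite F] (h2 : (2 : F) = 0) {d : ℕ}
    (H : Subgroup (GL (Fin d) F))
    (hH : IsLin H ∨ ∃ σ : F ≃+* F, (∀ x, σ (σ x) = x) ∧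
        ((∀ x, σ x = x) → Even d ∧ 2 < Nat.card F) ∧ H ≤ Ug d σ ∧
        ∀ g ∈ Ug d σ, (g : Matrix (Fin d) (Fin d) F).det = 1 → g ∈ H) : Ex H := by
  have hch : CharP F 2 := CharTwo.of_one_ne_zero_of_two_eq_zero one_ne_zero h2
  rcases hH with hH | ⟨σ, h1, h3, h4, h5⟩
  · exact ex_lin H hH
  · refine ex_ug ⟨h1, h3⟩ H ?_ h4
    rw [EG, Subgroup.closure_le]
    rintro g ⟨v, a, z, h, rfl⟩
    exact h5 _ (ei_mem h1 h) (ei_det h1 h)

/-- one step of a series -/
theorem ab_step {G : Type} [Group G] [Finite G] (N : Subgroup G) [N.Normal] (h : AB2 N)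
    (hE : Ex (G ⧸ N)) : AB2 G := hE G N ⟨MulEquiv.refl _⟩ h

end

end CF
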