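import Pool.Agent.CF.Defs

/-!
# MP_6c3636_al, CF, module T01: transvections (helper7)

`tv i j c` is `1 + c E_ij` for `i ≠ j` (`Matrix.transvection_mul_transvection_same`). `sl_gen`: every matrix of determinant one is a product of transvections: `Matrix.SpecialLinearGroup.diagonal_transvection_induction'` (Mathlib, Matrix/SpecialLinearGroup; `[Nontrivial (Fin n)]`, so treat `n ≤ 1` separately: then a matrix of determinant one is `1`), and `diag2n hij a` is a product of six transvections in the positions `(i, j)`, `(j, i)` (see `Matrix.SpecialLinearGroup.diag2_decompose`), or use `Matrix.Pivot.exists_list_transvec_mul_diagonal_mul_list_transvec`.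
-/

namespace CF

noncomputable section

open Classical Matrix

variable {n : ℕ} {F : Type} [Field F] [Finite F] [CharP F 2]

theorem tv_coe {i j : Fin n} (h : i ≠ j) (c : F) :
    (tv i j c : Matrix (Fin n) (Fin n) F) = Matrix.transvection i j c := by
  have h1 : Matrix.transvection i j c * Matrix.transvection i j (-c) = 1 ∧
      Matrix.transvection i j (-c) * Matrix.transvection i j c = 1 := by
    rw [Matrix.transvection_mul_transvection_same _ _ h, Matrix.transvection_mul_transvection_same _ _ h,
      add_neg_cancel, neg_add_cancel, Matrix.transvection_zero]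
    exact ⟨rfl, rfl⟩
  rw [tv, dif_pos h1]

theorem mv_tv {i j : Fin n} (h : i ≠ j) (c : F) (v : Fin n → F) :
    mv (tv i j c) v = v + (c * v j) • sv i := by
  rw [mv, tv_coe h, Matrix.transvection, Matrix.add_mulVec, Matrix.one_mulVec, sv, Matrix.single_mulVec]
  congr 1
  ext k
  rw [Pi.smul_apply, smul_eq_mul]
  by_cases hk : k = i
  · subst hk
    rw [Function.update_self, Pi.single_eq_same, mul_one]
  · rw [Function.update_of_ne hk, Pi.single_eq_of_ne hk, mul_zero]
    rfl

theorem tv_add {i j : Fin n} (h : i ≠ j) (c d : F) : tv i j (c + d) = tv i j c * tv i j d := by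
  apply Units.ext
  rw [Units.val_mul, tv_coe h, tv_coe h, tv_coe h, Matrix.transvection_mul_transvection_same _ _ h]

theorem tv_inv {i j : Fin n} (h : i ≠ j) (c : F) : (tv i j c)⁻¹ = tv i j (-c) := by
  apply inv_eq_of_mul_eq_one_right
  rw [← tv_add h, add_neg_cancel]
  apply Units.ext
  rw [tv_coe h, Matrix.transvection_zero, Units.val_one]

theorem tv_mem {i j : Fin n} (h : i ≠ j) (c : F) : tv i j c ∈ SLg n F := by
  rw [mem_SLg, tv_coe h, Matrix.det_transvection_of_ne _ _ h]

theorem tv_mem_Up {i j : Fin n} (h : i < j) (c : F) : tv i j c ∈ Up n F := by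
  rw [mem_Up]
  intro a b hab
  rw [tv_coe h.ne, Matrix.transvection, Matrix.add_apply, Matrix.single_apply_of_ne, add_zero]
  rintro ⟨rfl, rfl⟩
  exact hab h

theorem sl_gen (X : Subgroup (GL (Fin n) F)) (h : ∀ i j : Fin n, i ≠ j → ∀ c, tv i j c ∈ X) :
    SLg n F ≤ X := by
  intro g hg
  rcases subsingleton_or_nontrivial (Fin n) with hs | hs
  · have hg1 : g = 1 := by
      apply Units.ext
      rw [Units.val_one]
      ext a b
      obtain rfl : a = b := Subsingleton.elim a b
      rw [mem_SLg] at hg
      rw [Matrix.one_apply_eq, ← hg]
      exact (Matrix.det_eq_elem_of_subsingleton _ a).symm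
    rw [hg1]
    exact X.one_mem
  · have hd : ∀ (i j : Fin n) (hij : i ≠ j) (a : F), a ≠ 0 → ∀ v : Fin n → F,
        mv (tv i j a * tv j i (-a⁻¹) * tv i j a * tv i j (-1) * tv j i 1 * tv i j (-1)) v =
          fun k => if k = i then a * v i else if k = j then a⁻¹ * v j else v k := by
      intro i j hij a ha v
      simp only [mv_mul, mv_tv hij, mv_tv hij.symm]
      ext k
      simp only [Pi.add_apply, Pi.smul_apply, smul_eq_mul, sv, Pi.single_apply, hij, if_true, if_false]
      by_cases hk : k = i
      · subst hk
        simp only [if_true, hij, hij.symm, if_false]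
        field_simp
        ring
      · by_cases hk' : k = j
        · subst hk'
          simp only [hk, if_true, if_false]
          field_simp
          ring
        · simp only [hk, hk', if_false]
          ring
    have hA : ∀ A : Matrix.SpecialLinearGroup (Fin n) F, ∀ u : GL (Fin n) F,
        (u : Matrix (Fin n) (Fin n) F) = (A : Matrix (Fin n) (Fin n) F) → u ∈ X := by
      intro A
      induction A using Matrix.SpecialLinearGroup.diagonal_transvection_induction' with
      | hdiag i j hij hc =>
        rename_i c
        intro u hu
        have h1 : u = tv i j c * tv j i (-c⁻¹) * tv i j c * tv i j (-1) * tv j i 1 * tv i j (-1) := by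
          apply mv_ext
          intro l
          rw [hd i j hij c hc, mv, hu, Matrix.SpecialLinearGroup.diag2n_coe]
          ext k
          rw [Matrix.mulVec_diagonal]
          by_cases hk : k = i
          · rw [if_pos hk, if_pos hk, hk]
          · rw [if_neg hk, if_neg hk]
            by_cases hk' : k = j
            · rw [if_pos hk', if_pos hk', hk']
            · rw [if_neg hk', if_neg hk', one_mul]
        rw [h1]
        exact X.mul_mem (X.mul_mem (X.mul_mem (X.mul_mem (X.mul_mem (h i j hij _) (h j i hij.symm _)) (h i j hij _))
          (h i j hij _)) (h j i hij.symm _)) (h i j hij _)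
      | htransvec i j hij a =>
        intro u hu
        have h1 : u = tv i j a := by
          apply Units.ext
          rw [hu, tv_coe hij]
          rfl
        rw [h1]
        exact h i j hij a
      | hmul A B hA hB =>
        intro u hu
        have h1 : u = Matrix.SpecialLinearGroup.toGL A * Matrix.SpecialLinearGroup.toGL B := by
          apply Units.ext
          rw [hu, Units.val_mul]
          rfl
        rw [h1]
        exact X.mul_mem (hA _ rfl) (hB _ rfl)
    exact hA ⟨(g : Matrix (Fin n) (Fin n) F), hg⟩ g rfl

end

end CF
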