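import Pool.Agent.LieP.I01
import Pool.Agent.Parker.P45
import Pool.Agent.ParkerGL.F04

/-!
# MP_6c3636_al, CF (the composition factor theorem): definitions (helper7)

`Ex R`: all extensions `E` of a group `N` with (A) and (B) by `R` (`E ⧸ N ≃* R`) have (A) and (B). `Over c N`: the
hypothesis on the subgroups of odd index in the Clifford step. `fm σ` is the form `∑ σ (v (rev i)) * w i`, `ei σ v a z` is
the isometry `x ↦ x + fm v x • a + fm a x • v + (z * fm v x) • v` for `Adm σ v a z`, `EG n σ` is the group which they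
generate.
-/

namespace CF

noncomputable section

open Classical Matrix

section Ext

/-- (A) and (B) at the prime two -/
abbrev AB2 (G : Type) [Group G] [Finite G] : Prop := ParkerGL.AB Parker.ctx2 G

/-- every proper subgroup of odd index which contains `N` is contained in a proper subgroup with (A) and (B) -/
def Over {Ω : Type} [Field Ω] (c : Parker.Ctx Ω) {G : Type} [Group G] [Finite G] (N : Subgroup G) : Prop :=
  ∀ T : Subgroup G, N ≤ T → T ≠ ⊤ → Odd T.index →
    ∃ M : Subgroup G, T ≤ M ∧ M ≠ ⊤ ∧ Parker.PropA c 1 M ∧ Parker.PropB c 1 M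

/-- all extensions of a group with (A) and (B) by `R` have (A) and (B) -/
def Ex (R : Type) [Group R] : Prop :=
  ∀ (E : Type) [Group E] [Finite E] (N : Subgroup E) [N.Normal], Nonempty (E ⧸ N ≃* R) → AB2 N → AB2 E

end Ext

section Linear

variable {n : ℕ} {F : Type} [Field F]

/-- the action on vectors -/
def mv (g : GL (Fin n) F) (v : Fin n → F) : Fin n → F := (g : Matrix (Fin n) (Fin n) F).mulVec v

theorem mv_one (v : Fin n → F) : mv 1 v = v := by
  rw [mv, Units.val_one, Matrix.one_mulVec]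

theorem mv_mul (g h : GL (Fin n) F) (v : Fin n → F) : mv (g * h) v = mv g (mv h v) := by
  rw [mv, mv, mv, Units.val_mul, Matrix.mulVec_mulVec]

theorem mv_inv (g : GL (Fin n) F) (v : Fin n → F) : mv g⁻¹ (mv g v) = v := by
  rw [← mv_mul, inv_mul_cancel, mv_one]

theorem mv_inv' (g : GL (Fin n) F) (v : Fin n → F) : mv g (mv g⁻¹ v) = v := by
  rw [← mv_mul, mul_inv_cancel, mv_one]

theorem mv_add (g : GL (Fin n) F) (v w : Fin n → F) : mv g (v + w) = mv g v + mv g w :=
  Matrix.mulVec_add _ _ _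

theorem mv_smul (g : GL (Fin n) F) (c : F) (v : Fin n → F) : mv g (c • v) = c • mv g v :=
  Matrix.mulVec_smul _ _ _

theorem mv_zero (g : GL (Fin n) F) : mv g (0 : Fin n → F) = 0 := Matrix.mulVec_zero _

/-- the standard vector -/
def sv (i : Fin n) : Fin n → F := Pi.single i 1

theorem mv_sv (g : GL (Fin n) F) (i j : Fin n) : mv g (sv j) i = (g : Matrix (Fin n) (Fin n) F) i j := by
  rw [mv, sv, Matrix.mulVec_single, MulOpposite.op_one, one_smul]
  rfl

theorem mv_ext {g h : GL (Fin n) F} (H : ∀ j : Fin n, mv g (sv j) = mv h (sv j)) : g = h := by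
  apply Units.ext
  ext i j
  rw [← mv_sv, ← mv_sv, H]

/-- `H` contains all matrices of determinant one -/
def IsLin (H : Subgroup (GL (Fin n) F)) : Prop := ∀ g : GL (Fin n) F, (g : Matrix (Fin n) (Fin n) F).det = 1 → g ∈ H

/-- the special linear group as a subgroup of the general linear group -/
def SLg (n : ℕ) (F : Type) [Field F] : Subgroup (GL (Fin n) F) where
  carrier := {g | (g : Matrix (Fin n) (Fin n) F).det = 1}
  mul_mem' := by
    intro a b ha hb
    show ((a * b : GL (Fin n) F) : Matrix (Fin n) (Fin n) F).det = 1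
    rw [Units.val_mul, Matrix.det_mul, ha, hb, one_mul]
  one_mem' := by
    show ((1 : GL (Fin n) F) : Matrix (Fin n) (Fin n) F).det = 1
    rw [Units.val_one, Matrix.det_one]
  inv_mem' := by
    intro a ha
    show ((a⁻¹ : GL (Fin n) F) : Matrix (Fin n) (Fin n) F).det = 1
    have h1 : ((a⁻¹ : GL (Fin n) F) : Matrix (Fin n) (Fin n) F).det * (a : Matrix (Fin n) (Fin n) F).det = 1 := by
      rw [← Matrix.det_mul, ← Units.val_mul, inv_mul_cancel, Units.val_one, Matrix.det_one]
    rw [show (a : Matrix (Fin n) (Fin n) F).det = 1 from ha, mul_one] at h1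
    exact h1

theorem mem_SLg {g : GL (Fin n) F} : g ∈ SLg n F ↔ (g : Matrix (Fin n) (Fin n) F).det = 1 := Iff.rfl

/-- the elementary transvection `1 + c E_ij` -/
def tv (i j : Fin n) (c : F) : GL (Fin n) F :=
  if h : Matrix.transvection i j c * Matrix.transvection i j (-c) = 1 ∧
      Matrix.transvection i j (-c) * Matrix.transvection i j c = 1 then
    ⟨Matrix.transvection i j c, Matrix.transvection i j (-c), h.1, h.2⟩ else 1

/-- the stabilizer of a subspace -/
def St (W : Submodule F (Fin n → F)) : Subgroup (GL (Fin n) F) where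
  carrier := {g | ∀ v, mv g v ∈ W ↔ v ∈ W}
  mul_mem' := by
    intro a b ha hb v
    rw [mv_mul]
    exact (ha _).trans (hb v)
  one_mem' := by
    intro v
    rw [mv_one]
  inv_mem' := by
    intro a ha v
    have h1 := ha (mv a⁻¹ v)
    rw [mv_inv'] at h1
    exact h1.symm

theorem mem_St {W : Submodule F (Fin n → F)} {g : GL (Fin n) F} :
    g ∈ St W ↔ ∀ v, mv g v ∈ W ↔ v ∈ W := Iff.rfl

/-- the span of the first `k` standard vectors -/
def Fl (n k : ℕ) (F : Type) [Field F] : Submodule F (Fin n → F) where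
  carrier := {v | ∀ i : Fin n, k ≤ (i : ℕ) → v i = 0}
  add_mem' := by
    intro a b ha hb i hi
    rw [Pi.add_apply, ha i hi, hb i hi, add_zero]
  zero_mem' := fun i _ => rfl
  smul_mem' := by
    intro c a ha i hi
    rw [Pi.smul_apply, ha i hi, smul_zero]

theorem mem_Fl {k : ℕ} {v : Fin n → F} : v ∈ Fl n k F ↔ ∀ i : Fin n, k ≤ (i : ℕ) → v i = 0 := Iff.rfl

/-- the upper unitriangular matrices -/
def Up (n : ℕ) (F : Type) [Field F] : Subgroup (GL (Fin n) F) :=
  LieP.GI.GS F (fun i j : Fin n => i < j) (fun _ _ _ h h' => h.trans h')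

theorem mem_Up [Finite F] {g : GL (Fin n) F} :
    g ∈ Up n F ↔ ∀ i j : Fin n, ¬ i < j → (g : Matrix (Fin n) (Fin n) F) i j = (1 : Matrix (Fin n) (Fin n) F) i j :=
  LieP.GI.mem_GS

end Linear

section Isometries

variable {n : ℕ} {F : Type} [Field F] (σ : F ≃+* F)

/-- the hypotheses on `σ` and `n` -/
structure Hy (n : ℕ) (σ : F ≃+* F) : Prop where
  inv : ∀ x, σ (σ x) = x
  id : (∀ x, σ x = x) → Even n ∧ 2 < Nat.card F

/-- the form -/
def fm (v w : Fin n → F) : F := ∑ i, σ (v (Fin.rev i)) * w i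

/-- the condition for `v`, `a`, `z` -/
structure Adm (v a : Fin n → F) (z : F) : Prop where
  iso : fm σ v v = 0
  perp : fm σ v a = 0
  tr : z + σ z = fm σ a a

/-- the matrix of `x ↦ x + fm v x • a + fm a x • v + (z * fm v x) • v` -/
def eiM (v a : Fin n → F) (z : F) : Matrix (Fin n) (Fin n) F := fun i j =>
  (1 : Matrix (Fin n) (Fin n) F) i j + a i * σ (v (Fin.rev j)) + v i * σ (a (Fin.rev j)) +
    z * v i * σ (v (Fin.rev j))

/-- the isometry `x ↦ x + fm v x • a + fm a x • v + (z * fm v x) • v` -/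
def ei (v a : Fin n → F) (z : F) : GL (Fin n) F :=
  if h : eiM σ v a z * eiM σ v a (σ z) = 1 ∧ eiM σ v a (σ z) * eiM σ v a z = 1 then
    ⟨eiM σ v a z, eiM σ v a (σ z), h.1, h.2⟩ else 1

/-- the group generated by the elements `ei v a z` -/
def EG (n : ℕ) (σ : F ≃+* F) : Subgroup (GL (Fin n) F) :=
  Subgroup.closure {g | ∃ v a z, Adm σ v a z ∧ g = ei σ v a z}

/-- the isometry group -/
abbrev Ug (n : ℕ) (σ : F ≃+* F) : Subgroup (GL (Fin n) F) := LieP.UG σ Fin.revPerm

/-- the upper unitriangular isometries -/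
def Uu (n : ℕ) (σ : F ≃+* F) : Subgroup (GL (Fin n) F) := Ug n σ ⊓ Up n F

/-- the span of the standard vectors with indices `k ≤ i < n - k` -/
def Wk (n k : ℕ) (F : Type) [Field F] : Submodule F (Fin n → F) where
  carrier := {v | ∀ i : Fin n, ¬ (k ≤ (i : ℕ) ∧ (i : ℕ) + k < n) → v i = 0}
  add_mem' := by
    intro a b ha hb i hi
    rw [Pi.add_apply, ha i hi, hb i hi, add_zero]
  zero_mem' := fun i _ => rfl
  smul_mem' := by
    intro c a ha i hi
    rw [Pi.smul_apply, ha i hi, smul_zero]

theorem mem_Wk {k : ℕ} {v : Fin n → F} :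
    v ∈ Wk n k F ↔ ∀ i : Fin n, ¬ (k ≤ (i : ℕ) ∧ (i : ℕ) + k < n) → v i = 0 := Iff.rfl

end Isometries

end

end CF
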