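import Pool.Agent.CF.T01
import Pool.Agent.CF.E04

/-!
# MP_6c3636_al, CF, module T02: the special linear group is perfect or solvable (helper7)

`sl_perfect`: by `sl_gen` it is enough that every `tv i j c` is in `⁅SLg, SLg⁆` (the image of `commutator (SLg n F)` under the inclusion, `Subgroup.map_commutator`). `n ≥ 3`: choose `k ≠ i, j`; `tv i k c * tv k j 1 * (tv i k c)⁻¹ * (tv k j 1)⁻¹ = tv i j c`. `n = 2`, `2 < Nat.card F`: there is `a ≠ 0` with `a ^ 2 ≠ 1` (characteristic two: `a ≠ 0, 1`); the commutator of the diagonal matrix `(a, a⁻¹)` and `tv 0 1 b` is `tv 0 1 ((a ^ 2 - 1) b)` (see `Matrix.SpecialLinearGroup` `SL2.commutator_eq_top`: `commutator SL(2, F) = ⊤`; you may transport it along `SL(2, F) ≃* SLg 2 F`). `sl_small`: `n ≤ 1`: `SLg n F` is trivial. `n = 2`, `Nat.card F = 2`: `Nat.card (GL (Fin 2) F) = 6` (`Matrix.card_GL_field`), so `Nat.card (SLg 2 F)` divides `6`; it is `2 ^ a * 3 ^ b` with `a ≤ 1`: `solv_23` (E04). (Or apply `solv_23` to `GL (Fin 2) F` and pass to the subgroup.)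
-/

namespace CF

noncomputable section

open Classical Matrix

variable {n : ℕ} {F : Type} [Field F] [Finite F] [CharP F 2]

theorem T02_aux_comm {i j k : Fin n} (hik : i ≠ k) (hkj : k ≠ j) (hij : i ≠ j) (c : F) :
    tv i k c * tv k j 1 * (tv i k c)⁻¹ * (tv k j 1)⁻¹ = tv i j c := by
  rw [tv_inv hik, tv_inv hkj]
  apply mv_ext
  intro l
  have key : ∀ v : Fin n → F, mv (tv i k c * tv k j 1 * tv i k (-c) * tv k j (-1)) v = mv (tv i j c) v := by
    intro v
    rw [mv_mul, mv_mul, mv_mul, mv_tv hkj, mv_tv hik, mv_tv hkj, mv_tv hik, mv_tv hij]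
    funext x
    have e1 : sv (F := F) i k = 0 := by rw [sv, Pi.single_apply, if_neg hik.symm]
    have e2 : sv (F := F) i j = 0 := by rw [sv, Pi.single_apply, if_neg hij.symm]
    have e3 : sv (F := F) k j = 0 := by rw [sv, Pi.single_apply, if_neg hkj.symm]
    have e4 : sv (F := F) k k = 1 := by rw [sv, Pi.single_apply, if_pos rfl]
    simp only [Pi.add_apply, Pi.smul_apply, smul_eq_mul, e1, e2, e3, e4]
    ring
  exact key _

theorem T02_aux_three (h : 3 ≤ n) {i j : Fin n} (hij : i ≠ j) (c : F) :
    tv i j c ∈ ⁅SLg n F, SLg n F⁆ := by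
  obtain ⟨k, hk⟩ : ∃ k : Fin n, k ∉ ({i, j} : Finset (Fin n)) := by
    by_contra hc
    push Not at hc
    have h1 : (Finset.univ : Finset (Fin n)) ⊆ {i, j} := fun x _ => hc x
    have h2 := Finset.card_le_card h1
    rw [Finset.card_univ, Fintype.card_fin] at h2
    have h3 := Finset.card_le_two (a := i) (b := j)
    omega
  rw [Finset.mem_insert, Finset.mem_singleton, not_or] at hk
  rw [← T02_aux_comm (Ne.symm hk.1) hk.2 hij c]
  exact Subgroup.commutator_mem_commutator (tv_mem (Ne.symm hk.1) c) (tv_mem hk.2 1)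

theorem T02_aux_perf {X : Subgroup (GL (Fin n) F)} (hX : X = SLg n F)
    (h : ∀ i j : Fin n, i ≠ j → ∀ c : F, tv i j c ∈ ⁅X, X⁆) : commutator (SLg n F) = ⊤ := by
  subst hX
  rw [← Group.isPerfect_def, Subgroup.isPerfect_iff]
  refine le_antisymm ?_ (sl_gen _ h)
  rw [Subgroup.commutator_le]
  intro g1 h1 g2 h2
  exact (SLg n F).mul_mem ((SLg n F).mul_mem ((SLg n F).mul_mem h1 h2) ((SLg n F).inv_mem h1))
    ((SLg n F).inv_mem h2)

theorem sl_perfect (h : 3 ≤ n ∨ (n = 2 ∧ 2 < Nat.card F)) : commutator (SLg n F) = ⊤ := by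
  rcases h with h | ⟨h, hF⟩
  · exact T02_aux_perf rfl fun i j hij c => T02_aux_three h hij c
  · subst h
    obtain ⟨a, ha0, ha1⟩ : ∃ a : F, a ≠ 0 ∧ a ^ 2 ≠ 1 := by
      obtain ⟨_⟩ := nonempty_fintype F
      by_contra hc
      push Not at hc
      have h1 : (Finset.univ : Finset F) ⊆ {0, 1} := by
        intro x _
        rw [Finset.mem_insert, Finset.mem_singleton]
        by_cases hx : x = 0
        · exact Or.inl hx
        · right
          have h2 := hc x hx
          have h3 : (x - 1) * (x + 1) = 0 := by linear_combination h2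
          rcases mul_eq_zero.1 h3 with h4 | h4
          · exact sub_eq_zero.1 h4
          · have h5 : x = -1 := eq_neg_of_add_eq_zero_left h4
            rw [h5, CharTwo.neg_eq]
      have h2 := Finset.card_le_card h1
      have h3 := Finset.card_le_two (a := (0 : F)) (b := 1)
      rw [Finset.card_univ, ← Nat.card_eq_fintype_card] at h2
      omega
    have hP : Group.IsPerfect (Matrix.SpecialLinearGroup (Fin 2) F) :=
      ⟨Matrix.SL2.commutator_eq_top ha0 ha1⟩
    let f : Matrix.SpecialLinearGroup (Fin 2) F →* SLg 2 F :=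
      { toFun := fun g => ⟨Matrix.SpecialLinearGroup.toGL g, by
          rw [mem_SLg]
          exact g.2⟩
        map_one' := by
          apply Subtype.ext
          exact map_one _
        map_mul' := fun g h => by
          apply Subtype.ext
          exact map_mul _ _ _ }
    have hf : Function.Surjective f := by
      intro g
      refine ⟨⟨(g.1 : Matrix (Fin 2) (Fin 2) F), g.2⟩, ?_⟩
      apply Subtype.ext
      apply Units.ext
      rfl
    exact (Group.IsPerfect.ofSurjective hf).commutator_eq_top

theorem sl_small (h : n ≤ 1 ∨ (n = 2 ∧ ¬ 2 < Nat.card F)) : Group.IsSolvable (SLg n F) := by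
  rcases h with h | ⟨h, hF⟩
  · have hs : Subsingleton (SLg n F) := by
      constructor
      intro a b
      apply Subtype.ext
      apply Units.ext
      have ha := a.2
      have hb := b.2
      rw [mem_SLg] at ha hb
      have hn : n = 0 ∨ n = 1 := by omega
      rcases hn with rfl | rfl
      · ext i
        exact i.elim0
      · rw [Matrix.det_fin_one] at ha hb
        ext i j
        have hi : i = 0 := Subsingleton.elim _ _
        have hj : j = 0 := Subsingleton.elim _ _
        rw [hi, hj, ha, hb]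
    infer_instance
  · subst h
    obtain ⟨_⟩ := nonempty_fintype F
    have hc : Nat.card F = 2 := by
      have := Finite.one_lt_card (α := F)
      omega
    have hG : Nat.card (GL (Fin 2) F) = 6 := by
      rw [Matrix.card_GL_field, ← Nat.card_eq_fintype_card, hc, Fin.prod_univ_two]
      rfl
    have hd : Nat.card (SLg 2 F) ∣ 6 := by
      rw [← hG]
      exact Subgroup.card_subgroup_dvd_card _
    have hle := Nat.le_of_dvd (by norm_num) hd
    have hpos : 0 < Nat.card (SLg 2 F) := Nat.card_pos
    obtain ⟨a, b, ha, hab⟩ : ∃ a b : ℕ, a ≤ 3 ∧ Nat.card (SLg 2 F) = 2 ^ a * 3 ^ b := by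
      generalize Nat.card (SLg 2 F) = m at hd hle hpos
      interval_cases m
      · exact ⟨0, 0, by norm_num, by norm_num⟩
      · exact ⟨1, 0, by norm_num, by norm_num⟩
      · exact ⟨0, 1, by norm_num, by norm_num⟩
      · exact absurd hd (by norm_num)
      · exact absurd hd (by norm_num)
      · exact ⟨1, 1, by norm_num, by norm_num⟩
    exact solv_23 ha hab

end

end CF
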