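import Pool.Agent.CF.T01

/-!
# MP_6c3636_al, CF, module T04: blocks (helper7)

For `g ∈ St (Fl (k + m) k F)` one has `g i j = 0` for `j < k ≤ i` (`mv g (sv j) ∈ Fl`, `mv_sv`). The two diagonal blocks are multiplicative; `b1 g * b1 g⁻¹ = 1`. `up_of`: both blocks are `1`. `lift1`: it is enough to lift `tv i j c` (`sl_gen`; the set of the `A` with a lift is a subgroup by `hom1`, `hom2`): `tv (j1 i) (j1 j) c` (`j1 = Fin.castAdd m`, `j2 = Fin.natAdd k`). `lift2` in the same way.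
-/

namespace CF

noncomputable section

open Classical Matrix

variable {n : ℕ} {F : Type} [Field F] [Finite F] [CharP F 2]

/-- the first block -/
def b1 (k m : ℕ) (g : GL (Fin (k + m)) F) : Matrix (Fin k) (Fin k) F := fun i j =>
  (g : Matrix (Fin (k + m)) (Fin (k + m)) F) (Fin.castAdd m i) (Fin.castAdd m j)

/-- the second block -/
def b2 (k m : ℕ) (g : GL (Fin (k + m)) F) : Matrix (Fin m) (Fin m) F := fun i j =>
  (g : Matrix (Fin (k + m)) (Fin (k + m)) F) (Fin.natAdd k i) (Fin.natAdd k j)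

namespace T04_aux

omit [Finite F] [CharP F 2] in
theorem low_zero {k m : ℕ} {g : GL (Fin (k + m)) F} (hg : g ∈ St (Fl (k + m) k F)) (i : Fin m)
    (j : Fin k) : (g : Matrix (Fin (k + m)) (Fin (k + m)) F) (Fin.natAdd k i) (Fin.castAdd m j) = 0 := by
  have h1 : sv (F := F) (Fin.castAdd m j) ∈ Fl (k + m) k F := by
    rw [mem_Fl]
    intro l hl
    rw [sv, Pi.single_apply, if_neg]
    intro h
    rw [h, Fin.val_castAdd] at hl
    exact absurd j.2 (not_lt.2 hl)
  have h2 := (mem_St.1 hg _).2 h1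
  have h3 := mem_Fl.1 h2 (Fin.natAdd k i) (by rw [Fin.val_natAdd]; exact Nat.le_add_right _ _)
  rwa [mv_sv] at h3

omit [Finite F] [CharP F 2] in
theorem b1_mul {k m : ℕ} {g h : GL (Fin (k + m)) F} (hh : h ∈ St (Fl (k + m) k F)) :
    b1 k m (g * h) = b1 k m g * b1 k m h := by
  ext i j
  show ((g * h : GL (Fin (k + m)) F) : Matrix (Fin (k + m)) (Fin (k + m)) F) (Fin.castAdd m i)
    (Fin.castAdd m j) = _
  rw [Units.val_mul, Matrix.mul_apply, Fin.sum_univ_add, Matrix.mul_apply]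
  rw [Finset.sum_eq_zero (s := (Finset.univ : Finset (Fin m)))
    (fun l _ => by rw [low_zero hh l j, mul_zero]), add_zero]
  rfl

omit [Finite F] [CharP F 2] in
theorem b2_mul {k m : ℕ} {g h : GL (Fin (k + m)) F} (hg : g ∈ St (Fl (k + m) k F)) :
    b2 k m (g * h) = b2 k m g * b2 k m h := by
  ext i j
  show ((g * h : GL (Fin (k + m)) F) : Matrix (Fin (k + m)) (Fin (k + m)) F) (Fin.natAdd k i)
    (Fin.natAdd k j) = _
  rw [Units.val_mul, Matrix.mul_apply, Fin.sum_univ_add, Matrix.mul_apply]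
  rw [Finset.sum_eq_zero (s := (Finset.univ : Finset (Fin k)))
    (fun l _ => by rw [low_zero hg i l, zero_mul]), zero_add]
  rfl

omit [Finite F] [CharP F 2] in
theorem b1_one {k m : ℕ} : b1 k m (1 : GL (Fin (k + m)) F) = 1 := by
  ext i j
  show ((1 : GL (Fin (k + m)) F) : Matrix (Fin (k + m)) (Fin (k + m)) F) (Fin.castAdd m i)
    (Fin.castAdd m j) = _
  rw [Units.val_one, Matrix.one_apply, Matrix.one_apply]
  simp only [Fin.castAdd_inj]

omit [Finite F] [CharP F 2] in
theorem b2_one {k m : ℕ} : b2 k m (1 : GL (Fin (k + m)) F) = 1 := by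
  ext i j
  show ((1 : GL (Fin (k + m)) F) : Matrix (Fin (k + m)) (Fin (k + m)) F) (Fin.natAdd k i)
    (Fin.natAdd k j) = _
  rw [Units.val_one, Matrix.one_apply, Matrix.one_apply]
  simp only [Fin.natAdd_inj]

/-- block diagonal matrices -/
def jM {k m : ℕ} (A : Matrix (Fin k) (Fin k) F) (B : Matrix (Fin m) (Fin m) F) :
    Matrix (Fin (k + m)) (Fin (k + m)) F :=
  Matrix.reindex finSumFinEquiv finSumFinEquiv (Matrix.fromBlocks A 0 0 B)

omit [Finite F] [CharP F 2] in
theorem jM_mul {k m : ℕ} (A A' : Matrix (Fin k) (Fin k) F) (B B' : Matrix (Fin m) (Fin m) F) :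
    jM A B * jM A' B' = jM (A * A') (B * B') := by
  rw [jM, jM, jM, Matrix.reindex_apply, Matrix.reindex_apply, Matrix.reindex_apply,
    Matrix.submatrix_mul_equiv, Matrix.fromBlocks_multiply]
  simp only [Matrix.mul_zero, Matrix.zero_mul, add_zero, zero_add]

omit [Finite F] [CharP F 2] in
theorem jM_one {k m : ℕ} :
    jM (1 : Matrix (Fin k) (Fin k) F) (1 : Matrix (Fin m) (Fin m) F) = 1 := by
  rw [jM, Matrix.fromBlocks_one, Matrix.reindex_apply, Matrix.submatrix_one_equiv]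

/-- block diagonal matrices, invertible -/
def jj {k m : ℕ} (A : GL (Fin k) F) (B : GL (Fin m) F) : GL (Fin (k + m)) F :=
  ⟨jM (A : Matrix (Fin k) (Fin k) F) (B : Matrix (Fin m) (Fin m) F),
    jM ((A⁻¹ : GL (Fin k) F) : Matrix (Fin k) (Fin k) F) ((B⁻¹ : GL (Fin m) F) : Matrix (Fin m) (Fin m) F),
    by rw [jM_mul, Units.mul_inv, Units.mul_inv, jM_one],
    by rw [jM_mul, Units.inv_mul, Units.inv_mul, jM_one]⟩

omit [Finite F] [CharP F 2] in
theorem jj_coe {k m : ℕ} (A : GL (Fin k) F) (B : GL (Fin m) F) :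
    (jj A B : Matrix (Fin (k + m)) (Fin (k + m)) F) =
      jM (A : Matrix (Fin k) (Fin k) F) (B : Matrix (Fin m) (Fin m) F) := rfl

omit [Finite F] [CharP F 2] in
theorem jj_inv {k m : ℕ} (A : GL (Fin k) F) (B : GL (Fin m) F) : (jj A B)⁻¹ = jj A⁻¹ B⁻¹ := by
  apply Units.ext
  rfl

omit [Finite F] [CharP F 2] in
theorem jj_b1 {k m : ℕ} (A : GL (Fin k) F) (B : GL (Fin m) F) :
    b1 k m (jj A B) = (A : Matrix (Fin k) (Fin k) F) := by
  ext i j
  show jM (A : Matrix (Fin k) (Fin k) F) (B : Matrix (Fin m) (Fin m) F) (Fin.castAdd m i)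
    (Fin.castAdd m j) = _
  rw [jM, Matrix.reindex_apply, Matrix.submatrix_apply, finSumFinEquiv_symm_apply_castAdd,
    finSumFinEquiv_symm_apply_castAdd, Matrix.fromBlocks_apply₁₁]

omit [Finite F] [CharP F 2] in
theorem jj_b2 {k m : ℕ} (A : GL (Fin k) F) (B : GL (Fin m) F) :
    b2 k m (jj A B) = (B : Matrix (Fin m) (Fin m) F) := by
  ext i j
  show jM (A : Matrix (Fin k) (Fin k) F) (B : Matrix (Fin m) (Fin m) F) (Fin.natAdd k i)
    (Fin.natAdd k j) = _
  rw [jM, Matrix.reindex_apply, Matrix.submatrix_apply, finSumFinEquiv_symm_apply_natAdd,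
    finSumFinEquiv_symm_apply_natAdd, Matrix.fromBlocks_apply₂₂]

omit [Finite F] [CharP F 2] in
theorem jj_det {k m : ℕ} (A : GL (Fin k) F) (B : GL (Fin m) F) :
    (jj A B : Matrix (Fin (k + m)) (Fin (k + m)) F).det =
      (A : Matrix (Fin k) (Fin k) F).det * (B : Matrix (Fin m) (Fin m) F).det := by
  rw [jj_coe, jM, Matrix.det_reindex_self, Matrix.det_fromBlocks_zero₂₁]

omit [Finite F] [CharP F 2] in
theorem jj_fl {k m : ℕ} (A : GL (Fin k) F) (B : GL (Fin m) F) {v : Fin (k + m) → F}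
    (hv : v ∈ Fl (k + m) k F) : mv (jj A B) v ∈ Fl (k + m) k F := by
  rw [mem_Fl] at hv ⊢
  intro i
  refine Fin.addCases (fun i' => ?_) (fun i' => ?_) i
  · intro h
    rw [Fin.val_castAdd] at h
    exact absurd i'.2 (not_lt.2 h)
  · intro _
    rw [mv, Matrix.mulVec, dotProduct, Fin.sum_univ_add,
      Finset.sum_eq_zero (s := (Finset.univ : Finset (Fin k))),
      Finset.sum_eq_zero (s := (Finset.univ : Finset (Fin m))), add_zero]
    · intro l _
      rw [hv (Fin.natAdd k l) (by rw [Fin.val_natAdd]; exact Nat.le_add_right _ _), mul_zero]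
    · intro l _
      rw [jj_coe, jM, Matrix.reindex_apply, Matrix.submatrix_apply,
        finSumFinEquiv_symm_apply_natAdd, finSumFinEquiv_symm_apply_castAdd,
        Matrix.fromBlocks_apply₂₁, Matrix.zero_apply, zero_mul]

omit [Finite F] [CharP F 2] in
theorem jj_St {k m : ℕ} (A : GL (Fin k) F) (B : GL (Fin m) F) :
    jj A B ∈ St (Fl (k + m) k F) := by
  rw [mem_St]
  intro v
  refine ⟨fun h => ?_, fun h => jj_fl A B h⟩
  have h1 := jj_fl A⁻¹ B⁻¹ h
  rwa [← jj_inv, mv_inv] at h1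

omit [Finite F] [CharP F 2] in
theorem pow_zero_of {N : Matrix (Fin n) (Fin n) F} (hN : ∀ i j : Fin n, ¬ i < j → N i j = 0)
    (r : ℕ) : ∀ i j : Fin n, (N ^ r) i j ≠ 0 → (i : ℕ) + r ≤ j := by
  induction r with
  | zero =>
    intro i j h
    rw [pow_zero, Matrix.one_apply] at h
    split_ifs at h with h1
    · rw [h1, add_zero]
    · exact absurd rfl h
  | succ r ih =>
    intro i j h
    rw [pow_succ, Matrix.mul_apply] at h
    obtain ⟨l, _, hl⟩ := Finset.exists_ne_zero_of_sum_ne_zero h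
    have h1 := ih i l (left_ne_zero_of_mul hl)
    have h2 : l < j := by
      by_contra h3
      exact right_ne_zero_of_mul hl (hN l j h3)
    have h3 : (l : ℕ) < j := h2
    omega

omit [Finite F] in
theorem add_self_zero (N : Matrix (Fin n) (Fin n) F) : N + N = 0 := by
  ext i j
  rw [Matrix.add_apply, Matrix.zero_apply, CharTwo.add_self_eq_zero]

omit [Finite F] in
theorem one_add_pow (N : Matrix (Fin n) (Fin n) F) (k : ℕ) :
    (1 + N) ^ (2 ^ k) = 1 + N ^ (2 ^ k) := by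
  induction k with
  | zero => rw [pow_zero, pow_one, pow_one]
  | succ k ih =>
    rw [pow_succ, pow_mul, ih, pow_mul, sq, add_mul, mul_add, mul_add, one_mul, one_mul, mul_one,
      ← sq, ← add_assoc, add_assoc (1 : Matrix (Fin n) (Fin n) F), add_self_zero, add_zero]

end T04_aux

open T04_aux

theorem hom1 (k m : ℕ) : ∃ φ : St (Fl (k + m) k F) →* GL (Fin k) F,
    ∀ g : St (Fl (k + m) k F), (φ g : Matrix (Fin k) (Fin k) F) = b1 k m g := by
  let f : St (Fl (k + m) k F) →* Matrix (Fin k) (Fin k) F :=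
    { toFun := fun g => b1 k m (g : GL (Fin (k + m)) F)
      map_one' := b1_one
      map_mul' := fun g h => b1_mul h.2 }
  exact ⟨f.toHomUnits, fun g => rfl⟩

theorem hom2 (k m : ℕ) : ∃ ψ : St (Fl (k + m) k F) →* GL (Fin m) F,
    ∀ g : St (Fl (k + m) k F), (ψ g : Matrix (Fin m) (Fin m) F) = b2 k m g := by
  let f : St (Fl (k + m) k F) →* Matrix (Fin m) (Fin m) F :=
    { toFun := fun g => b2 k m (g : GL (Fin (k + m)) F)
      map_one' := b2_one
      map_mul' := fun g h => b2_mul g.2 }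
  exact ⟨f.toHomUnits, fun g => rfl⟩

theorem lift1 {k m : ℕ} {A : GL (Fin k) F} (hA : A ∈ SLg k F) :
    ∃ g ∈ SLg (k + m) F ⊓ St (Fl (k + m) k F), b1 k m g = (A : Matrix (Fin k) (Fin k) F) := by
  refine ⟨jj A 1, ⟨?_, jj_St A 1⟩, jj_b1 A 1⟩
  show ((jj A (1 : GL (Fin m) F) : GL (Fin (k + m)) F) : Matrix (Fin (k + m)) (Fin (k + m)) F).det = 1
  rw [jj_det, mem_SLg.1 hA, Units.val_one, Matrix.det_one, one_mul]

theorem lift2 {k m : ℕ} {B : GL (Fin m) F} (hB : B ∈ SLg m F) :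
    ∃ g ∈ SLg (k + m) F ⊓ St (Fl (k + m) k F), b1 k m g = 1 ∧
      b2 k m g = (B : Matrix (Fin m) (Fin m) F) := by
  refine ⟨jj 1 B, ⟨?_, jj_St 1 B⟩, ?_, jj_b2 1 B⟩
  · show ((jj (1 : GL (Fin k) F) B : GL (Fin (k + m)) F) : Matrix (Fin (k + m)) (Fin (k + m)) F).det = 1
    rw [jj_det, mem_SLg.1 hB, Units.val_one, Matrix.det_one, one_mul]
  · rw [jj_b1, Units.val_one]

theorem up_of {k m : ℕ} {g : GL (Fin (k + m)) F} (hg : g ∈ St (Fl (k + m) k F))
    (h1 : b1 k m g = 1) (h2 : b2 k m g = 1) : g ∈ Up (k + m) F := by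
  rw [mem_Up]
  intro i j
  refine Fin.addCases (fun i' => ?_) (fun i' => ?_) i
  · refine Fin.addCases (fun j' => ?_) (fun j' => ?_) j
    · intro _
      have h3 : (g : Matrix (Fin (k + m)) (Fin (k + m)) F) (Fin.castAdd m i') (Fin.castAdd m j') =
          (1 : Matrix (Fin k) (Fin k) F) i' j' := congrFun (congrFun h1 i') j'
      rw [h3, Matrix.one_apply, Matrix.one_apply]
      simp only [Fin.castAdd_inj]
    · intro h
      exfalso
      apply h
      rw [Fin.lt_def, Fin.val_castAdd, Fin.val_natAdd]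
      exact lt_of_lt_of_le i'.2 (Nat.le_add_right _ _)
  · refine Fin.addCases (fun j' => ?_) (fun j' => ?_) j
    · intro _
      rw [low_zero hg, Matrix.one_apply, if_neg]
      intro h
      have h3 := congrArg Fin.val h
      rw [Fin.val_castAdd, Fin.val_natAdd] at h3
      have h4 := j'.2
      omega
    · intro _
      have h3 : (g : Matrix (Fin (k + m)) (Fin (k + m)) F) (Fin.natAdd k i') (Fin.natAdd k j') =
          (1 : Matrix (Fin m) (Fin m) F) i' j' := congrFun (congrFun h2 i') j'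
      rw [h3, Matrix.one_apply, Matrix.one_apply]
      simp only [Fin.natAdd_inj]

theorem Up_two {u : GL (Fin n) F} (hu : u ∈ Up n F) : ∃ k : ℕ, u ^ (2 ^ k) = 1 := by
  refine ⟨n, ?_⟩
  apply Units.ext
  rw [Units.val_pow_eq_pow_val, Units.val_one]
  set N : Matrix (Fin n) (Fin n) F := (u : Matrix (Fin n) (Fin n) F) - 1 with hNdef
  have hN : ∀ i j : Fin n, ¬ i < j → N i j = 0 := by
    intro i j h
    rw [hNdef, Matrix.sub_apply, mem_Up.1 hu i j h, sub_self]
  have h1 : (u : Matrix (Fin n) (Fin n) F) = 1 + N := by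
    rw [hNdef, add_sub_cancel]
  have h2 : N ^ (2 ^ n) = 0 := by
    ext i j
    rw [Matrix.zero_apply]
    by_contra h3
    have h4 := pow_zero_of hN (2 ^ n) i j h3
    have h5 : n < 2 ^ n := Nat.lt_two_pow_self
    have h6 := j.2
    omega
  rw [h1, one_add_pow, h2, add_zero]

end

end CF
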