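import Pool.Agent.CF.Defs

/-!
# MP_6c3636_al, CF, module W01: the form (helper7)

`fm σ v w = ∑ i, σ (v (rev i)) * w i` is `σ`-linear in `v` and linear in `w`. `fm_swap`: apply `σ` and reindex with `Fin.rev`. `fm_nd`: `w = sv i`. `mem_Ug`: `Ug n σ = LieP.UG σ Fin.revPerm` is defined by `adj σ revPerm g * g = 1`, i.e. `∑ k, σ (g (rev k) (rev i)) * g k j = δ_ij`, i.e. `fm (g e_(rev i)) (g e_j) = fm e_(rev i) e_j`; use bilinearity (`v = ∑ v i • sv i`) for the general statement. `fm_self`: if `σ = 1` and `n` is even, the sum `∑ v (rev i) * v i` is invariant under the fixed point free involution `rev`, so it is `0` in characteristic two (`Finset.sum_involution`). `exists_tr`: if `σ = 1`, `l = 0`; otherwise choose `x` with `σ x ≠ x`, `t = x + σ x ≠ 0`, `σ t = t`, `l = x * y * t⁻¹`.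
-/

namespace CF

noncomputable section

open Classical Matrix

variable {n : ℕ} {F : Type} [Field F] [Finite F] [CharP F 2]

theorem fm_add_left (σ : F ≃+* F) (u v w : Fin n → F) : fm σ (u + v) w = fm σ u w + fm σ v w := by
  unfold fm
  rw [← Finset.sum_add_distrib]
  refine Finset.sum_congr rfl fun i _ => ?_
  rw [Pi.add_apply, map_add, add_mul]

theorem fm_add_right (σ : F ≃+* F) (u v w : Fin n → F) : fm σ u (v + w) = fm σ u v + fm σ u w := by
  unfold fm
  rw [← Finset.sum_add_distrib]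
  refine Finset.sum_congr rfl fun i _ => ?_
  rw [Pi.add_apply, mul_add]

theorem fm_smul_left (σ : F ≃+* F) (c : F) (v w : Fin n → F) : fm σ (c • v) w = σ c * fm σ v w := by
  unfold fm
  rw [Finset.mul_sum]
  refine Finset.sum_congr rfl fun i _ => ?_
  rw [Pi.smul_apply, smul_eq_mul, map_mul, mul_assoc]

theorem fm_smul_right (σ : F ≃+* F) (c : F) (v w : Fin n → F) : fm σ v (c • w) = c * fm σ v w := by
  unfold fm
  rw [Finset.mul_sum]
  refine Finset.sum_congr rfl fun i _ => ?_
  rw [Pi.smul_apply, smul_eq_mul]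
  ring

theorem fm_zero_left (σ : F ≃+* F) (w : Fin n → F) : fm σ 0 w = 0 := by
  unfold fm
  refine Finset.sum_eq_zero fun i _ => ?_
  rw [Pi.zero_apply, map_zero, zero_mul]

theorem fm_zero_right (σ : F ≃+* F) (v : Fin n → F) : fm σ v 0 = 0 := by
  unfold fm
  refine Finset.sum_eq_zero fun i _ => ?_
  rw [Pi.zero_apply, mul_zero]

theorem fm_swap {σ : F ≃+* F} (hσ : ∀ x, σ (σ x) = x) (v w : Fin n → F) :
    σ (fm σ v w) = fm σ w v := by
  unfold fm
  rw [map_sum, ← Equiv.sum_comp Fin.revPerm]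
  refine Finset.sum_congr rfl fun i _ => ?_
  rw [Fin.revPerm_apply, map_mul, hσ, Fin.rev_rev, mul_comm]

theorem fm_sv_left (σ : F ≃+* F) (i : Fin n) (w : Fin n → F) : fm σ (sv i) w = w (Fin.rev i) := by
  unfold fm sv
  rw [Finset.sum_eq_single (Fin.rev i)]
  · rw [Fin.rev_rev, Pi.single_eq_same, map_one, one_mul]
  · intro k _ hk
    have h1 : Fin.rev k ≠ i := fun h => hk (by rw [← h, Fin.rev_rev])
    rw [Pi.single_eq_of_ne h1, map_zero, zero_mul]
  · intro h
    exact absurd (Finset.mem_univ _) h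

theorem fm_sv_right (σ : F ≃+* F) (v : Fin n → F) (i : Fin n) :
    fm σ v (sv i) = σ (v (Fin.rev i)) := by
  unfold fm sv
  rw [Finset.sum_eq_single i]
  · rw [Pi.single_eq_same, mul_one]
  · intro k _ hk
    rw [Pi.single_eq_of_ne hk, mul_zero]
  · intro h
    exact absurd (Finset.mem_univ _) h

theorem fm_nd {σ : F ≃+* F} {v : Fin n → F} (h : ∀ w, fm σ v w = 0) : v = 0 := by
  funext i
  have h1 := h (sv (Fin.rev i))
  rw [fm_sv_right, Fin.rev_rev] at h1
  exact (map_eq_zero_iff σ σ.injective).1 h1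

theorem mem_Ug {σ : F ≃+* F} {g : GL (Fin n) F} :
    g ∈ Ug n σ ↔ ∀ v w, fm σ (mv g v) (mv g w) = fm σ v w := by
  have key : ∀ v w, fm σ (mv g v) (mv g w) =
      dotProduct (vecMul (fun i => σ (v (Fin.rev i)))
        (LieP.adj σ Fin.revPerm (g : Matrix (Fin n) (Fin n) F) * (g : Matrix (Fin n) (Fin n) F))) w := by
    intro v w
    have h1 : (fun k => σ (mv g v (Fin.rev k))) =
        vecMul (fun i => σ (v (Fin.rev i))) (LieP.adj σ Fin.revPerm (g : Matrix (Fin n) (Fin n) F)) := by
      funext k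
      show σ (∑ a, (g : Matrix (Fin n) (Fin n) F) (Fin.rev k) a * v a) =
        ∑ i, σ (v (Fin.rev i)) * σ ((g : Matrix (Fin n) (Fin n) F) (Fin.rev k) (Fin.rev i))
      rw [map_sum, ← Equiv.sum_comp Fin.revPerm]
      refine Finset.sum_congr rfl fun i _ => ?_
      rw [Fin.revPerm_apply, map_mul, mul_comm]
    have h2 : fm σ (mv g v) (mv g w) = dotProduct (fun k => σ (mv g v (Fin.rev k))) (mv g w) := rfl
    rw [h2, h1, mv, Matrix.dotProduct_mulVec, Matrix.vecMul_vecMul]
  have hid : ∀ v w : Fin n → F, fm σ v w = dotProduct (fun i => σ (v (Fin.rev i))) w := fun v w => rfl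
  constructor
  · intro hg v w
    have h1 : LieP.adj σ Fin.revPerm (g : Matrix (Fin n) (Fin n) F) * (g : Matrix (Fin n) (Fin n) F) = 1 := hg
    rw [key, h1, Matrix.vecMul_one, hid]
  · intro h
    show LieP.adj σ Fin.revPerm (g : Matrix (Fin n) (Fin n) F) * (g : Matrix (Fin n) (Fin n) F) = 1
    ext i j
    have h1 := h (sv (Fin.rev i)) (sv j)
    rw [key, hid] at h1
    have h2 : (fun k => σ ((sv (Fin.rev i) : Fin n → F) (Fin.rev k))) = Pi.single i 1 := by
      funext k
      unfold sv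
      by_cases hk : k = i
      · rw [hk, Pi.single_eq_same, Pi.single_eq_same, map_one]
      · rw [Pi.single_eq_of_ne hk, Pi.single_eq_of_ne (fun h' => hk (Fin.rev_injective h')), map_zero]
    rw [h2, Matrix.single_one_vecMul] at h1
    unfold sv at h1
    rw [dotProduct_single_one, dotProduct_single_one] at h1
    rw [Matrix.one_apply]
    rw [Pi.single_apply] at h1
    rw [show (LieP.adj σ Fin.revPerm (g : Matrix (Fin n) (Fin n) F) * (g : Matrix (Fin n) (Fin n) F)) i j =
      if j = i then 1 else 0 from h1]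
    by_cases hij : i = j
    · rw [if_pos hij, if_pos hij.symm]
    · rw [if_neg hij, if_neg (fun h' => hij h'.symm)]

theorem fm_self {σ : F ≃+* F} (hH : Hy n σ) (h1 : ∀ x, σ x = x) (v : Fin n → F) :
    fm σ v v = 0 := by
  have hn := (hH.id h1).1
  unfold fm
  refine Finset.sum_involution (fun a _ => Fin.rev a) ?_ ?_ ?_ ?_
  · intro a _
    rw [h1, h1, Fin.rev_rev, mul_comm (v a)]
    exact CharTwo.add_self_eq_zero _
  · intro a _ _ hcon
    have h2 : (Fin.rev a : ℕ) = a := by rw [hcon]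
    rw [Fin.val_rev] at h2
    obtain ⟨k, hk⟩ := hn
    have := a.2
    omega
  · intro a _
    exact Finset.mem_univ _
  · intro a _
    exact Fin.rev_rev a

theorem exists_tr {σ : F ≃+* F} (hσ : ∀ x, σ (σ x) = x) {y : F} (hy : σ y = y)
    (h0 : (∀ x, σ x = x) → y = 0) : ∃ l, l + σ l = y := by
  by_cases h1 : ∀ x, σ x = x
  · refine ⟨0, ?_⟩
    rw [map_zero, add_zero, h0 h1]
  · push Not at h1
    obtain ⟨x, hx⟩ := h1
    have ht : x + σ x ≠ 0 := by
      intro h
      apply hx
      have h2 : x = -σ x := eq_neg_of_add_eq_zero_left h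
      rw [CharTwo.neg_eq] at h2
      exact h2.symm
    refine ⟨x * y * (x + σ x)⁻¹, ?_⟩
    rw [map_mul, map_mul, hy, map_inv₀, map_add, hσ, add_comm (σ x) x]
    field_simp

end

end CF
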