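import Pool.Agent.CF.W01

/-!
# MP_6c3636_al, CF, module W02: Eichler elements (helper7)

`eiM σ v a z` is the matrix of `x ↦ x + fm v x • a + fm a x • v + (z * fm v x) • v` (`fm σ v x = ∑ j, σ (v (rev j)) * x j`). For `Adm σ v a z`, `Adm σ v b w` compute (characteristic two, `fm v v = fm v a = fm a v = fm v b = fm b v = 0`): with `y = E(b, w) x` one has `fm v y = fm v x`, `fm a y = fm a x + fm a b * fm v x`, so `E(a, z) y = x + fm v x • (a + b) + fm (a + b) x • v + ((z + w + fm a b) * fm v x) • v`. So `eiM v a z * eiM v b w = eiM v (a + b) (z + w + fm a b)`; for `b = a`, `w = σ z` this is `eiM v 0 0 = 1` because `z + σ z + fm a a = 0` (`Adm σ v a (σ z)` holds too). This gives `ei_coe` and `ei_mul`. `adm_mul`: `σ (fm a b) = fm b a` (`fm_swap`). `ei_mem`: `fm (E x) (E y) = fm x y`: all terms cancel in pairs, the remaining one is `fm x v * fm v y * (z + σ z + fm a a) = 0` (with `fm x v = σ (fm v x)`). `ei_conj`: apply both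 sides to a vector, `fm (g v) x = fm v (g⁻¹ x)` for `g ∈ Ug` (`mem_Ug`), `mv_ext`.
-/

namespace CF

noncomputable section

open Classical Matrix

variable {n : ℕ} {F : Type} [Field F] [Finite F] [CharP F 2]

private theorem two_zero : (2 : F) = 0 := CharTwo.two_eq_zero

omit [Finite F] [CharP F 2] in
private theorem eiM_mulVec (σ : F ≃+* F) (v a : Fin n → F) (z : F) (x : Fin n → F) :
    (eiM σ v a z).mulVec x = x + fm σ v x • a + fm σ a x • v + (z * fm σ v x) • v := by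
  funext i
  simp only [Matrix.mulVec, dotProduct, eiM, Pi.add_apply, Pi.smul_apply, smul_eq_mul, fm]
  have h1 : ∑ j, (1 : Matrix (Fin n) (Fin n) F) i j * x j = x i := by
    have := congrFun (Matrix.one_mulVec x) i
    simpa [Matrix.mulVec, dotProduct] using this
  have h2 : ∀ j, ((1 : Matrix (Fin n) (Fin n) F) i j + a i * σ (v (Fin.rev j)) +
      v i * σ (a (Fin.rev j)) + z * v i * σ (v (Fin.rev j))) * x j =
      (1 : Matrix (Fin n) (Fin n) F) i j * x j + a i * (σ (v (Fin.rev j)) * x j) +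
      v i * (σ (a (Fin.rev j)) * x j) + z * v i * (σ (v (Fin.rev j)) * x j) := by
    intro j
    ring
  simp only [h2, Finset.sum_add_distrib, h1, ← Finset.mul_sum]
  ring

private theorem fm_sw0 {σ : F ≃+* F} (hσ : ∀ x, σ (σ x) = x) {v a : Fin n → F}
    (h : fm σ v a = 0) : fm σ a v = 0 := by
  rw [← fm_swap hσ, h, map_zero]

private theorem eiM_mul {σ : F ≃+* F} (hσ : ∀ x, σ (σ x) = x) {v a b : Fin n → F} (z w : F)
    (h1 : fm σ v v = 0) (h2 : fm σ v a = 0) (h3 : fm σ v b = 0) :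
    eiM σ v a z * eiM σ v b w = eiM σ v (a + b) (z + w + fm σ a b) := by
  apply Matrix.mulVec_injective
  funext x
  have h4 := fm_sw0 hσ h2
  rw [← Matrix.mulVec_mulVec, eiM_mulVec, eiM_mulVec, eiM_mulVec]
  simp only [fm_add_left, fm_add_right, fm_smul_right, h1, h2, h3, h4, mul_zero, add_zero]
  funext i
  simp only [Pi.add_apply, Pi.smul_apply, smul_eq_mul]
  ring

omit [Finite F] in
private theorem eiM_zero (σ : F ≃+* F) (v : Fin n → F) : eiM σ v 0 0 = 1 := by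
  funext i j
  simp [eiM]

private theorem eiM_inv {σ : F ≃+* F} (hσ : ∀ x, σ (σ x) = x) {v a : Fin n → F} {z : F}
    (h : Adm σ v a z) : eiM σ v a z * eiM σ v a (σ z) = 1 := by
  rw [eiM_mul hσ z (σ z) h.iso h.perp h.perp, h.tr, ← eiM_zero σ v]
  congr 1
  · funext i
    simpa using CharTwo.add_self_eq_zero (a i)
  · exact CharTwo.add_self_eq_zero _

theorem adm_star {σ : F ≃+* F} (hσ : ∀ x, σ (σ x) = x) {v a : Fin n → F} {z : F}
    (h : Adm σ v a z) : Adm σ v a (σ z) := by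
  refine ⟨h.iso, h.perp, ?_⟩
  rw [hσ, add_comm, h.tr]

theorem ei_coe {σ : F ≃+* F} (hσ : ∀ x, σ (σ x) = x) {v a : Fin n → F} {z : F}
    (h : Adm σ v a z) : (ei σ v a z : Matrix (Fin n) (Fin n) F) = eiM σ v a z := by
  have h1 : eiM σ v a z * eiM σ v a (σ z) = 1 := eiM_inv hσ h
  have h2 : eiM σ v a (σ z) * eiM σ v a z = 1 := by
    have := eiM_inv hσ (adm_star hσ h)
    rwa [hσ] at this
  rw [ei, dif_pos ⟨h1, h2⟩]

theorem mv_ei {σ : F ≃+* F} (hσ : ∀ x, σ (σ x) = x) {v a : Fin n → F} {z : F}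
    (h : Adm σ v a z) (x : Fin n → F) :
    mv (ei σ v a z) x = x + fm σ v x • a + fm σ a x • v + (z * fm σ v x) • v := by
  rw [mv, ei_coe hσ h, eiM_mulVec]

theorem ei_mem {σ : F ≃+* F} (hσ : ∀ x, σ (σ x) = x) {v a : Fin n → F} {z : F}
    (h : Adm σ v a z) : ei σ v a z ∈ Ug n σ := by
  rw [mem_Ug]
  intro x y
  have h1 := h.iso
  have h2 := h.perp
  have h3 := fm_sw0 hσ h2
  have h4 : fm σ x a = σ (fm σ a x) := (fm_swap hσ a x).symm
  have h5 : fm σ x v = σ (fm σ v x) := (fm_swap hσ v x).symm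
  have h6 := h.tr
  have h7 : (2 : F) = 0 := two_zero
  rw [mv_ei hσ h, mv_ei hσ h]
  simp only [fm_add_left, fm_add_right, fm_smul_left, fm_smul_right, h1, h2, h3, h4, h5, ← h6,
    mul_zero, add_zero, map_mul]
  linear_combination (σ (fm σ a x) * fm σ v y + σ (fm σ v x) * fm σ a y +
    σ (fm σ v x) * fm σ v y * (z + σ z)) * h7

theorem ei_mem_EG {σ : F ≃+* F} {v a : Fin n → F} {z : F} (h : Adm σ v a z) :
    ei σ v a z ∈ EG n σ :=
  Subgroup.subset_closure ⟨v, a, z, h, rfl⟩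

theorem EG_le {σ : F ≃+* F} (hσ : ∀ x, σ (σ x) = x) : EG n σ ≤ Ug n σ := by
  refine (Subgroup.closure_le _).2 ?_
  rintro g ⟨v, a, z, h, rfl⟩
  exact ei_mem hσ h

theorem adm_mul {σ : F ≃+* F} (hσ : ∀ x, σ (σ x) = x) {v a b : Fin n → F} {z w : F}
    (h : Adm σ v a z) (h' : Adm σ v b w) : Adm σ v (a + b) (z + w + fm σ a b) := by
  refine ⟨h.iso, ?_, ?_⟩
  · rw [fm_add_right, h.perp, h'.perp, add_zero]
  · rw [map_add, map_add, fm_swap hσ, fm_add_left, fm_add_right, fm_add_right, ← h.tr, ← h'.tr]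
    ring

theorem ei_mul {σ : F ≃+* F} (hσ : ∀ x, σ (σ x) = x) {v a b : Fin n → F} {z w : F}
    (h : Adm σ v a z) (h' : Adm σ v b w) :
    ei σ v a z * ei σ v b w = ei σ v (a + b) (z + w + fm σ a b) := by
  apply Units.ext
  rw [Units.val_mul, ei_coe hσ h, ei_coe hσ h', ei_coe hσ (adm_mul hσ h h'),
    eiM_mul hσ z w h.iso h.perp h'.perp]

theorem ei_inv {σ : F ≃+* F} (hσ : ∀ x, σ (σ x) = x) {v a : Fin n → F} {z : F}
    (h : Adm σ v a z) : (ei σ v a z)⁻¹ = ei σ v a (σ z) := by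
  rw [inv_eq_iff_mul_eq_one]
  apply Units.ext
  rw [Units.val_mul, ei_coe hσ h, ei_coe hσ (adm_star hσ h), Units.val_one]
  exact eiM_inv hσ h

theorem adm_conj {σ : F ≃+* F} {v a : Fin n → F} {z : F} {g : GL (Fin n) F} (hg : g ∈ Ug n σ)
    (h : Adm σ v a z) : Adm σ (mv g v) (mv g a) z := by
  rw [mem_Ug] at hg
  refine ⟨?_, ?_, ?_⟩
  · rw [hg, h.iso]
  · rw [hg, h.perp]
  · rw [hg, h.tr]

theorem ei_conj {σ : F ≃+* F} (hσ : ∀ x, σ (σ x) = x) {v a : Fin n → F} {z : F}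
    {g : GL (Fin n) F} (hg : g ∈ Ug n σ) (h : Adm σ v a z) :
    g * ei σ v a z * g⁻¹ = ei σ (mv g v) (mv g a) z := by
  have hg' := mem_Ug.1 hg
  refine mv_ext fun j => ?_
  have h1 : ∀ u : Fin n → F, fm σ (mv g u) (sv j) = fm σ u (mv g⁻¹ (sv j)) := by
    intro u
    rw [← hg' u (mv g⁻¹ (sv j)), mv_inv']
  rw [mv_mul, mv_mul, mv_ei hσ h, mv_ei hσ (adm_conj hg h), h1, h1, mv_add, mv_add, mv_add,
    mv_smul, mv_smul, mv_smul, mv_inv']

end

end CF
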