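import Pool.Agent.CF.W02

/-!
# MP_6c3636_al, CF, module W04: transitivity (helper7)

`ei_move`: let `c = fm v w = fm v w'`, `a = c⁻¹ • (w + w')`, `z = (c * σ c)⁻¹ * fm w' w`. `fm v a = 0`. `fm a a = (c * σ c)⁻¹ * (fm w' w + fm w w')` (the other two terms vanish) `= z + σ z`. `ei v a z` maps `w` to `w + c • a + (fm a w + z * c) • v`, `c • a = w + w'`, `fm a w = (σ c)⁻¹ * fm w' w = z * c` (characteristic two). `ei_fix` is immediate from `mv_ei`.
`exists_third`: (1) if `q = c • p`: choose `i` with `p i ≠ 0`, `s = sv (rev i)` (in `Wk`), `t = fm s p = p i ≠ 0`, `r = s + l • p` where `l * t` is a solution `y` of `y + σ y = fm s s` (`exists_tr`; `fm s s` is fixed by `σ`, and `0` if `σ = 1`, `fm_self`); `fm r r = fm s s + l * t + σ (l * t) = 0`, `fm r p = t`. (2) If `fm p q ≠ 0`: `r = p + c • q`, `c = (fm p q)⁻¹`: `fm r r = 1 + σ 1 = 0`, `fm r p = σ (c * fm p q) = 1`, `fm r q = fm p q`. (3) If `p, q` are linearly independent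 and `fm p q = 0`: choose `i`, `j` with `p i * q j ≠ p j * q i`; a suitable combination `s` of `sv (rev i)`, `sv (rev j)` satisfies `fm s p = 1 = fm s q`; `r = s + l • p` with `l + σ l = fm s s`.
-/

namespace CF

noncomputable section

open Classical Matrix

variable {n : ℕ} {F : Type} [Field F] [Finite F] [CharP F 2]

theorem ei_move {σ : F ≃+* F} (hσ : ∀ x, σ (σ x) = x) {v w w' : Fin n → F} (hv : fm σ v v = 0)
    (hw : fm σ w w = 0) (hw' : fm σ w' w' = 0) (h : fm σ v w = fm σ v w') (h0 : fm σ v w ≠ 0) :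
    ∃ (a : Fin n → F) (z : F), Adm σ v a z ∧ mv (ei σ v a z) w = w' ∧ ∃ c : F, a = c • (w + w') := by
  obtain ⟨c, hc⟩ : ∃ c, c = fm σ v w := ⟨_, rfl⟩
  have hc0 : c ≠ 0 := by rw [hc]; exact h0
  have hsc0 : σ c ≠ 0 := (map_ne_zero σ).2 hc0
  have hsw : σ (fm σ w' w) = fm σ w w' := fm_swap hσ w' w
  obtain ⟨b, hb⟩ : ∃ b, b = fm σ w' w := ⟨_, rfl⟩
  rw [← hb] at hsw
  have hadm : Adm σ v (c⁻¹ • (w + w')) ((c * σ c)⁻¹ * b) := by
    refine ⟨hv, ?_, ?_⟩
    · rw [fm_smul_right, fm_add_right, ← h, CharTwo.add_self_eq_zero, mul_zero]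
    · rw [fm_smul_left, fm_smul_right, fm_add_left, fm_add_right, fm_add_right, hw, hw', ← hb, ← hsw,
        map_mul, map_inv₀, map_inv₀, map_mul, hσ, mul_comm (σ c) c, mul_inv, zero_add, add_zero]
      ring
  refine ⟨c⁻¹ • (w + w'), (c * σ c)⁻¹ * b, hadm, ?_, c⁻¹, rfl⟩
  rw [mv_ei hσ hadm, ← hc, smul_smul, mul_inv_cancel₀ hc0, one_smul, fm_smul_left, fm_add_left, hw, ← hb,
    zero_add, map_inv₀, add_assoc, ← add_smul]
  have e : (σ c)⁻¹ * b + (c * σ c)⁻¹ * b * c = 0 := by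
    have e1 : (c * σ c)⁻¹ * b * c = (σ c)⁻¹ * b := by
      field_simp
    rw [e1, CharTwo.add_self_eq_zero]
  rw [e, zero_smul, add_zero]
  funext i
  show w i + (w i + w' i) = w' i
  rw [← add_assoc, CharTwo.add_self_eq_zero, zero_add]

theorem ei_fix {σ : F ≃+* F} (hσ : ∀ x, σ (σ x) = x) {v a x : Fin n → F} {z : F}
    (h : Adm σ v a z) (h1 : fm σ v x = 0) (h2 : fm σ a x = 0) : mv (ei σ v a z) x = x := by
  rw [mv_ei hσ h, h1, h2, zero_smul, zero_smul, mul_zero, zero_smul, add_zero, add_zero, add_zero]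

namespace W04_aux

theorem sv_mem {k : ℕ} {p : Fin n → F} (hp : p ∈ Wk n k F) {i : Fin n} (hi : p i ≠ 0) :
    sv (Fin.rev i) ∈ Wk n k F := by
  have h1 : k ≤ (i : ℕ) ∧ (i : ℕ) + k < n := by
    by_contra h
    exact hi (hp i h)
  intro j hj
  have hne : j ≠ Fin.rev i := by
    rintro rfl
    apply hj
    rw [Fin.val_rev]
    omega
  exact Pi.single_eq_of_ne hne 1

theorem fm_sv (σ : F ≃+* F) (i : Fin n) (p : Fin n → F) : fm σ (sv (Fin.rev i)) p = p i := by
  rw [fm_sv_left, Fin.rev_rev]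

theorem exists_ne {p : Fin n → F} (h : p ≠ 0) : ∃ i, p i ≠ 0 := by
  by_contra hn
  push Not at hn
  exact h (funext hn)

theorem exists_s (σ : F ≃+* F) {k : ℕ} {p q : Fin n → F}
    (hp : p ∈ Wk n k F) (hq : q ∈ Wk n k F) (hp0 : p ≠ 0) (hq0 : q ≠ 0) :
    ∃ s ∈ Wk n k F, fm σ s p ≠ 0 ∧ fm σ s q ≠ 0 := by
  obtain ⟨i, hi⟩ := exists_ne hp0
  obtain ⟨j, hj⟩ := exists_ne hq0
  by_cases h1 : q i = 0
  · by_cases h2 : p j = 0
    · refine ⟨sv (Fin.rev i) + sv (Fin.rev j), Submodule.add_mem _ (sv_mem hp hi) (sv_mem hq hj), ?_, ?_⟩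
      · rw [fm_add_left, fm_sv, fm_sv, h2, add_zero]
        exact hi
      · rw [fm_add_left, fm_sv, fm_sv, h1, zero_add]
        exact hj
    · refine ⟨sv (Fin.rev j), sv_mem hq hj, ?_, ?_⟩
      · rw [fm_sv]
        exact h2
      · rw [fm_sv]
        exact hj
  · refine ⟨sv (Fin.rev i), sv_mem hp hi, ?_, ?_⟩
    · rw [fm_sv]
      exact hi
    · rw [fm_sv]
      exact h1

end W04_aux

theorem exists_third {σ : F ≃+* F} (hH : Hy n σ) {k : ℕ} {p q : Fin n → F}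
    (hp : p ∈ Wk n k F) (hq : q ∈ Wk n k F) (hp0 : p ≠ 0) (hq0 : q ≠ 0) (hpp : fm σ p p = 0)
    (hqq : fm σ q q = 0) :
    ∃ r ∈ Wk n k F, fm σ r r = 0 ∧ fm σ r p ≠ 0 ∧ fm σ r q ≠ 0 := by
  by_cases hpq : fm σ p q = 0
  · obtain ⟨s, hs, h1, h2⟩ := W04_aux.exists_s σ hp hq hp0 hq0
    obtain ⟨y, hy⟩ := exists_tr (σ := σ) hH.inv (y := fm σ s s) (fm_swap hH.inv s s)
      (fun h => fm_self hH h s)
    have hps : fm σ p s = σ (fm σ s p) := (fm_swap hH.inv s p).symm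
    refine ⟨s + (y * (fm σ s p)⁻¹) • p, Submodule.add_mem _ hs (Submodule.smul_mem _ _ hp), ?_, ?_, ?_⟩
    · rw [fm_add_left, fm_add_right, fm_add_right, fm_smul_left, fm_smul_left, fm_smul_right, fm_smul_right,
        hpp, mul_zero, mul_zero, add_zero, hps, ← map_mul, inv_mul_cancel_right₀ h1, ← hy]
      have e : y + σ y + y + σ y = (y + y) + (σ y + σ y) := by ring
      rw [e, CharTwo.add_self_eq_zero, CharTwo.add_self_eq_zero, add_zero]
    · rw [fm_add_left, fm_smul_left, hpp, mul_zero, add_zero]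
      exact h1
    · rw [fm_add_left, fm_smul_left, hpq, mul_zero, add_zero]
      exact h2
  · have hqp : fm σ q p = σ (fm σ p q) := (fm_swap hH.inv p q).symm
    refine ⟨p + (fm σ p q)⁻¹ • q, Submodule.add_mem _ hp (Submodule.smul_mem _ _ hq), ?_, ?_, ?_⟩
    · rw [fm_add_left, fm_add_right, fm_add_right, fm_smul_left, fm_smul_left, fm_smul_right, fm_smul_right,
        hpp, hqq, mul_zero, mul_zero, zero_add, add_zero, hqp, ← map_mul, inv_mul_cancel₀ hpq, map_one]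
      exact CharTwo.add_self_eq_zero 1
    · rw [fm_add_left, fm_smul_left, hpp, zero_add, hqp, ← map_mul, inv_mul_cancel₀ hpq, map_one]
      exact one_ne_zero
    · rw [fm_add_left, fm_smul_left, hqq, mul_zero, add_zero]
      exact hpq

end

end CF
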