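import Pool.Agent.CF.W03
import Pool.Agent.CF.W04

/-!
# MP_6c3636_al, CF, module W05: subgroups with a non orthogonal conjugate (helper7)

Let `Z = {q : ∃ y ∈ X, ∃ c ≠ 0, q = c • mv y p}`. (a) If `q ∈ Z` then all `ei σ q a z`, `Adm σ q a z`, are in `X`: by `ei_smul` we may take `c = 1`, and `ei (y p) a z = y * ei p (y⁻¹ a) z * y⁻¹` (`ei_conj`, `adm_conj`). (b) If `fm w w = 0` and `fm p w ≠ 0` then `w ∈ Z`: choose `c` with `fm p (c • mv x p) = fm p w` (`fm p (x p) = σ (fm (x p) p) ≠ 0`), and `ei_move` for `v = p` maps `c • mv x p` to `w` by an element of `X`. (c) Let `q ≠ 0`, `fm q q = 0`. By `exists_third` (`k = 0`, `Wk n 0 F` is everything; `p ≠ 0` because of `hne`) there is `w` with `fm w w = 0`, `fm w p ≠ 0`, `fm w q ≠ 0`. By (b) `w = c • mv y p`, so `fm (y p) q ≠ 0`, `fm p (y⁻¹ q) ≠ 0`, and by (b) `y⁻¹ q ∈ Z`, `q ∈ Z`. So `Z` contains all nonzero isotropic vectors, and `EG n σ ≤ X` by (a)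 (`Subgroup.closure_le`; `ei_zero` if `v = 0`).
-/

namespace CF

noncomputable section

open Classical Matrix

variable {n : ℕ} {F : Type} [Field F] [Finite F] [CharP F 2]

theorem tits_ei {σ : F ≃+* F} (hH : Hy n σ) (X : Subgroup (GL (Fin n) F)) (hX : X ≤ Ug n σ)
    {p : Fin n → F} (hp : fm σ p p = 0) (h0 : ∀ a z, Adm σ p a z → ei σ p a z ∈ X)
    {x : GL (Fin n) F} (hx : x ∈ X) (hne : fm σ (mv x p) p ≠ 0) :
    EG n σ ≤ X ∧ ∀ q, q ≠ 0 → fm σ q q = 0 → ∃ y ∈ X, ∃ c : F, c ≠ 0 ∧ q = c • mv y p := by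
  have hσ := hH.inv
  have hσ0 : ∀ u : F, σ u = 0 → u = 0 := fun u h => by
    have := congrArg σ h
    rwa [hσ, map_zero] at this
  have hsm : ∀ (g : GL (Fin n) F) (c : F) (v : Fin n → F), mv g (c • v) = c • mv g v := by
    intro g c v
    unfold mv
    rw [Matrix.mulVec_smul]
  have hinvl : ∀ (g : GL (Fin n) F) (v : Fin n → F), mv g (mv g⁻¹ v) = v := by
    intro g v
    rw [← mv_mul, mul_inv_cancel, mv_one]
  have hinvr : ∀ (g : GL (Fin n) F) (v : Fin n → F), mv g⁻¹ (mv g v) = v := by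
    intro g v
    rw [← mv_mul, inv_mul_cancel, mv_one]
  have hp0 : p ≠ 0 := by
    rintro rfl
    exact hne (fm_zero_right σ _)
  -- (b)
  have hb : ∀ w, fm σ w w = 0 → fm σ p w ≠ 0 → ∃ y ∈ X, ∃ c : F, c ≠ 0 ∧ w = c • mv y p := by
    intro w hw hpw
    have ht : fm σ p (mv x p) ≠ 0 := by
      intro h
      apply hne
      rw [← fm_swap hσ, h, map_zero]
    set c : F := fm σ p w / fm σ p (mv x p) with hc
    have hc0 : c ≠ 0 := div_ne_zero hpw ht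
    have h1 : fm σ p (c • mv x p) = fm σ p w := by
      rw [fm_smul_right, hc, div_mul_cancel₀ _ ht]
    have h2 : fm σ (c • mv x p) (c • mv x p) = 0 := by
      rw [fm_smul_left, fm_smul_right, (mem_Ug.1 (hX hx)) p p, hp, mul_zero, mul_zero]
    obtain ⟨a, z, hadm, hmv, -⟩ := ei_move hσ hp h2 hw h1 (by rw [h1]; exact hpw)
    refine ⟨ei σ p a z * x, X.mul_mem (h0 a z hadm) hx, c, hc0, ?_⟩
    rw [mv_mul, ← hsm, hmv]
  -- (c)
  have hcq : ∀ q, q ≠ 0 → fm σ q q = 0 → ∃ y ∈ X, ∃ c : F, c ≠ 0 ∧ q = c • mv y p := by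
    intro q hq0 hqq
    have hWk : ∀ v : Fin n → F, v ∈ Wk n 0 F := by
      intro v
      rw [mem_Wk]
      intro i hi
      exact absurd ⟨Nat.zero_le _, by simp [i.2]⟩ hi
    obtain ⟨r, -, hrr, hrp, hrq⟩ := exists_third hH (k := 0) (hWk p) (hWk q) hp0 hq0 hp hqq
    have hpr : fm σ p r ≠ 0 := by
      intro h
      apply hrp
      rw [← fm_swap hσ, h, map_zero]
    obtain ⟨y, hy, c, hc0, rfl⟩ := hb r hrr hpr
    have h1 : fm σ (mv y p) q ≠ 0 := by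
      intro h
      apply hrq
      rw [fm_smul_left, h, mul_zero]
    have hyU := hX hy
    have h2 : fm σ p (mv y⁻¹ q) ≠ 0 := by
      rw [← (mem_Ug.1 hyU) p (mv y⁻¹ q), hinvl]
      exact h1
    have h3 : fm σ (mv y⁻¹ q) (mv y⁻¹ q) = 0 := by
      rw [(mem_Ug.1 ((Ug n σ).inv_mem hyU)) q q, hqq]
    obtain ⟨y', hy', c', hc', h4⟩ := hb _ h3 h2
    refine ⟨y * y', X.mul_mem hy hy', c', hc', ?_⟩
    rw [mv_mul, ← hsm, ← h4, hinvl]
  refine ⟨?_, hcq⟩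
  unfold EG
  rw [Subgroup.closure_le]
  rintro g ⟨v, a, z, hadm, rfl⟩
  by_cases hv0 : v = 0
  · subst hv0
    rw [ei_zero hσ hadm]
    exact X.one_mem
  · obtain ⟨y, hy, c, hc0, rfl⟩ := hcq v hv0 hadm.iso
    obtain ⟨h1, h2⟩ := ei_smul hσ hc0 hadm
    have h3 := adm_conj ((Ug n σ).inv_mem (hX hy)) h1
    rw [hinvr] at h3
    have h4 := ei_conj hσ (hX hy) h3
    rw [hinvl] at h4
    change ei σ (c • mv y p) a z ∈ X
    rw [h2, ← h4]
    exact X.mul_mem (X.mul_mem hy (h0 _ _ h3)) (X.inv_mem hy)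

end

end CF
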