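import Pool.Agent.CF.W04

/-!
# MP_6c3636_al, CF, module W06: every isometry is the product of an element of EG and a diagonal matrix (helper7)

Induction on `k`, claim for all `k` with `2 * k ≤ n`: there is `y ∈ EG n σ` such that `h = y⁻¹ * g` maps `sv j` and `sv (rev j)` to multiples of themselves for all `j` with `(j : ℕ) < k`. Step from `k` to `k + 1`, `2 * (k + 1) ≤ n`, `j = k`: the vector `q = mv h (sv k)` is in `Wk n k F` (`h` preserves the form, and `Wk` is the set of vectors orthogonal to all `sv j`, `sv (rev j)`, `j < k`; `fm (sv j) (h x) = 0` because `sv j` is a multiple of `h (sv j)` and `fm (sv j) x = 0`), nonzero and isotropic (`fm (sv k) (sv k) = 0` because `k ≠ rev k`). `exists_third` gives `r ∈ Wk` with `fm r (sv k) ≠ 0`, `fm r q ≠ 0`; `ei_move` (`v = r`) maps a multiple of `q` to `sv k` and fixes all `sv j`, `sv (rev j)`, `j < k` (`ei_fix`; `a` is a multiple of a vector of `Wk`).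 So we may assume that `h (sv k)` is a multiple of `sv k`; then `w = h (sv (rev k))` is isotropic, in `Wk n k F`, `fm (sv k) w ≠ 0`, and `ei_move` (`v = sv k`) maps `w` to a multiple of `sv (rev k)`; it fixes `sv k` and all `sv j`, `sv (rev j)`, `j < k`.
End: `k = n / 2`. If `n` is even all `sv j` are mapped to multiples. If `n = 2 * k + 1` the vector `h (sv k)` is in `Wk n k F`, the multiples of `sv k`. So `h` is diagonal (`mv_sv`).
-/

namespace CF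

noncomputable section

open Classical Matrix

variable {n : ℕ} {F : Type} [Field F] [Finite F] [CharP F 2]

/-- the diagonal matrices -/
def IsDg (g : GL (Fin n) F) : Prop := ∀ i j, i ≠ j → (g : Matrix (Fin n) (Fin n) F) i j = 0

private theorem sv_self (i : Fin n) : (sv i : Fin n → F) i = 1 := by
  rw [sv, Pi.single_eq_same]

private theorem sv_ne {i j : Fin n} (h : j ≠ i) : (sv i : Fin n → F) j = 0 := by
  rw [sv, Pi.single_eq_of_ne h]

private theorem sv_ne_zero (i : Fin n) : (sv i : Fin n → F) ≠ 0 := by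
  intro h
  have h1 := congrFun h i
  rw [sv_self] at h1
  exact one_ne_zero h1

private theorem sv_Wk {k : ℕ} {i : Fin n} (h : k ≤ (i : ℕ) ∧ (i : ℕ) + k < n) :
    (sv i : Fin n → F) ∈ Wk n k F := by
  rw [mem_Wk]
  intro j hj
  apply sv_ne
  rintro rfl
  exact hj h

private theorem out_rev {k : ℕ} {i : Fin n} (h : ¬ (k ≤ (i : ℕ) ∧ (i : ℕ) + k < n)) :
    ¬ (k ≤ (Fin.rev i : ℕ) ∧ (Fin.rev i : ℕ) + k < n) := by
  have h1 := i.isLt
  have h2 : ((Fin.rev i : Fin n) : ℕ) = n - (i + 1) := Fin.val_rev i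
  omega

/-- `h` maps the outer standard vectors to multiples -/
private def Mu (k : ℕ) (h : GL (Fin n) F) : Prop :=
  ∀ j : Fin n, ¬ (k ≤ (j : ℕ) ∧ (j : ℕ) + k < n) → ∃ c : F, mv h (sv j) = c • (sv j : Fin n → F)

private theorem mv_ne_zero {h : GL (Fin n) F} {x : Fin n → F} (hx : x ≠ 0) : mv h x ≠ 0 := by
  intro h0
  apply hx
  have h1 := mv_inv h x
  rw [h0, mv_zero] at h1
  exact h1.symm

private theorem Mu_Wk {σ : F ≃+* F} {k : ℕ} {h : GL (Fin n) F} (hU : h ∈ Ug n σ) (hM : Mu k h)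
    {x : Fin n → F} (hx : x ∈ Wk n k F) : mv h x ∈ Wk n k F := by
  rw [mem_Wk] at hx ⊢
  intro i hi
  obtain ⟨c, hc⟩ := hM (Fin.rev i) (out_rev hi)
  have hc0 : c ≠ 0 := by
    rintro rfl
    rw [zero_smul] at hc
    exact mv_ne_zero (sv_ne_zero _) hc
  have h1 : fm σ (mv h (sv (Fin.rev i))) (mv h x) = fm σ (sv (Fin.rev i)) x := mem_Ug.1 hU _ _
  rw [hc, fm_smul_left, fm_sv_left, fm_sv_left, Fin.rev_rev, hx i hi] at h1
  rcases mul_eq_zero.1 h1 with h2 | h2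
  · exfalso
    apply hc0
    have h3 : σ c = σ 0 := by rw [h2, map_zero]
    exact σ.injective h3
  · exact h2

private theorem fm_Wk_sv {σ : F ≃+* F} {k : ℕ} {x : Fin n → F} (hx : x ∈ Wk n k F) {j : Fin n}
    (hj : ¬ (k ≤ (j : ℕ) ∧ (j : ℕ) + k < n)) : fm σ x (sv j) = 0 := by
  rw [fm_sv_right, mem_Wk.1 hx _ (out_rev hj), map_zero]

private theorem Mu_step {σ : F ≃+* F} (hH : Hy n σ) {k : ℕ} (hk : 2 * (k + 1) ≤ n)
    {h : GL (Fin n) F} (hU : h ∈ Ug n σ) (hM : Mu k h) :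
    ∃ y ∈ EG n σ, Mu (k + 1) (y * h) := by
  have hσ := hH.inv
  have hkn : k < n := by omega
  obtain ⟨j0, hj0⟩ : ∃ j0 : Fin n, (j0 : ℕ) = k := ⟨⟨k, hkn⟩, rfl⟩
  have hr0 : ((Fin.rev j0 : Fin n) : ℕ) = n - (k + 1) := by rw [Fin.val_rev, hj0]
  have hne : j0 ≠ Fin.rev j0 := by
    intro h1
    have h2 : (j0 : ℕ) = (Fin.rev j0 : Fin n) := congrArg Fin.val h1
    omega
  have hp : (sv j0 : Fin n → F) ∈ Wk n k F := sv_Wk (by omega)
  have hr : (sv (Fin.rev j0) : Fin n → F) ∈ Wk n k F := sv_Wk (by omega)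
  have hpp : fm σ (sv j0) (sv j0 : Fin n → F) = 0 := by
    rw [fm_sv_left, sv_ne hne.symm]
  have hrr : fm σ (sv (Fin.rev j0)) (sv (Fin.rev j0) : Fin n → F) = 0 := by
    rw [fm_sv_left, Fin.rev_rev, sv_ne hne]
  have hpr : fm σ (sv j0) (sv (Fin.rev j0) : Fin n → F) = 1 := by
    rw [fm_sv_left, sv_self]
  have hq : mv h (sv j0) ∈ Wk n k F := Mu_Wk hU hM hp
  have hqq : fm σ (mv h (sv j0)) (mv h (sv j0)) = 0 := by
    rw [mem_Ug.1 hU, hpp]
  obtain ⟨r, hrW, hr0', hrp, hrq⟩ := exists_third hH hp hq (sv_ne_zero _)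
    (mv_ne_zero (sv_ne_zero _)) hpp hqq
  set q := mv h (sv j0) with hqdef
  obtain ⟨c, hc⟩ : ∃ c : F, c * fm σ r q = fm σ r (sv j0) :=
    ⟨fm σ r (sv j0) / fm σ r q, div_mul_cancel₀ _ hrq⟩
  have hc0 : c ≠ 0 := by
    rintro rfl
    rw [zero_mul] at hc
    exact hrp hc.symm
  obtain ⟨a, z, hA, hmv, c', ha⟩ := ei_move hσ (v := r) (w := c • q) (w' := sv j0) hr0'
    (by rw [fm_smul_left, fm_smul_right, hqq, mul_zero, mul_zero]) hpp
    (by rw [fm_smul_right, hc]) (by rw [fm_smul_right, hc]; exact hrp)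
  have haW : a ∈ Wk n k F := by
    rw [ha]
    exact Submodule.smul_mem _ _ (Submodule.add_mem _ (Submodule.smul_mem _ _ hq) hp)
  set e := ei σ r a z with he
  have heG : e ∈ EG n σ := ei_mem_EG hA
  have heU : e ∈ Ug n σ := EG_le hσ heG
  have hfix : ∀ j : Fin n, ¬ (k ≤ (j : ℕ) ∧ (j : ℕ) + k < n) → mv e (sv j) = sv j := fun j hj =>
    ei_fix hσ hA (fm_Wk_sv hrW hj) (fm_Wk_sv haW hj)
  have hM1 : Mu k (e * h) := by
    intro j hj
    obtain ⟨d, hd⟩ := hM j hj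
    refine ⟨d, ?_⟩
    rw [mv_mul, hd, mv_smul, hfix j hj]
  have hU1 : e * h ∈ Ug n σ := Subgroup.mul_mem _ heU hU
  have hp1 : mv (e * h) (sv j0) = c⁻¹ • (sv j0 : Fin n → F) := by
    rw [mv_mul, ← hqdef, ← hmv, ← mv_smul, smul_smul, inv_mul_cancel₀ hc0, one_smul]
  set w := mv (e * h) (sv (Fin.rev j0)) with hw
  have hwW : w ∈ Wk n k F := Mu_Wk hU1 hM1 hr
  have hww : fm σ w w = 0 := by
    rw [hw, mem_Ug.1 hU1, hrr]
  have hpw : fm σ (sv j0) w ≠ 0 := by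
    have h1 : fm σ (mv (e * h) (sv j0)) w = 1 := by
      rw [hw, mem_Ug.1 hU1, hpr]
    rw [hp1, fm_smul_left] at h1
    intro h2
    rw [h2, mul_zero] at h1
    exact zero_ne_one h1
  obtain ⟨a2, z2, hA2, hmv2, c2, ha2⟩ := ei_move hσ (v := sv j0) (w := w)
    (w' := fm σ (sv j0) w • sv (Fin.rev j0)) hpp hww
    (by rw [fm_smul_left, fm_smul_right, hrr, mul_zero, mul_zero])
    (by rw [fm_smul_right, hpr, mul_one]) hpw
  have ha2W : a2 ∈ Wk n k F := by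
    rw [ha2]
    exact Submodule.smul_mem _ _ (Submodule.add_mem _ hwW (Submodule.smul_mem _ _ hr))
  set e2 := ei σ (sv j0) a2 z2 with he2
  have he2G : e2 ∈ EG n σ := ei_mem_EG hA2
  have hfix2 : ∀ j : Fin n, ¬ (k ≤ (j : ℕ) ∧ (j : ℕ) + k < n) → mv e2 (sv j) = sv j :=
    fun j hj => ei_fix hσ hA2 (fm_Wk_sv hp hj) (fm_Wk_sv ha2W hj)
  have hfix3 : mv e2 (sv j0) = sv j0 := by
    refine ei_fix hσ hA2 hpp ?_
    rw [← fm_swap hσ, hA2.perp, map_zero]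
  refine ⟨e2 * e, Subgroup.mul_mem _ he2G heG, ?_⟩
  intro j hj
  rw [mul_assoc]
  by_cases h1 : j = j0
  · refine ⟨c⁻¹, ?_⟩
    rw [h1, mv_mul, hp1, mv_smul, hfix3]
  by_cases h2 : j = Fin.rev j0
  · refine ⟨fm σ (sv j0) w, ?_⟩
    rw [h2, mv_mul, ← hw, hmv2]
  have h3 : ¬ (k ≤ (j : ℕ) ∧ (j : ℕ) + k < n) := by
    intro h4
    have h5 : (j : ℕ) ≠ k := fun h5 => h1 (Fin.ext (by rw [h5, hj0]))
    have h6 : (j : ℕ) ≠ n - (k + 1) := fun h6 => h2 (Fin.ext (by rw [h6, hr0]))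
    omega
  obtain ⟨d, hd⟩ := hM1 j h3
  refine ⟨d, ?_⟩
  rw [mv_mul, hd, mv_smul, hfix2 j h3]

private theorem Mu_all {σ : F ≃+* F} (hH : Hy n σ) (k : ℕ) : 2 * k ≤ n →
    ∀ g ∈ Ug n σ, ∃ y ∈ EG n σ, Mu k (y * g) := by
  induction k with
  | zero =>
    intro _ g _
    refine ⟨1, Subgroup.one_mem _, ?_⟩
    intro j hj
    exfalso
    have h1 := j.isLt
    omega
  | succ k ih =>
    intro hk g hg
    obtain ⟨y, hy, hM⟩ := ih (by omega) g hg
    have hU : y * g ∈ Ug n σ := Subgroup.mul_mem _ (EG_le hH.inv hy) hg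
    obtain ⟨y2, hy2, hM2⟩ := Mu_step hH hk hU hM
    refine ⟨y2 * y, Subgroup.mul_mem _ hy2 hy, ?_⟩
    rw [mul_assoc]
    exact hM2

theorem ug_decomp {σ : F ≃+* F} (hH : Hy n σ) {g : GL (Fin n) F} (hg : g ∈ Ug n σ) :
    ∃ y ∈ EG n σ, ∃ t ∈ Ug n σ, IsDg t ∧ g = y * t := by
  obtain ⟨y, hy, hM⟩ := Mu_all hH (n / 2) (by omega) g hg
  have hU : y * g ∈ Ug n σ := Subgroup.mul_mem _ (EG_le hH.inv hy) hg
  refine ⟨y⁻¹, Subgroup.inv_mem _ hy, y * g, hU, ?_, by rw [inv_mul_cancel_left]⟩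
  intro i j hij
  rw [← mv_sv]
  by_cases hj : (n / 2 ≤ (j : ℕ) ∧ (j : ℕ) + n / 2 < n)
  · have h1 : mv (y * g) (sv j) ∈ Wk n (n / 2) F := Mu_Wk hU hM (sv_Wk hj)
    refine mem_Wk.1 h1 i ?_
    intro hi
    apply hij
    apply Fin.ext
    omega
  · obtain ⟨c, hc⟩ := hM j hj
    rw [hc, Pi.smul_apply, sv_ne hij, smul_zero]

end

end CF
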