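import Pool.Agent.CF.W06
import Pool.Agent.ParkerGL.F04

/-!
# MP_6c3636_al, CF, module W07: EG is normal with commutative quotient of odd order (helper7)

`EG_conj`: `ei_conj`, `adm_conj` and `Subgroup.closure_induction` (or `Subgroup.map_closure`). `EG_comm`: write `x = y t`, `x' = y' t'` (`ug_decomp`); modulo the normal subgroup `EG` (of `Ug`) the commutator of `x`, `x'` is the one of the diagonal matrices `t`, `t'`, which commute (`EG_le`: `EG ≤ Ug`). `EG_odd`: every element of `Ug n σ` is in `EG * T`, `T` = the diagonal matrices in `Ug n σ`, so every element of the quotient is the class of a diagonal matrix and its order divides `Nat.card Fˣ`, an odd number (`ParkerGL.F04_aux.odd_units'`).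
-/

namespace CF

noncomputable section

open Classical Matrix

variable {n : ℕ} {F : Type} [Field F] [Finite F] [CharP F 2]

namespace W07_aux

/-- a diagonal matrix is the diagonal matrix of its diagonal -/
theorem dg_eq {n : ℕ} {F : Type} [Field F] {t : GL (Fin n) F} (ht : IsDg t) :
    (t : Matrix (Fin n) (Fin n) F) =
      Matrix.diagonal (fun i => (t : Matrix (Fin n) (Fin n) F) i i) := by
  ext i j
  by_cases h : i = j
  · subst h
    rw [Matrix.diagonal_apply_eq]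
  · rw [Matrix.diagonal_apply_ne _ h]
    exact ht i j h

/-- diagonal matrices commute -/
theorem dg_comm {n : ℕ} {F : Type} [Field F] {s t : GL (Fin n) F} (hs : IsDg s) (ht : IsDg t) :
    s * t = t * s := by
  apply Units.ext
  rw [Units.val_mul, Units.val_mul, dg_eq hs, dg_eq ht, Matrix.diagonal_mul_diagonal,
    Matrix.diagonal_mul_diagonal]
  congr 1
  funext i
  exact mul_comm _ _

/-- the order of a diagonal matrix divides the order of the multiplicative group -/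
theorem dg_pow {n : ℕ} {F : Type} [Field F] {t : GL (Fin n) F} (ht : IsDg t) :
    t ^ Nat.card Fˣ = 1 := by
  apply Units.ext
  have hdet : (t : Matrix (Fin n) (Fin n) F).det ≠ 0 := by
    have h1 : IsUnit (t : Matrix (Fin n) (Fin n) F).det :=
      (Matrix.isUnit_iff_isUnit_det _).1 t.isUnit
    exact h1.ne_zero
  rw [dg_eq ht, Matrix.det_diagonal, Finset.prod_ne_zero_iff] at hdet
  rw [Units.val_pow_eq_pow_val, Units.val_one, dg_eq ht, Matrix.diagonal_pow,
    ← Matrix.diagonal_one]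
  congr 1
  funext i
  have h2 := pow_card_eq_one' (x := Units.mk0 _ (hdet i (Finset.mem_univ i)))
  have h3 := congrArg Units.val h2
  rw [Units.val_pow_eq_pow_val, Units.val_mk0, Units.val_one] at h3
  rw [Pi.pow_apply]
  exact h3

end W07_aux

theorem EG_conj {σ : F ≃+* F} (hσ : ∀ x, σ (σ x) = x) {g y : GL (Fin n) F} (hg : g ∈ Ug n σ)
    (hy : y ∈ EG n σ) : g * y * g⁻¹ ∈ EG n σ := by
  refine Subgroup.closure_induction (p := fun y _ => g * y * g⁻¹ ∈ EG n σ) ?_ ?_ ?_ ?_ hy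
  · rintro x ⟨v, a, z, h, rfl⟩
    rw [ei_conj hσ hg h]
    exact ei_mem_EG (adm_conj hg h)
  · rw [mul_one, mul_inv_cancel]
    exact (EG n σ).one_mem
  · intro x y _ _ hx hy
    have e : g * (x * y) * g⁻¹ = (g * x * g⁻¹) * (g * y * g⁻¹) := by group
    rw [e]
    exact (EG n σ).mul_mem hx hy
  · intro x _ hx
    have e : g * x⁻¹ * g⁻¹ = (g * x * g⁻¹)⁻¹ := by group
    rw [e]
    exact (EG n σ).inv_mem hx

theorem EG_comm {σ : F ≃+* F} (hH : Hy n σ) {x y : GL (Fin n) F} (hx : x ∈ Ug n σ)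
    (hy : y ∈ Ug n σ) : x * y * x⁻¹ * y⁻¹ ∈ EG n σ := by
  obtain ⟨y1, hy1, t1, ht1, hd1, rfl⟩ := ug_decomp hH hx
  obtain ⟨y2, hy2, t2, ht2, hd2, rfl⟩ := ug_decomp hH hy
  have hc : t1 * t2 * t1⁻¹ = t2 := by
    rw [W07_aux.dg_comm hd1 hd2, mul_assoc, mul_inv_cancel, mul_one]
  have e : y1 * t1 * (y2 * t2) * (y1 * t1)⁻¹ * (y2 * t2)⁻¹ =
      y1 * (t1 * y2 * t1⁻¹) * ((t1 * t2 * t1⁻¹) * y1⁻¹ * t2⁻¹) * y2⁻¹ := by group
  rw [e, hc]
  exact (EG n σ).mul_mem ((EG n σ).mul_mem ((EG n σ).mul_mem hy1 (EG_conj hH.inv ht1 hy2))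
    (EG_conj hH.inv ht2 ((EG n σ).inv_mem hy1))) ((EG n σ).inv_mem hy2)

theorem EG_odd {σ : F ≃+* F} (hH : Hy n σ) : Odd ((EG n σ).subgroupOf (Ug n σ)).index := by
  have hN : ((EG n σ).subgroupOf (Ug n σ)).Normal := by
    refine ⟨fun y hy g => ?_⟩
    rw [Subgroup.mem_subgroupOf] at hy ⊢
    exact EG_conj hH.inv g.2 hy
  rw [← Nat.not_even_iff_odd]
  intro hev
  have h2 : 2 ∣ Nat.card (Ug n σ ⧸ (EG n σ).subgroupOf (Ug n σ)) := hev.two_dvd
  obtain ⟨q, hq⟩ := exists_prime_orderOf_dvd_card' 2 h2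
  obtain ⟨g, rfl⟩ := QuotientGroup.mk_surjective q
  obtain ⟨y, hy, t, ht, hd, hg⟩ := ug_decomp hH g.2
  have hyU : y ∈ Ug n σ := EG_le hH.inv hy
  have h3 : (g : GL (Fin n) F) = y * t := hg
  have hgt : (QuotientGroup.mk g : Ug n σ ⧸ (EG n σ).subgroupOf (Ug n σ)) =
      QuotientGroup.mk (⟨t, ht⟩ : Ug n σ) := by
    have h4 : g = ⟨y, hyU⟩ * ⟨t, ht⟩ := Subtype.ext h3
    have h5 : (QuotientGroup.mk (⟨y, hyU⟩ : Ug n σ) :
        Ug n σ ⧸ (EG n σ).subgroupOf (Ug n σ)) = 1 :=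
      (QuotientGroup.eq_one_iff _).2 (Subgroup.mem_subgroupOf.2 hy)
    rw [h4, QuotientGroup.mk_mul, h5, one_mul]
  have hpow : (QuotientGroup.mk g : Ug n σ ⧸ (EG n σ).subgroupOf (Ug n σ)) ^ Nat.card Fˣ = 1 := by
    rw [hgt, ← QuotientGroup.mk_pow]
    have h6 : (⟨t, ht⟩ : Ug n σ) ^ Nat.card Fˣ = 1 := by
      apply Subtype.ext
      rw [Subgroup.coe_pow, Subgroup.coe_one]
      exact W07_aux.dg_pow hd
    rw [h6, QuotientGroup.mk_one]
  have hdvd := orderOf_dvd_of_pow_eq_one hpow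
  rw [hq] at hdvd
  have hodd := ParkerGL.F04_aux.odd_units' (F := F)
  rw [← Nat.not_even_iff_odd] at hodd
  exact hodd (even_iff_two_dvd.2 hdvd)

end

end CF
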