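import Pool.Agent.CF.W07
import Pool.Agent.LieP.Z04

/-!
# MP_6c3636_al, CF, module W08: (A) and (B) for EG (helper7)

Same proof as `LieP.ug_ab` (LieP/Z04) with `N = (EG n σ).subgroupOf (Ug n σ)` instead of the group of the elements of determinant one: `hA0`, `hO0` for `S.H = Ug n σ`; `N` is normal (`EG_conj`), `hab` is `EG_comm`, `hodd` is `EG_odd`; `ParkerGL.propA_normal`, `ParkerGL.op_normal`, `ParkerGL.op_propB`, and `ParkerGL.ab_congr (Subgroup.subgroupOfEquivOfLe EG_le)`.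
-/

namespace CF

noncomputable section

open Classical Matrix

variable {n : ℕ} {F : Type} [Field F] [Finite F] [CharP F 2]

theorem ab_EG {σ : F ≃+* F} (hH : Hy n σ) : AB2 (EG n σ) := by
  obtain ⟨S, hSH, hSL⟩ := LieP.exists_sys F σ n hH.inv hH.id
  have hOP : ∀ y, ParkerGL.OP (S.L y) := by
    intro y
    rw [hSL y]
    exact LieP.op_UL F σ n hH.inv (fun h => (hH.id h).1) _ (fun i => y.2 i)
  have hA0 : Parker.PropA Parker.ctx2 1 S.H := LieP.lie_propA S hOP Parker.ctx2 LieP.ctx2_two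
  have hO0 : ParkerGL.OP S.H := by
    rw [← S.s3]
    exact hOP 0
  rw [hSH] at hA0 hO0
  have hab : ∀ x y : LieP.UG σ (Fin.revPerm : Equiv.Perm (Fin n)),
      x * y * x⁻¹ * y⁻¹ ∈ (EG n σ).subgroupOf (LieP.UG σ Fin.revPerm) := by
    intro x y
    rw [Subgroup.mem_subgroupOf]
    exact EG_comm hH x.2 y.2
  have hnor : ((EG n σ).subgroupOf (LieP.UG σ (Fin.revPerm : Equiv.Perm (Fin n)))).Normal := by
    constructor
    intro x hx g
    rw [Subgroup.mem_subgroupOf] at hx ⊢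
    exact EG_conj hH.inv g.2 hx
  have hA1 := ParkerGL.propA_normal Parker.ctx2 hA0 _ (EG_odd hH) hab
  have hO1 := ParkerGL.op_normal hO0 _ (EG_odd hH)
  exact ParkerGL.ab_congr (Subgroup.subgroupOfEquivOfLe (EG_le hH.inv))
    ⟨hA1, ParkerGL.op_propB hO1 Parker.ctx2⟩

end

end CF
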