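import Pool.Agent.CF.W04

/-!
# MP_6c3636_al, CF, module W09: the unitriangular isometries (helper7)

`ei_mem_Uu`: the entries of `eiM σ (sv k) a z` (`ei_coe`): `a i * σ (sv k (rev j))` is nonzero only for `j = rev k`, `a i ≠ 0`, so `i < rev k`; `sv k i * σ (a (rev j))` only for `i = k`, `a (rev j) ≠ 0`, so `rev j < rev k`, `k < j`; `z * ..` only for `i = k`, `j = rev k`. `ei_first`: `i0` is the first index; `fm (sv i0) a = a (rev i0) = 0`.
`Uu_le`: claim by induction on `k` (`2 * k ≤ n`, downwards from `n / 2` to `0`): if `u ∈ Uu n σ` fixes `sv j` and `sv (rev j)` for all `(j : ℕ) < k`, then `u ∈ EG n σ`. For `k = n / 2`: `u = 1` (if `n = 2 * k + 1` then `u (sv k)` is orthogonal to all `sv j`, `sv (rev j)`, `j < k`, so it is a multiple of `sv k`, and `u` is unitriangular). For `2 * (k + 1) ≤ n`: `u (sv k)` is orthogonal to all `sv j`, `sv (rev j)`, `j < k`, so it is in `Wk n k F`, and `u` is unitriangular, so `u (sv k) = sv k`; `w = u (sv (rev k))` is in `Wk n k F`, isotropic,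 `fm (sv k) w = 1`; `ei_move` (`v = sv k`) gives `E = ei (sv k) a z` which maps `sv (rev k)` to `w`, `a` a multiple of `w + sv (rev k)`; `a` vanishes at all indices `≥ rev k` (`u` is unitriangular), so `E ∈ Uu` (`ei_mem_Uu`), and `E⁻¹ * u` fixes `sv j`, `sv (rev j)` for `j ≤ k` (`E` fixes `sv j`, `sv (rev j)`, `j < k`, and `sv k`). By induction `E⁻¹ * u ∈ EG`.
-/

namespace CF

noncomputable section

open Classical Matrix

variable {n : ℕ} {F : Type} [Field F] [Finite F] [CharP F 2]

namespace W09_aux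

omit [Finite F] [CharP F 2] in
theorem sv_ne {i j : Fin n} (h : j ≠ i) : (sv i : Fin n → F) j = 0 := by
  rw [sv, Pi.single_eq_of_ne h]

omit [Finite F] [CharP F 2] in
theorem sv_self (i : Fin n) : (sv i : Fin n → F) i = 1 := by
  rw [sv, Pi.single_eq_same]

/-- an isometry which fixes `sv j` preserves the coordinate `rev j` -/
theorem coord {σ : F ≃+* F} {u : GL (Fin n) F} (hu : u ∈ Ug n σ) {j : Fin n}
    (h : mv u (sv j) = sv j) (x : Fin n → F) : mv u x (Fin.rev j) = x (Fin.rev j) := by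
  have h1 := mem_Ug.1 hu (sv j) x
  rw [h, fm_sv_left, fm_sv_left] at h1
  exact h1

theorem coord' {σ : F ≃+* F} {u : GL (Fin n) F} (hu : u ∈ Ug n σ) {j : Fin n}
    (h : mv u (sv (Fin.rev j)) = sv (Fin.rev j)) (x : Fin n → F) : mv u x j = x j := by
  have h1 := coord hu h x
  rw [Fin.rev_rev] at h1
  exact h1

end W09_aux

open W09_aux

theorem ei_mem_Uu {σ : F ≃+* F} (hσ : ∀ x, σ (σ x) = x) {k : Fin n} (hk : k < Fin.rev k)
    {a : Fin n → F} {z : F} (h : Adm σ (sv k) a z) (ha : ∀ i, Fin.rev k ≤ i → a i = 0) :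
    ei σ (sv k) a z ∈ Uu n σ := by
  refine ⟨ei_mem hσ h, mem_Up.2 fun i j hij => ?_⟩
  rw [not_lt] at hij
  rw [ei_coe hσ h]
  show (1 : Matrix (Fin n) (Fin n) F) i j + a i * σ (sv k (Fin.rev j)) + sv k i * σ (a (Fin.rev j)) +
    z * sv k i * σ (sv k (Fin.rev j)) = _
  have t1 : a i * σ ((sv k : Fin n → F) (Fin.rev j)) = 0 := by
    by_cases h1 : Fin.rev j = k
    · rw [ha i, zero_mul]
      rw [← h1, Fin.rev_rev]
      exact hij
    · rw [sv_ne h1, map_zero, mul_zero]
  have t2 : (sv k : Fin n → F) i * σ (a (Fin.rev j)) = 0 := by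
    by_cases h1 : i = k
    · rw [ha (Fin.rev j), map_zero, mul_zero]
      rw [Fin.rev_le_rev, ← h1]
      exact hij
    · rw [sv_ne h1, zero_mul]
  have t3 : z * (sv k : Fin n → F) i * σ ((sv k : Fin n → F) (Fin.rev j)) = 0 := by
    by_cases h1 : i = k
    · by_cases h2 : Fin.rev j = k
      · exfalso
        have h3 : j = Fin.rev k := by rw [← h2, Fin.rev_rev]
        rw [h3, h1] at hij
        exact absurd hk (not_lt.2 hij)
      · rw [sv_ne h2, map_zero, mul_zero]
    · rw [sv_ne h1, mul_zero, zero_mul]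
  rw [t1, t2, t3, add_zero, add_zero, add_zero]

theorem ei_first {σ : F ≃+* F} (hσ : ∀ x, σ (σ x) = x) (hn : 2 ≤ n) {i0 : Fin n}
    (h0 : (i0 : ℕ) = 0) {a : Fin n → F} {z : F} (h : Adm σ (sv i0) a z) :
    ei σ (sv i0) a z ∈ Uu n σ := by
  refine ei_mem_Uu hσ ?_ h ?_
  · rw [Fin.lt_def, Fin.val_rev, h0]
    omega
  · intro i hi
    have h1 : i = Fin.rev i0 := by
      rw [Fin.le_def, Fin.val_rev, h0] at hi
      apply Fin.ext
      rw [Fin.val_rev, h0]
      omega
    have h2 := h.perp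
    rw [fm_sv_left] at h2
    rw [h1, h2]

namespace W09_aux

theorem main {σ : F ≃+* F} (hH : Hy n σ) : ∀ (m k : ℕ), m + k = n / 2 → ∀ u ∈ Uu n σ,
    (∀ j : Fin n, (j : ℕ) < k → mv u (sv j) = sv j ∧ mv u (sv (Fin.rev j)) = sv (Fin.rev j)) →
    u ∈ EG n σ := by
  have hσ := hH.inv
  intro m
  induction m with
  | zero =>
    intro k hk u hu hfix
    have h1 : u = 1 := by
      apply mv_ext
      intro i
      rw [mv_one]
      by_cases h1 : (i : ℕ) < k
      · exact (hfix i h1).1
      by_cases h2 : ((Fin.rev i : Fin n) : ℕ) < k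
      · have := (hfix _ h2).2
        rw [Fin.rev_rev] at this
        exact this
      rw [Fin.val_rev] at h2
      funext l
      by_cases h3 : l = i
      · rw [h3, mv_sv, mem_Up.1 hu.2 i i (lt_irrefl _), Matrix.one_apply_eq, sv_self]
      · rw [sv_ne h3]
        have hl := l.2
        have hi := i.2
        have h6 : (l : ℕ) ≠ (i : ℕ) := fun h => h3 (Fin.ext h)
        by_cases h4 : (l : ℕ) < k
        · rw [coord' hu.1 (hfix l h4).2, sv_ne h3]
        · have h5 : ((Fin.rev l : Fin n) : ℕ) < k := by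
            rw [Fin.val_rev]
            omega
          have h7 := coord hu.1 (hfix _ h5).1 (sv i)
          rw [Fin.rev_rev, sv_ne h3] at h7
          exact h7
    rw [h1]
    exact Subgroup.one_mem _
  | succ m ih =>
    intro k hk u hu hfix
    have hkn : 2 * (k + 1) ≤ n := by omega
    have hkl : k < n := by omega
    obtain ⟨kk, hkk⟩ : ∃ kk : Fin n, (kk : ℕ) = k := ⟨⟨k, hkl⟩, rfl⟩
    have hrev : ((Fin.rev kk : Fin n) : ℕ) = n - (k + 1) := by rw [Fin.val_rev, hkk]
    have hlt : kk < Fin.rev kk := by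
      rw [Fin.lt_def, hrev, hkk]
      omega
    have hne : kk ≠ Fin.rev kk := ne_of_lt hlt
    -- `u` fixes `sv k`
    have hu1 : mv u (sv kk) = sv kk := by
      funext i
      by_cases h1 : (i : ℕ) < k
      · exact coord' hu.1 (hfix i h1).2 _
      · rw [mv_sv, mem_Up.1 hu.2 i kk (by rw [Fin.lt_def, hkk]; exact h1), sv, Pi.single_apply,
          Matrix.one_apply]
    obtain ⟨w, hw⟩ : ∃ w, w = mv u (sv (Fin.rev kk)) := ⟨_, rfl⟩
    have hvv : fm σ (sv kk) (sv kk : Fin n → F) = 0 := by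
      rw [fm_sv_left, sv_ne hne.symm]
    have hrr : fm σ (sv (Fin.rev kk)) (sv (Fin.rev kk) : Fin n → F) = 0 := by
      rw [fm_sv_left, Fin.rev_rev, sv_ne hne]
    have hvr : fm σ (sv kk) (sv (Fin.rev kk) : Fin n → F) = 1 := by
      rw [fm_sv_left, sv_self]
    have hww : fm σ w w = 0 := by
      rw [hw, mem_Ug.1 hu.1, hrr]
    have hvw : fm σ (sv kk) w = 1 := by
      conv_lhs => rw [← hu1]
      rw [hw, mem_Ug.1 hu.1, hvr]
    obtain ⟨a, z, hadm, hmove, c, hc⟩ := ei_move hσ hvv hrr hww (hvr.trans hvw.symm)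
      (by rw [hvr]; exact one_ne_zero)
    -- `a` vanishes at the indices at least `rev k`
    have ha : ∀ i, Fin.rev kk ≤ i → a i = 0 := by
      intro i hi
      rw [hc, Pi.smul_apply, Pi.add_apply, hw, mv_sv, mem_Up.1 hu.2 i (Fin.rev kk) (not_lt.2 hi), sv,
        Pi.single_apply, Matrix.one_apply, CharTwo.add_self_eq_zero, smul_zero]
    have ha' : ∀ j : Fin n, (j : ℕ) < k → a j = 0 := by
      intro j hj
      have h1 : j ≠ Fin.rev kk := by
        intro h
        have h2 := congrArg Fin.val h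
        rw [hrev] at h2
        omega
      rw [hc, Pi.smul_apply, Pi.add_apply, hw, coord' hu.1 (hfix j hj).2, sv_ne h1, add_zero, smul_zero]
    have hE : ei σ (sv kk) a z ∈ Uu n σ := ei_mem_Uu hσ hlt hadm ha
    have hfE : ∀ x : Fin n → F, fm σ (sv kk) x = 0 → fm σ a x = 0 → mv (ei σ (sv kk) a z)⁻¹ x = x := by
      intro x h1 h2
      have h3 := ei_fix hσ hadm h1 h2
      conv_lhs => rw [← h3]
      rw [mv_inv]
    have h5 : (ei σ (sv kk) a z)⁻¹ * u ∈ EG n σ := by
      refine ih (k + 1) (by omega) _ (Subgroup.mul_mem _ (Subgroup.inv_mem _ hE) hu) ?_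
      intro j hj
      rw [mv_mul, mv_mul]
      by_cases h1 : (j : ℕ) < k
      · rw [(hfix j h1).1, (hfix j h1).2]
        have h2 : Fin.rev kk ≠ j := by
          intro h
          have h2 := congrArg Fin.val h
          rw [hrev] at h2
          omega
        have h3 : Fin.rev kk ≠ Fin.rev j := by
          intro h
          have h4 := Fin.rev_injective h
          rw [← h4, hkk] at h1
          exact lt_irrefl _ h1
        have h4 : Fin.rev kk ≤ Fin.rev j := by
          rw [Fin.rev_le_rev, Fin.le_def, hkk]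
          omega
        refine ⟨hfE _ ?_ ?_, hfE _ ?_ ?_⟩
        · rw [fm_sv_left, sv_ne h2]
        · rw [fm_sv_right, ha _ h4, map_zero]
        · rw [fm_sv_left, sv_ne h3]
        · rw [fm_sv_right, Fin.rev_rev, ha' j h1, map_zero]
      · have h2 : j = kk := by
          apply Fin.ext
          omega
        rw [h2]
        refine ⟨?_, ?_⟩
        · rw [hu1]
          refine hfE _ hvv ?_
          rw [fm_sv_right, ha _ le_rfl, map_zero]
        · rw [← hw, ← hmove, mv_inv]
    have h6 := Subgroup.mul_mem _ (ei_mem_EG hadm) h5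
    rw [← mul_assoc, mul_inv_cancel, one_mul] at h6
    exact h6

end W09_aux

theorem Uu_le {σ : F ≃+* F} (hH : Hy n σ) : Uu n σ ≤ EG n σ := by
  intro u hu
  exact W09_aux.main hH (n / 2) 0 (by omega) u hu fun j hj => absurd hj (Nat.not_lt_zero _)

end

end CF
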