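import Pool.Agent.CF.W09

/-!
# MP_6c3636_al, CF, module W10: totally isotropic subspaces invariant under the unitriangular isometries (helper7)

Let `k` be maximal with `Fl n k F ≤ W` (`0 < k` because `sv i0 ∈ W`; `k ≤ n`). First `2 * k ≤ n`: otherwise `sv (k - 1)` and `sv (rev (k - 1)) ∈ Fl n k F ≤ W` (as `rev (k - 1) = n - k < k`), but their product is `1`. Suppose `w ∈ W`, `w ∉ Fl n k F`. Subtracting an element of `Fl n k F` we may assume `w i = 0` for `i < k`. For `i < k`: `0 = fm (sv i) w = w (rev i)`. So `w ∈ Wk n k F`, `w ≠ 0`. Let `j` be the largest index with `w j ≠ 0`; `k ≤ j ≤ rev k` (so `k < n`; write `k` also for the index). If `j = k`: `w = w k • sv k`, `sv k ∈ W`, `Fl n (k + 1) F ≤ W`, contradiction. So `k < j ≤ rev k`. If `j = rev k`: `u = ei (sv k) 0 1 ∈ Uu` (`Adm`: `1 + σ 1 = 0`; `fm (sv k) (sv k) = 0` as `k ≠ rev k`), `u w - w = w (rev k) • sv k`. If `j < rev k`: `a = sv (rev j)`, `z` with `z + σ z = fm a a` (`exists_tr`;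 `fm a a` is `0` or `1`, and `0` if `σ = 1`), `Adm σ (sv k) a z` (`fm (sv k) a = 0` because `rev j ≠ rev k`), `u = ei (sv k) a z ∈ Uu` (`ei_mem_Uu`: `rev j < rev k`), `u w = w + fm (sv k) w • a + fm a w • sv k + ... = w + w j • sv k` because `fm (sv k) w = w (rev k) = 0`. In both cases `sv k ∈ W`, so `Fl n (k + 1) F ≤ W`, contradiction.
-/

namespace CF

noncomputable section

open Classical Matrix

variable {n : ℕ} {F : Type} [Field F] [Finite F] [CharP F 2]

namespace W10_aux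

omit [Finite F] [CharP F 2] in
theorem fl_one {i0 : Fin n} (h0 : (i0 : ℕ) = 0) {W : Submodule F (Fin n → F)} (he : sv i0 ∈ W) :
    Fl n 1 F ≤ W := by
  intro v hv
  have h1 : v = v i0 • (sv i0 : Fin n → F) := by
    funext i
    rw [Pi.smul_apply, smul_eq_mul]
    by_cases h : i = i0
    · rw [h, W09_aux.sv_self, mul_one]
    · rw [W09_aux.sv_ne h, mul_zero]
      refine mem_Fl.1 hv i ?_
      have h2 : (i : ℕ) ≠ (i0 : ℕ) := fun h' => h (Fin.ext h')
      omega
  rw [h1]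
  exact W.smul_mem _ he

omit [Finite F] [CharP F 2] in
theorem fl_succ {k : ℕ} {kk : Fin n} (hkk : (kk : ℕ) = k) {W : Submodule F (Fin n → F)}
    (h1 : Fl n k F ≤ W) (h2 : sv kk ∈ W) : Fl n (k + 1) F ≤ W := by
  intro v hv
  have h3 : v - v kk • (sv kk : Fin n → F) ∈ Fl n k F := by
    refine mem_Fl.2 fun i hi => ?_
    rw [Pi.sub_apply, Pi.smul_apply, smul_eq_mul]
    by_cases h : i = kk
    · rw [h, W09_aux.sv_self, mul_one, sub_self]
    · rw [W09_aux.sv_ne h, mul_zero, sub_zero]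
      refine mem_Fl.1 hv i ?_
      have h4 : (i : ℕ) ≠ (kk : ℕ) := fun h' => h (Fin.ext h')
      omega
  have h4 := W.add_mem (h1 h3) (W.smul_mem (v kk) h2)
  rw [sub_add_cancel] at h4
  exact h4

omit [Finite F] [CharP F 2] in
theorem sv_mem_fl {k : ℕ} {i : Fin n} (h : (i : ℕ) < k) : (sv i : Fin n → F) ∈ Fl n k F := by
  refine mem_Fl.2 fun j hj => W09_aux.sv_ne fun h' => ?_
  rw [h'] at hj
  omega

omit [Finite F] [CharP F 2] in
theorem mem_of_add {W : Submodule F (Fin n → F)} {w s : Fin n → F} {c : F} (hc : c ≠ 0)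
    (hw : w ∈ W) (h : w + c • s ∈ W) : s ∈ W := by
  have h1 := W.sub_mem h hw
  rw [add_sub_cancel_left] at h1
  have h2 := W.smul_mem c⁻¹ h1
  rw [smul_smul, inv_mul_cancel₀ hc, one_smul] at h2
  exact h2

end W10_aux

open W10_aux

theorem flag_ug {σ : F ≃+* F} (hH : Hy n σ) (hn : 2 ≤ n) (W : Submodule F (Fin n → F))
    (hU : ∀ u ∈ Uu n σ, ∀ v ∈ W, mv u v ∈ W) {i0 : Fin n} (h0 : (i0 : ℕ) = 0) (he : sv i0 ∈ W)
    (hti : ∀ v ∈ W, ∀ w ∈ W, fm σ v w = 0) : ∃ k, 0 < k ∧ 2 * k ≤ n ∧ W = Fl n k F := by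
  have hσ := hH.inv
  obtain ⟨k, hk1, hk2, hk3, hk4⟩ : ∃ k, 1 ≤ k ∧ k ≤ n ∧ Fl n k F ≤ W ∧
      (k < n → ¬ Fl n (k + 1) F ≤ W) := by
    have h1 : Fl n 1 F ≤ W := fl_one h0 he
    refine ⟨Nat.findGreatest (fun k => Fl n k F ≤ W) n, Nat.le_findGreatest (by omega) h1,
      Nat.findGreatest_le _, ?_, ?_⟩
    · exact Nat.findGreatest_spec (P := fun k => Fl n k F ≤ W) (by omega : 1 ≤ n) h1
    · intro h2
      exact Nat.findGreatest_is_greatest (P := fun k => Fl n k F ≤ W) (Nat.lt_succ_self _) h2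
  have h2k : 2 * k ≤ n := by
    by_contra hcon
    push Not at hcon
    obtain ⟨p, hp⟩ : ∃ p : Fin n, (p : ℕ) = k - 1 := ⟨⟨k - 1, by omega⟩, rfl⟩
    have h1 : (sv p : Fin n → F) ∈ W := hk3 (sv_mem_fl (by omega))
    have h2 : (sv (Fin.rev p) : Fin n → F) ∈ W := hk3 (sv_mem_fl (by rw [Fin.val_rev, hp]; omega))
    have h3 := hti _ h1 _ h2
    rw [fm_sv_left, W09_aux.sv_self] at h3
    exact one_ne_zero h3
  refine ⟨k, hk1, h2k, le_antisymm ?_ hk3⟩
  intro w0 hw0
  by_contra hcon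
  -- subtract the first coordinates
  obtain ⟨w, hw, hwlow, j0, hj0⟩ : ∃ w ∈ W, (∀ i : Fin n, (i : ℕ) < k → w i = 0) ∧ ∃ j, w j ≠ 0 := by
    have h1 : (fun i : Fin n => if (i : ℕ) < k then w0 i else 0) ∈ Fl n k F := by
      refine mem_Fl.2 fun i hi => ?_
      rw [if_neg (by omega)]
    refine ⟨w0 - fun i : Fin n => if (i : ℕ) < k then w0 i else 0, W.sub_mem hw0 (hk3 h1), ?_, ?_⟩
    · intro i hi
      rw [Pi.sub_apply, if_pos hi, sub_self]
    · rw [mem_Fl] at hcon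
      push Not at hcon
      obtain ⟨j, hj1, hj2⟩ := hcon
      refine ⟨j, ?_⟩
      rw [Pi.sub_apply, if_neg (by omega), sub_zero]
      exact hj2
  have hwhigh : ∀ i : Fin n, (i : ℕ) < k → w (Fin.rev i) = 0 := by
    intro i hi
    have h1 := hti _ (hk3 (sv_mem_fl hi)) _ hw
    rw [fm_sv_left] at h1
    exact h1
  obtain ⟨j, hj, hmax⟩ := Finset.exists_max_image (Finset.univ.filter (fun i => w i ≠ 0))
    (fun i : Fin n => (i : ℕ)) ⟨j0, Finset.mem_filter.2 ⟨Finset.mem_univ _, hj0⟩⟩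
  rw [Finset.mem_filter] at hj
  have hj1 : w j ≠ 0 := hj.2
  have hmax' : ∀ i : Fin n, (j : ℕ) < i → w i = 0 := by
    intro i hi
    by_contra h
    have := hmax i (Finset.mem_filter.2 ⟨Finset.mem_univ _, h⟩)
    omega
  have hkj : k ≤ (j : ℕ) := by
    by_contra h
    exact hj1 (hwlow j (by omega))
  have hkj' : k ≤ ((Fin.rev j : Fin n) : ℕ) := by
    by_contra h
    have := hwhigh (Fin.rev j) (by omega)
    rw [Fin.rev_rev] at this
    exact hj1 this
  have hjn := j.2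
  rw [Fin.val_rev] at hkj'
  obtain ⟨kk, hkk⟩ : ∃ kk : Fin n, (kk : ℕ) = k := ⟨⟨k, by omega⟩, rfl⟩
  have hrev : ((Fin.rev kk : Fin n) : ℕ) = n - (k + 1) := by rw [Fin.val_rev, hkk]
  refine hk4 (by omega) (fl_succ hkk hk3 ?_)
  by_cases hjk : j = kk
  · -- `w` is a multiple of `sv k`
    have h1 : w = w kk • (sv kk : Fin n → F) := by
      funext i
      rw [Pi.smul_apply, smul_eq_mul]
      by_cases h : i = kk
      · rw [h, W09_aux.sv_self, mul_one]
      · rw [W09_aux.sv_ne h, mul_zero]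
        have h2 : (i : ℕ) ≠ (kk : ℕ) := fun h' => h (Fin.ext h')
        rcases Nat.lt_or_ge (i : ℕ) k with h3 | h3
        · exact hwlow i h3
        · refine hmax' i ?_
          rw [hjk]
          omega
    have h2 : w kk ≠ 0 := by
      rw [← hjk]
      exact hj1
    have h3 := W.smul_mem (w kk)⁻¹ hw
    rw [h1, smul_smul] at h3
    rw [Pi.smul_apply, smul_eq_mul, W09_aux.sv_self, mul_one, inv_mul_cancel₀ h2, one_smul] at h3
    exact h3
  · have hkj2 : k < (j : ℕ) := by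
      refine lt_of_le_of_ne hkj fun h => hjk (Fin.ext ?_)
      rw [hkk, h]
    have hlt : kk < Fin.rev kk := by
      rw [Fin.lt_def, hrev, hkk]
      omega
    have hvv : fm σ (sv kk) (sv kk : Fin n → F) = 0 := by
      rw [fm_sv_left, W09_aux.sv_ne (ne_of_lt hlt).symm]
    by_cases hjr : j = Fin.rev kk
    · have hadm : Adm σ (sv kk) (0 : Fin n → F) 1 := by
        refine ⟨hvv, fm_zero_right _ _, ?_⟩
        rw [map_one, fm_zero_right, CharTwo.add_self_eq_zero]
      have h1 := hU _ (ei_mem_Uu hσ hlt hadm fun i _ => rfl) w hw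
      rw [mv_ei hσ hadm, smul_zero, add_zero, fm_zero_left, zero_smul, add_zero, one_mul,
        fm_sv_left] at h1
      refine mem_of_add ?_ hw h1
      rw [← hjr]
      exact hj1
    · have hjlt : (j : ℕ) < ((Fin.rev kk : Fin n) : ℕ) := by
        have h1 : (j : ℕ) ≠ ((Fin.rev kk : Fin n) : ℕ) := fun h => hjr (Fin.ext h)
        rw [hrev] at h1 ⊢
        omega
      obtain ⟨z, hz⟩ := exists_tr (y := fm σ (sv (Fin.rev j)) (sv (Fin.rev j) : Fin n → F)) hσ
        (fm_swap hσ _ _) (fun h => fm_self hH h _)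
      have hne : Fin.rev kk ≠ Fin.rev j := fun h => hjk (Fin.rev_injective h).symm
      have hadm : Adm σ (sv kk) (sv (Fin.rev j) : Fin n → F) z := by
        refine ⟨hvv, ?_, hz⟩
        rw [fm_sv_left, W09_aux.sv_ne hne]
      have hu : ei σ (sv kk) (sv (Fin.rev j) : Fin n → F) z ∈ Uu n σ := by
        refine ei_mem_Uu hσ hlt hadm fun i hi => W09_aux.sv_ne fun h => ?_
        rw [h, Fin.rev_le_rev, Fin.le_def] at hi
        omega
      have h1 := hU _ hu w hw
      have h2 : fm σ (sv kk) w = 0 := by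
        rw [fm_sv_left]
        exact hmax' _ hjlt
      rw [mv_ei hσ hadm, h2, zero_smul, add_zero, mul_zero, zero_smul, add_zero, fm_sv_left,
        Fin.rev_rev] at h1
      exact mem_of_add hj1 hw h1

end

end CF
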