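import Pool.Agent.CF.W05
import Pool.Agent.CF.W10

/-!
# MP_6c3636_al, CF, module W11: subgroups which contain the unitriangular isometries (helper7)

`p = sv 0`, isotropic (`n ≥ 2`); all `ei σ p a z` are in `Uu ≤ X` (`ei_first`). If some `x ∈ X` has `fm (x p) p ≠ 0`, then `EG n σ ≤ X` (`tits_ei`). Otherwise `fm (x p) (y p) = fm (y⁻¹ x p) p = 0` for all `x, y ∈ X`, so the span `W` of the `x p`, `x ∈ X`, is totally isotropic and invariant under `X` (so `X ≤ St W`), and `W = Fl n k F` by `flag_ug`. `EG_not_le`: `ei σ (sv last) 0 1` maps `sv 0` to `sv 0 + sv last`, and the last coordinate of the vectors in `Fl n k F` is `0` for `k < n`.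
-/

namespace CF

noncomputable section

open Classical Matrix

variable {n : ℕ} {F : Type} [Field F] [Finite F] [CharP F 2]

namespace W11_aux

/-- the span of the orbit of `p` -/
def Wp (X : Subgroup (GL (Fin n) F)) (p : Fin n → F) : Submodule F (Fin n → F) :=
  Submodule.span F {v | ∃ x ∈ X, v = mv x p}

omit [Finite F] [CharP F 2] in
theorem mem_Wp {X : Subgroup (GL (Fin n) F)} {p : Fin n → F} {x : GL (Fin n) F} (hx : x ∈ X) :
    mv x p ∈ Wp X p := Submodule.subset_span ⟨x, hx, rfl⟩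

omit [Finite F] [CharP F 2] in
theorem Wp_inv {X : Subgroup (GL (Fin n) F)} {p : Fin n → F} {x : GL (Fin n) F} (hx : x ∈ X)
    {v : Fin n → F} (hv : v ∈ Wp X p) : mv x v ∈ Wp X p := by
  refine Submodule.span_induction (p := fun v _ => mv x v ∈ Wp X p) ?_ ?_ ?_ ?_ hv
  · rintro w ⟨y, hy, rfl⟩
    rw [← mv_mul]
    exact mem_Wp (X.mul_mem hx hy)
  · rw [mv_zero]
    exact Submodule.zero_mem _
  · intro a b _ _ ha hb
    rw [mv_add]
    exact Submodule.add_mem _ ha hb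
  · intro c a _ ha
    rw [mv_smul]
    exact Submodule.smul_mem _ c ha

theorem Wp_iso {σ : F ≃+* F} {X : Subgroup (GL (Fin n) F)} {p : Fin n → F}
    (h : ∀ x ∈ X, ∀ y ∈ X, fm σ (mv x p) (mv y p) = 0) {v w : Fin n → F} (hv : v ∈ Wp X p)
    (hw : w ∈ Wp X p) : fm σ v w = 0 := by
  have h1 : ∀ x ∈ X, ∀ w ∈ Wp X p, fm σ (mv x p) w = 0 := by
    intro x hx w hw
    refine Submodule.span_induction (p := fun w _ => fm σ (mv x p) w = 0) ?_ ?_ ?_ ?_ hw
    · rintro w ⟨y, hy, rfl⟩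
      exact h x hx y hy
    · exact fm_zero_right σ _
    · intro a b _ _ ha hb
      rw [fm_add_right, ha, hb, add_zero]
    · intro c a _ ha
      rw [fm_smul_right, ha, mul_zero]
  refine Submodule.span_induction (p := fun v _ => fm σ v w = 0) ?_ ?_ ?_ ?_ hv
  · rintro v ⟨x, hx, rfl⟩
    exact h1 x hx w hw
  · exact fm_zero_left σ _
  · intro a b _ _ ha hb
    rw [fm_add_left, ha, hb, add_zero]
  · intro c a _ ha
    rw [fm_smul_left, ha, mul_zero]

omit [Finite F] [CharP F 2] in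
theorem sv_ne {i j : Fin n} (h : j ≠ i) : (sv i : Fin n → F) j = 0 := by
  rw [sv, Pi.single_eq_of_ne h]

omit [Finite F] [CharP F 2] in
theorem sv_same (i : Fin n) : (sv i : Fin n → F) i = 1 := by
  rw [sv, Pi.single_eq_same]

theorem rev_ne (hn : 2 ≤ n) {i0 : Fin n} (h0 : (i0 : ℕ) = 0) : Fin.rev i0 ≠ i0 := by
  intro h
  have h1 := congrArg Fin.val h
  rw [Fin.val_rev, h0] at h1
  omega

end W11_aux

open W11_aux

theorem tits_ug {σ : F ≃+* F} (hH : Hy n σ) (hn : 2 ≤ n) (X : Subgroup (GL (Fin n) F))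
    (hX : X ≤ EG n σ) (hU : Uu n σ ≤ X) :
    X = EG n σ ∨ ∃ k, 0 < k ∧ 2 * k ≤ n ∧ X ≤ St (Fl n k F) := by
  obtain ⟨i0, h0⟩ : ∃ i0 : Fin n, (i0 : ℕ) = 0 := ⟨⟨0, by omega⟩, rfl⟩
  have hXU : X ≤ Ug n σ := hX.trans (EG_le hH.inv)
  have hpp : fm σ (sv i0) (sv i0) = 0 := by
    rw [fm_sv_left, sv_ne (rev_ne hn h0)]
  by_cases hc : ∃ x ∈ X, fm σ (mv x (sv i0)) (sv i0) ≠ 0
  · obtain ⟨x, hx, hne⟩ := hc
    left
    exact le_antisymm hX (tits_ei hH X hXU hpp (fun a z h => hU (ei_first hH.inv hn h0 h)) hx hne).1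
  · right
    have h1 : ∀ x ∈ X, fm σ (mv x (sv i0)) (sv i0) = 0 := by
      intro x hx
      by_contra h
      exact hc ⟨x, hx, h⟩
    have h2 : ∀ x ∈ X, ∀ y ∈ X, fm σ (mv x (sv i0)) (mv y (sv i0)) = 0 := by
      intro x hx y hy
      have h3 := mem_Ug.1 (hXU (X.inv_mem hy)) (mv x (sv i0)) (mv y (sv i0))
      rw [mv_inv, ← mv_mul] at h3
      rw [← h3]
      exact h1 _ (X.mul_mem (X.inv_mem hy) hx)
    have he : (sv i0 : Fin n → F) ∈ Wp X (sv i0) := by
      have h3 := mem_Wp (p := (sv i0 : Fin n → F)) X.one_mem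
      rwa [mv_one] at h3
    obtain ⟨k, hk, hk2, hW⟩ := flag_ug hH hn (Wp X (sv i0)) (fun u hu v hv => Wp_inv (hU hu) hv) h0 he
      (fun v hv w hw => Wp_iso h2 hv hw)
    refine ⟨k, hk, hk2, ?_⟩
    intro x hx
    rw [← hW, mem_St]
    intro v
    constructor
    · intro h
      have h3 := Wp_inv (X.inv_mem hx) h
      rwa [mv_inv] at h3
    · exact fun h => Wp_inv hx h

theorem EG_not_le {σ : F ≃+* F} (hH : Hy n σ) (hn : 2 ≤ n) {k : ℕ} (hk : 0 < k)
    (hk' : 2 * k ≤ n) : ¬ EG n σ ≤ St (Fl n k F) := by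
  intro hle
  obtain ⟨i0, h0⟩ : ∃ i0 : Fin n, (i0 : ℕ) = 0 := ⟨⟨0, by omega⟩, rfl⟩
  have hne := rev_ne hn h0
  have hA : Adm σ (sv (Fin.rev i0)) 0 1 := by
    refine ⟨?_, fm_zero_right σ _, ?_⟩
    · rw [fm_sv_left, Fin.rev_rev, sv_ne hne.symm]
    · rw [fm_zero_right, map_one]
      exact CharTwo.add_self_eq_zero 1
  have h1 := (mem_St.1 (hle (ei_mem_EG hA)) (sv i0)).2 (by
    intro i hi
    exact sv_ne (fun h => by rw [h, h0] at hi; omega))
  rw [mv_ei hH.inv hA, fm_sv_left, Fin.rev_rev, sv_same, smul_zero, fm_zero_left, zero_smul, add_zero,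
    add_zero, mul_one, one_smul] at h1
  have h2 := h1 (Fin.rev i0) (by rw [Fin.val_rev, h0]; omega)
  rw [Pi.add_apply, sv_ne hne, sv_same, zero_add] at h2
  exact one_ne_zero h2

end

end CF
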