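import Pool.Agent.CF.W03
import Pool.Agent.CF.W04

/-!
# MP_6c3636_al, CF, module W12: EG is perfect, large fixed field (helper7)

Let `D = ⁅EG n σ, EG n σ⁆`. Let `v ≠ 0` be isotropic (if `v = 0`, `ei_zero`). Choose `v'` isotropic with `fm v v' = 1`: `exists_third` for `p = q = v`, `k = 0`, gives `r` isotropic with `fm r v ≠ 0`, and `v' = c • r`. For `s ≠ 0` with `σ s = s` there is `g ∈ EG n σ` with `g v = s • v`, `g v' = s⁻¹ • v'` and `g x = x` for all `x` orthogonal to `v` and `v'`: the elements `x(y) = ei v 0 y : v' ↦ v' + y • v`, `v ↦ v` and `y(y) = ei v' 0 y : v ↦ v + y • v'` (`σ y = y`; both fix the vectors orthogonal to `v`, `v'`) generate `SL_2` of the fixed field; `w(s) = x(s) y(s⁻¹) x(s)` maps `v ↦ s⁻¹ • v'`, `v' ↦ s • v` (characteristic two: compute), and `g = w(s) w(1)` or `w(1) w(s)`. By `ei_conj` and `ei_smul`: `g * ei v a z * g⁻¹ = ei (s • v) (g a) z = ei v (s • g a) (s * s * z)`.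
The hypothesis `hq` gives `s` with `σ s = s`, `s ≠ 0`, `s ≠ 1`, so `s * s ≠ 1`. (i) `a = 0`: `g * ei v 0 y * g⁻¹ * (ei v 0 y)⁻¹ = ei v 0 ((s * s + 1) * y)` for `σ y = y` (`ei_mul`); so all `ei v 0 y`, `σ y = y`, are in `D`. (ii) By `ei_shift` we may assume `fm v' a = 0` (replace `a` by `a + l • v` with `fm v' (a + l • v) = 0`; `fm v' v = σ 1 = 1`). Then `g a = a`. Let `b = (s + 1)⁻¹ • a` and `z'` with `Adm σ v b z'` (`exists_tr`; `fm b b = 0` if `σ = 1`, `fm_self`). `g * ei v b z' * g⁻¹ * (ei v b z')⁻¹ = ei v (s • b) (s * s * z') * ei v b (σ z') = ei v ((s + 1) • b) (..) = ei v a z''`. So `ei v a z'' ∈ D`, and `ei v a z = ei v a z'' * ei v 0 (z + z'')` where `z + z''` is fixed by `σ`.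
-/

namespace CF

noncomputable section

open Classical Matrix

variable {n : ℕ} {F : Type} [Field F] [Finite F] [CharP F 2]

namespace W12_aux

omit [CharP F 2] in
theorem exists_fixed {σ : F ≃+* F} (hq : 2 < Nat.card {x : F // σ x = x}) :
    ∃ s : F, σ s = s ∧ s ≠ 0 ∧ s ≠ 1 := by
  by_contra hcon
  push Not at hcon
  have h1 : {x : F | σ x = x} ⊆ {0, 1} := by
    intro x hx
    by_cases h0 : x = 0
    · exact Or.inl h0
    · exact Or.inr (hcon x hx h0)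
  have h2 : Nat.card {x : F // σ x = x} ≤ ({0, 1} : Set F).ncard :=
    Set.ncard_le_ncard h1 (Set.toFinite _)
  have h3 : ({0, 1} : Set F).ncard ≤ 2 := by
    refine (Set.ncard_insert_le _ _).trans ?_
    rw [Set.ncard_singleton]
  omega

theorem adm0 {σ : F ≃+* F} {v : Fin n → F} (hv : fm σ v v = 0) {y : F} (hy : σ y = y) : Adm σ v 0 y := by
  refine ⟨hv, fm_zero_right σ v, ?_⟩
  rw [hy, fm_zero_right, CharTwo.add_self_eq_zero]

theorem mv_x {σ : F ≃+* F} (hσ : ∀ x, σ (σ x) = x) {v : Fin n → F} (hv : fm σ v v = 0) {y : F}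
    (hy : σ y = y) (x : Fin n → F) : mv (ei σ v 0 y) x = x + (y * fm σ v x) • v := by
  rw [mv_ei hσ (adm0 hv hy), smul_zero, add_zero, fm_zero_left, zero_smul, add_zero]

theorem exists_partner {σ : F ≃+* F} (hH : Hy n σ) {v : Fin n → F} (hv0 : v ≠ 0) (hv : fm σ v v = 0) :
    ∃ v' : Fin n → F, fm σ v' v' = 0 ∧ fm σ v v' = 1 ∧ fm σ v' v = 1 := by
  have hvW : v ∈ Wk n 0 F := by
    intro i hi
    exact absurd ⟨Nat.zero_le _, by omega⟩ hi
  obtain ⟨r, -, hr, hrv, -⟩ := exists_third hH hvW hvW hv0 hv0 hv hv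
  have h1 : fm σ v r ≠ 0 := by
    rw [← fm_swap hH.inv r v]
    intro h
    exact hrv ((map_eq_zero σ).1 h)
  have h2 : fm σ v ((fm σ v r)⁻¹ • r) = 1 := by
    rw [fm_smul_right, inv_mul_cancel₀ h1]
  refine ⟨(fm σ v r)⁻¹ • r, ?_, h2, ?_⟩
  · rw [fm_smul_left, fm_smul_right, hr, mul_zero, mul_zero]
  · rw [← fm_swap hH.inv v, h2, map_one]

/-- the element `w(s)` -/
def ww (σ : F ≃+* F) (v v' : Fin n → F) (s : F) : GL (Fin n) F :=
  ei σ v 0 s * ei σ v' 0 s⁻¹ * ei σ v 0 s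

omit [Finite F] in
theorem char_add_add (x y : Fin n → F) : x + y + x = y := by
  have h : x + x = 0 := by
    funext i
    exact CharTwo.add_self_eq_zero (x i)
  rw [add_right_comm, h, zero_add]

theorem ww_mem {σ : F ≃+* F} {v v' : Fin n → F} (hv : fm σ v v = 0) (hv' : fm σ v' v' = 0) {s : F}
    (hs : σ s = s) : ww σ v v' s ∈ EG n σ := by
  have hs' : σ s⁻¹ = s⁻¹ := by rw [map_inv₀, hs]
  exact mul_mem (mul_mem (ei_mem_EG (adm0 hv hs)) (ei_mem_EG (adm0 hv' hs'))) (ei_mem_EG (adm0 hv hs))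

theorem ww_v {σ : F ≃+* F} (hσ : ∀ x, σ (σ x) = x) {v v' : Fin n → F} (hv : fm σ v v = 0)
    (hv' : fm σ v' v' = 0) (h1 : fm σ v v' = 1) (h2 : fm σ v' v = 1) {s : F} (hs : σ s = s) (hs0 : s ≠ 0) :
    mv (ww σ v v' s) v = s⁻¹ • v' := by
  have hs' : σ s⁻¹ = s⁻¹ := by rw [map_inv₀, hs]
  have e1 : mv (ei σ v 0 s) v = v := by
    rw [mv_x hσ hv hs, hv, mul_zero, zero_smul, add_zero]
  have e2 : mv (ei σ v' 0 s⁻¹) v = v + s⁻¹ • v' := by
    rw [mv_x hσ hv' hs', h2, mul_one]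
  have e3 : mv (ei σ v 0 s) (v + s⁻¹ • v') = s⁻¹ • v' := by
    rw [mv_x hσ hv hs, fm_add_right, hv, zero_add, fm_smul_right, h1, mul_one, mul_inv_cancel₀ hs0, one_smul]
    exact char_add_add _ _
  rw [ww, mv_mul, mv_mul, e1, e2, e3]

theorem ww_v' {σ : F ≃+* F} (hσ : ∀ x, σ (σ x) = x) {v v' : Fin n → F} (hv : fm σ v v = 0)
    (hv' : fm σ v' v' = 0) (h1 : fm σ v v' = 1) (h2 : fm σ v' v = 1) {s : F} (hs : σ s = s) (hs0 : s ≠ 0) :
    mv (ww σ v v' s) v' = s • v := by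
  have hs' : σ s⁻¹ = s⁻¹ := by rw [map_inv₀, hs]
  have e1 : mv (ei σ v 0 s) v' = v' + s • v := by
    rw [mv_x hσ hv hs, h1, mul_one]
  have e2 : mv (ei σ v' 0 s⁻¹) (v' + s • v) = s • v := by
    rw [mv_x hσ hv' hs', fm_add_right, hv', zero_add, fm_smul_right, h2, mul_one, inv_mul_cancel₀ hs0, one_smul]
    exact char_add_add _ _
  have e3 : mv (ei σ v 0 s) (s • v) = s • v := by
    rw [mv_x hσ hv hs, fm_smul_right, hv, mul_zero, mul_zero, zero_smul, add_zero]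
  rw [ww, mv_mul, mv_mul, e1, e2, e3]

theorem ww_fix {σ : F ≃+* F} (hσ : ∀ x, σ (σ x) = x) {v v' : Fin n → F} (hv : fm σ v v = 0)
    (hv' : fm σ v' v' = 0) {s : F} (hs : σ s = s) {x : Fin n → F} (hx : fm σ v x = 0) (hx' : fm σ v' x = 0) :
    mv (ww σ v v' s) x = x := by
  have hs' : σ s⁻¹ = s⁻¹ := by rw [map_inv₀, hs]
  have e1 : mv (ei σ v 0 s) x = x := by
    rw [mv_x hσ hv hs, hx, mul_zero, zero_smul, add_zero]
  have e2 : mv (ei σ v' 0 s⁻¹) x = x := by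
    rw [mv_x hσ hv' hs', hx', mul_zero, zero_smul, add_zero]
  rw [ww, mv_mul, mv_mul, e1, e2, e1]

/-- the torus element -/
theorem exists_torus {σ : F ≃+* F} (hσ : ∀ x, σ (σ x) = x) {v v' : Fin n → F} (hv : fm σ v v = 0)
    (hv' : fm σ v' v' = 0) (h1 : fm σ v v' = 1) (h2 : fm σ v' v = 1) {s : F} (hs : σ s = s) (hs0 : s ≠ 0) :
    ∃ g ∈ EG n σ, mv g v = s • v ∧ ∀ x, fm σ v x = 0 → fm σ v' x = 0 → mv g x = x := by
  have h1s : σ (1 : F) = 1 := map_one σ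
  refine ⟨ww σ v v' s * ww σ v v' 1, mul_mem (ww_mem hv hv' hs) (ww_mem hv hv' h1s), ?_, fun x hx hx' => ?_⟩
  · rw [mv_mul, ww_v hσ hv hv' h1 h2 h1s one_ne_zero, inv_one, one_smul, ww_v' hσ hv hv' h1 h2 hs hs0]
  · rw [mv_mul, ww_fix hσ hv hv' h1s hx hx', ww_fix hσ hv hv' hs hx hx']

end W12_aux

open W12_aux

theorem perf_one {σ : F ≃+* F} (hH : Hy n σ) (hq : 2 < Nat.card {x : F // σ x = x})
    {v a : Fin n → F} {z : F} (h : Adm σ v a z) : ei σ v a z ∈ ⁅EG n σ, EG n σ⁆ := by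
  have hσ := hH.inv
  by_cases hv0 : v = 0
  · subst hv0
    rw [ei_zero hσ h]
    exact one_mem _
  obtain ⟨s, hs, hs0, hs1⟩ := exists_fixed hq
  have hv : fm σ v v = 0 := h.iso
  obtain ⟨v', hv', h1, h2⟩ := exists_partner hH hv0 hv
  obtain ⟨g, hg, hgv, hgx⟩ := exists_torus hσ hv hv' h1 h2 hs hs0
  have hgU : g ∈ Ug n σ := EG_le hσ hg
  have hsp : s + 1 ≠ 0 := by
    intro h0
    apply hs1
    have : s = s + 1 + 1 := by rw [add_assoc, CharTwo.add_self_eq_zero, add_zero]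
    rw [this, h0, zero_add]
  have hsp' : σ (s + 1) = s + 1 := by rw [map_add, hs, map_one]
  have hss : s * s + 1 = (s + 1) * (s + 1) := by
    have : (s + 1) * (s + 1) = s * s + 1 + (s + s) := by ring
    rw [this, CharTwo.add_self_eq_zero, add_zero]
  -- conjugation by g
  have conj : ∀ {b : Fin n → F} {y : F}, Adm σ v b y → mv g b = b →
      Adm σ v (s • b) (s * s * y) ∧ g * ei σ v b y * g⁻¹ = ei σ v (s • b) (s * s * y) := by
    intro b y hb hgb
    have e1 := ei_conj hσ hgU hb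
    have e2 := adm_conj hgU hb
    rw [hgv, hgb] at e1 e2
    have e3 := ei_smul hσ hs0 e2
    rw [hs] at e3
    exact ⟨e3.1, e1.trans e3.2⟩
  -- the case a = 0
  have case0 : ∀ y : F, σ y = y → ei σ v 0 y ∈ ⁅EG n σ, EG n σ⁆ := by
    intro y hy
    have hcc : σ (((s + 1) * (s + 1))⁻¹ * y) = ((s + 1) * (s + 1))⁻¹ * y := by
      rw [map_mul, map_inv₀, map_mul, hsp', hy]
    obtain ⟨e1, e2⟩ := conj (adm0 hv hcc) (mv_zero g)
    have hadm := adm0 hv hcc
    have e3 : g * ei σ v 0 (((s + 1) * (s + 1))⁻¹ * y) * g⁻¹ * (ei σ v 0 (((s + 1) * (s + 1))⁻¹ * y))⁻¹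
        = ei σ v 0 y := by
      rw [e2, ei_inv hσ hadm, ei_mul hσ e1 (adm_star hσ hadm), hcc, smul_zero, add_zero, fm_zero_right, add_zero]
      congr 1
      have : s * s * (((s + 1) * (s + 1))⁻¹ * y) + ((s + 1) * (s + 1))⁻¹ * y
          = (s * s + 1) * ((s + 1) * (s + 1))⁻¹ * y := by ring
      rw [this, hss, mul_inv_cancel₀ (mul_ne_zero hsp hsp), one_mul]
    rw [← e3]
    exact Subgroup.commutator_mem_commutator hg (ei_mem_EG hadm)
  -- the case a ⊥ v'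
  have case1 : ∀ (b : Fin n → F) (y : F), Adm σ v b y → fm σ v' b = 0 →
      ei σ v b y ∈ ⁅EG n σ, EG n σ⁆ := by
    intro b y hb hb'
    set b1 : Fin n → F := (s + 1)⁻¹ • b with hb1
    have hvb1 : fm σ v b1 = 0 := by rw [hb1, fm_smul_right, hb.perp, mul_zero]
    have hv'b1 : fm σ v' b1 = 0 := by rw [hb1, fm_smul_right, hb', mul_zero]
    obtain ⟨z', hz'⟩ := exists_tr hσ (fm_swap hσ b1 b1) (fun hid => fm_self hH hid b1)
    have hadm : Adm σ v b1 z' := ⟨hv, hvb1, hz'⟩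
    obtain ⟨e1, e2⟩ := conj hadm (hgx b1 hvb1 hv'b1)
    have hsum : s • b1 + b1 = b := by
      have : s • b1 + b1 = (s + 1) • b1 := by rw [add_smul, one_smul]
      rw [this, hb1, smul_smul, mul_inv_cancel₀ hsp, one_smul]
    have hadm2 := adm_mul hσ e1 (adm_star hσ hadm)
    rw [hsum] at hadm2
    set z2 : F := s * s * z' + σ z' + fm σ (s • b1) b1 with hz2
    have e3 : g * ei σ v b1 z' * g⁻¹ * (ei σ v b1 z')⁻¹ = ei σ v b z2 := by
      rw [e2, ei_inv hσ hadm, ei_mul hσ e1 (adm_star hσ hadm), hsum]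
    have e4 : ei σ v b z2 ∈ ⁅EG n σ, EG n σ⁆ := by
      rw [← e3]
      exact Subgroup.commutator_mem_commutator hg (ei_mem_EG hadm)
    have hfix : σ (y + z2) = y + z2 := by
      have t1 := hb.tr
      have t2 := hadm2.tr
      have t3 : y + σ y = z2 + σ z2 := t1.trans t2.symm
      rw [map_add]
      have t4 : σ y = y + (z2 + σ z2) := by
        rw [← t3, ← add_assoc, CharTwo.add_self_eq_zero, zero_add]
      rw [t4, add_assoc, add_assoc, CharTwo.add_self_eq_zero, add_zero]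
    have e5 : ei σ v b y = ei σ v b z2 * ei σ v 0 (y + z2) := by
      rw [ei_mul hσ hadm2 (adm0 hv hfix), add_zero, fm_zero_right, add_zero]
      congr 1
      rw [add_comm y z2, ← add_assoc, CharTwo.add_self_eq_zero, zero_add]
    rw [e5]
    exact mul_mem e4 (case0 _ hfix)
  obtain ⟨k1, k2⟩ := ei_shift hσ h (fm σ v' a)
  rw [k2]
  refine case1 _ _ k1 ?_
  rw [fm_add_right, fm_smul_right, h2, mul_one, CharTwo.add_self_eq_zero]

end

end CF
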