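import Pool.Agent.CF.W03
import Pool.Agent.CF.W04

/-!
# MP_6c3636_al, CF, module W13: EG is perfect, dimension at least four (helper7)

Let `D = ⁅EG n σ, EG n σ⁆`, `v ≠ 0` isotropic (`ei_zero` if `v = 0`), `v'` isotropic with `fm v v' = 1` (`exists_third`, `k = 0`, `p = q = v`), `W = {x : fm v x = 0 and fm v' x = 0}` (a subspace of dimension `n - 2 ≥ 2` on which the form is nondegenerate: every `x` is the sum of a combination of `v`, `v'` and an element of `W`). Let `A = {a ∈ W : ∃ z, Adm σ v a z ∧ ei v a z ∈ D}`; it is closed under addition (`ei_mul`). For `b ∈ W` isotropic and `a ∈ W` the element `g = ei b 0 1` fixes `v`, `v'`, maps `a` to `a + fm b a • b`; with `Adm σ v a z` (`exists_tr`) `g * ei v a z * g⁻¹ * (ei v a z)⁻¹ = ei v (g a) z * ei v a (σ z) = ei v (fm b a • b) (..)` (`ei_conj`, `ei_mul`, characteristic two), so `fm b a • b ∈ A`. So `A` contains all isotropic vectors of `W`. `W` contains an isotropic vector `y ≠ 0` (square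 roots in the finite field of characteristic two), hence for every `w ≠ 0` in `W` an isotropic `b` with `fm b w ≠ 0`, hence every element of `W` is the sum of two isotropic elements of `W`. So `A = W`. For `a, b ∈ W` the commutator of `ei v a z` and `ei v b w` is `ei v 0 (l + σ l)`, `l = fm a b`; so all `ei v 0 y`, `σ y = y`, are in `D`. For a general `Adm σ v a z` use `ei_shift` to get `a ∈ W`.
-/

namespace CF

noncomputable section

open Classical Matrix

variable {n : ℕ} {F : Type} [Field F] [Finite F] [CharP F 2]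

namespace W13_aux

/-- the orthogonal space of `v`, `v'` -/
def InW (σ : F ≃+* F) (v v' x : Fin n → F) : Prop := fm σ v x = 0 ∧ fm σ v' x = 0

theorem two (x : F) : x + x = 0 := CharTwo.add_self_eq_zero x

theorem twov (x : Fin n → F) : x + x = 0 := by
  funext i
  exact two (x i)

theorem canc (x y : F) : x + (x + y) = y := by
  rw [← add_assoc, two, zero_add]

theorem InW.add {σ : F ≃+* F} {v v' x y : Fin n → F} (hx : InW σ v v' x) (hy : InW σ v v' y) :
    InW σ v v' (x + y) :=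
  ⟨by rw [fm_add_right, hx.1, hy.1, add_zero], by rw [fm_add_right, hx.2, hy.2, add_zero]⟩

theorem InW.smul {σ : F ≃+* F} {v v' x : Fin n → F} (hx : InW σ v v' x) (c : F) :
    InW σ v v' (c • x) :=
  ⟨by rw [fm_smul_right, hx.1, mul_zero], by rw [fm_smul_right, hx.2, mul_zero]⟩

theorem fm_symm {σ : F ≃+* F} (hσ : ∀ x, σ (σ x) = x) {v w : Fin n → F} (h : fm σ v w = 0) :
    fm σ w v = 0 := by
  rw [← fm_swap hσ, h, map_zero]

theorem fm_symm_ne {σ : F ≃+* F} (hσ : ∀ x, σ (σ x) = x) {v w : Fin n → F}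
    (h : fm σ v w ≠ 0) : fm σ w v ≠ 0 :=
  fun h' => h (fm_symm hσ h')

/-- the data `v`, `v'` -/
structure Hyp (σ : F ≃+* F) (v v' : Fin n → F) : Prop where
  iso : fm σ v v = 0
  iso' : fm σ v' v' = 0
  one : fm σ v v' = 1
  one' : fm σ v' v = 1

theorem nd {σ : F ≃+* F} (hσ : ∀ x, σ (σ x) = x) {v v' : Fin n → F} (h : Hyp σ v v')
    {b : Fin n → F} (hb : InW σ v v' b) (hb0 : b ≠ 0) :
    ∃ a, InW σ v v' a ∧ fm σ b a ≠ 0 := by
  obtain ⟨w, hw⟩ : ∃ w, fm σ b w ≠ 0 := by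
    by_contra hcon
    push Not at hcon
    exact hb0 (fm_nd hcon)
  refine ⟨w + fm σ v' w • v + fm σ v w • v', ⟨?_, ?_⟩, ?_⟩
  · rw [fm_add_right, fm_add_right, fm_smul_right, fm_smul_right, h.iso, h.one, mul_zero,
      add_zero, mul_one, two]
  · rw [fm_add_right, fm_add_right, fm_smul_right, fm_smul_right, h.one', h.iso', mul_zero,
      add_zero, mul_one, two]
  · rw [fm_add_right, fm_add_right, fm_smul_right, fm_smul_right, fm_symm hσ hb.1,
      fm_symm hσ hb.2, mul_zero, mul_zero, add_zero, add_zero]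
    exact hw

theorem fm_fix {σ : F ≃+* F} (hσ : ∀ x, σ (σ x) = x) (x : Fin n → F) :
    σ (fm σ x x) = fm σ x x := fm_swap hσ x x

/-- trace is surjective -/
theorem tr_surj {σ : F ≃+* F} (hσ : ∀ x, σ (σ x) = x) (hs : ∃ x, σ x ≠ x) {y : F}
    (hy : σ y = y) : ∃ l, l + σ l = y :=
  exists_tr hσ hy (fun h => absurd h (by
    obtain ⟨x, hx⟩ := hs
    exact fun h => hx (h x)))

/-- a nonzero isotropic vector in `W` -/
theorem exists_iso {σ : F ≃+* F} (hσ : ∀ x, σ (σ x) = x) (hn : 4 ≤ n) {v v' : Fin n → F} :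
    ∃ y, InW σ v v' y ∧ y ≠ 0 ∧ fm σ y y = 0 := by
  let φ : (Fin n → F) →ₗ[F] F × F :=
    { toFun := fun x => (fm σ v x, fm σ v' x)
      map_add' := fun x y => by rw [fm_add_right, fm_add_right]; rfl
      map_smul' := fun c x => by rw [fm_smul_right, fm_smul_right]; rfl }
  have hr := LinearMap.finrank_range_add_finrank_ker φ
  have h1 : Module.finrank F (LinearMap.range φ) ≤ 2 := by
    refine (Submodule.finrank_le _).trans ?_
    rw [Module.finrank_prod, Module.finrank_self]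
  rw [Module.finrank_fin_fun] at hr
  have h2 : 1 < Module.finrank F (LinearMap.ker φ) := by omega
  have h3 : 0 < Module.finrank F (LinearMap.ker φ) := by omega
  have hnt : Nontrivial (LinearMap.ker φ) := Module.nontrivial_of_finrank_pos h3
  obtain ⟨x, hx⟩ := exists_ne (0 : LinearMap.ker φ)
  obtain ⟨y, hy⟩ := exists_linearIndependent_pair_of_one_lt_finrank h2 hx
  have hxW : InW σ v v' (x : Fin n → F) := by
    have := x.2
    rw [LinearMap.mem_ker] at this
    exact ⟨congrArg Prod.fst this, congrArg Prod.snd this⟩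
  have hyW : InW σ v v' (y : Fin n → F) := by
    have := y.2
    rw [LinearMap.mem_ker] at this
    exact ⟨congrArg Prod.fst this, congrArg Prod.snd this⟩
  have hx0 : (x : Fin n → F) ≠ 0 := fun h => hx (Subtype.ext h)
  rw [LinearIndependent.pair_iff] at hy
  have hli : ∀ s t : F, s • (x : Fin n → F) + t • (y : Fin n → F) = 0 → s = 0 ∧ t = 0 := by
    intro s t hst
    exact hy s t (Subtype.ext hst)
  by_cases hq : fm σ (x : Fin n → F) x = 0
  · exact ⟨x, hxW, hx0, hq⟩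
  set q := fm σ (x : Fin n → F) x with hqdef
  set c := fm σ (x : Fin n → F) y * q⁻¹ with hc
  set u : Fin n → F := (y : Fin n → F) + c • (x : Fin n → F) with hu
  have huW : InW σ v v' u := hyW.add (hxW.smul c)
  have hu0 : u ≠ 0 := by
    intro h
    have := hli c 1 (by rw [one_smul, add_comm]; exact h)
    exact one_ne_zero this.2
  have hxu : fm σ (x : Fin n → F) u = 0 := by
    rw [hu, fm_add_right, fm_smul_right, ← hqdef, hc, mul_assoc, inv_mul_cancel₀ hq, mul_one,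
      two]
  by_cases hq' : fm σ u u = 0
  · exact ⟨u, huW, hu0, hq'⟩
  set q' := fm σ u u with hq'def
  -- square root
  obtain ⟨s, hs⟩ : ∃ s : F, s * s = q * q'⁻¹ := by
    obtain ⟨s, hs⟩ := (FiniteField.isSquare_of_char_two (ringChar.eq F 2 ▸ rfl) (q * q'⁻¹))
    exact ⟨s, hs.symm⟩
  have hqs : σ q = q := fm_fix hσ _
  have hqs' : σ q' = q' := fm_fix hσ _
  have hsf : σ s = s := by
    have h4 : (σ s + s) * (σ s + s) = 0 := by
      have h5 : σ s * σ s = s * s := by
        rw [← map_mul, hs, map_mul, map_inv₀, hqs, hqs']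
      have h6 : (σ s + s) * (σ s + s) = (σ s * σ s + s * s) + (σ s * s + σ s * s) := by ring
      rw [h6, h5, two, two, add_zero]
    have h7 := mul_self_eq_zero.1 h4
    have h8 : σ s = σ s + s + s := by rw [add_assoc, two, add_zero]
    rw [h8, h7, zero_add]
  refine ⟨(x : Fin n → F) + s • u, hxW.add (huW.smul s), ?_, ?_⟩
  · intro h
    have h9 : (1 + s * c) • (x : Fin n → F) + s • (y : Fin n → F) = 0 := by
      rw [hu, smul_add, smul_smul] at h
      rw [add_smul, one_smul, add_assoc, add_comm ((s * c) • (x : Fin n → F))]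
      exact h
    obtain ⟨h10, h11⟩ := hli _ _ h9
    rw [h11, zero_mul, add_zero] at h10
    exact one_ne_zero h10
  · rw [fm_add_left, fm_add_right, fm_add_right, fm_smul_left, fm_smul_left, fm_smul_right,
      fm_smul_right, hxu, fm_symm hσ hxu, ← hqdef, ← hq'def, mul_zero, add_zero, mul_zero,
      zero_add, hsf, ← mul_assoc, hs, mul_assoc, inv_mul_cancel₀ hq', mul_one, two]

/-- isotropic vectors which are not orthogonal to a given vector -/
theorem exists_iso_ne {σ : F ≃+* F} (hσ : ∀ x, σ (σ x) = x) (hs : ∃ x, σ x ≠ x) (hn : 4 ≤ n)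
    {v v' : Fin n → F} (h : Hyp σ v v') {w : Fin n → F} (hw : InW σ v v' w) (hw0 : w ≠ 0) :
    ∃ b, InW σ v v' b ∧ fm σ b b = 0 ∧ fm σ b w ≠ 0 := by
  obtain ⟨y, hy, hy0, hyy⟩ := exists_iso hσ hn (v := v) (v' := v')
  by_cases hyw : fm σ y w = 0
  · obtain ⟨c, hc, hwc, hyc⟩ : ∃ c, InW σ v v' c ∧ fm σ w c ≠ 0 ∧ fm σ y c ≠ 0 := by
      obtain ⟨c1, h1, h2⟩ := nd hσ h hw hw0
      obtain ⟨c2, h3, h4⟩ := nd hσ h hy hy0
      by_cases h5 : fm σ y c1 = 0
      · by_cases h6 : fm σ w c2 = 0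
        · refine ⟨c1 + c2, h1.add h3, ?_, ?_⟩
          · rw [fm_add_right, h6, add_zero]
            exact h2
          · rw [fm_add_right, h5, zero_add]
            exact h4
        · exact ⟨c2, h3, h6, h4⟩
      · exact ⟨c1, h1, h2, h5⟩
    obtain ⟨m, hm⟩ := tr_surj hσ hs (fm_fix hσ c)
    have hcy : fm σ c y ≠ 0 := fm_symm_ne hσ hyc
    refine ⟨c + (m * (fm σ c y)⁻¹) • y, hc.add (hy.smul _), ?_, ?_⟩
    · rw [fm_add_left, fm_add_right, fm_add_right, fm_smul_left, fm_smul_left, fm_smul_right,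
        fm_smul_right, hyy, mul_zero, mul_zero, add_zero, ← fm_swap hσ c y, ← map_mul,
        mul_assoc, inv_mul_cancel₀ hcy, mul_one, ← hm]
      have : m + σ m + m + σ m = (m + m) + (σ m + σ m) := by ring
      rw [this, two, two, add_zero]
    · rw [fm_add_left, fm_smul_left, hyw, mul_zero, add_zero]
      exact fm_symm_ne hσ hwc
  · exact ⟨y, hy, hyy, hyw⟩

/-- `x` is in the image of `D` -/
def Im (σ : F ≃+* F) (v x : Fin n → F) : Prop :=
  ∃ z, Adm σ v x z ∧ ei σ v x z ∈ ⁅EG n σ, EG n σ⁆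

theorem Im.add {σ : F ≃+* F} (hσ : ∀ x, σ (σ x) = x) {v x y : Fin n → F} (hx : Im σ v x)
    (hy : Im σ v y) : Im σ v (x + y) := by
  obtain ⟨z, h1, h2⟩ := hx
  obtain ⟨w, h3, h4⟩ := hy
  refine ⟨_, adm_mul hσ h1 h3, ?_⟩
  rw [← ei_mul hσ h1 h3]
  exact Subgroup.mul_mem _ h2 h4

theorem comm_mem {σ : F ≃+* F} {g x : GL (Fin n) F} (hg : g ∈ EG n σ) (hx : x ∈ EG n σ) :
    g * x * g⁻¹ * x⁻¹ ∈ ⁅EG n σ, EG n σ⁆ :=
  Subgroup.commutator_mem_commutator hg hx

/-- elements of `W` are admissible -/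
theorem exists_adm {σ : F ≃+* F} (hσ : ∀ x, σ (σ x) = x) (hs : ∃ x, σ x ≠ x)
    {v v' : Fin n → F} (h : Hyp σ v v') {a : Fin n → F} (ha : InW σ v v' a) :
    ∃ z, Adm σ v a z := by
  obtain ⟨z, hz⟩ := tr_surj hσ hs (fm_fix hσ a)
  exact ⟨z, h.iso, ha.1, hz⟩

theorem im_smul {σ : F ≃+* F} (hσ : ∀ x, σ (σ x) = x) (hs : ∃ x, σ x ≠ x)
    {v v' : Fin n → F} (h : Hyp σ v v') {a b : Fin n → F} (ha : InW σ v v' a)
    (hb : InW σ v v' b) (hbb : fm σ b b = 0) : Im σ v (fm σ b a • b) := by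
  obtain ⟨z, hz⟩ := exists_adm hσ hs h ha
  have hg : Adm σ b 0 1 := ⟨hbb, fm_zero_right σ b, by rw [map_one, two, fm_zero_left]⟩
  have hgE := ei_mem_EG hg
  have hbv : fm σ b v = 0 := fm_symm hσ hb.1
  have h1 : mv (ei σ b 0 1) v = v := by
    rw [mv_ei hσ hg, hbv, fm_zero_left, zero_smul, zero_smul, mul_zero, zero_smul, add_zero,
      add_zero, add_zero]
  have h2 : mv (ei σ b 0 1) a = a + fm σ b a • b := by
    rw [mv_ei hσ hg, fm_zero_left, zero_smul, smul_zero, one_mul, add_zero, add_zero]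
  have h3 := ei_conj hσ (ei_mem hσ hg) hz
  have h4 := adm_conj (ei_mem hσ hg) hz
  rw [h1, h2] at h3 h4
  have h5 := comm_mem hgE (ei_mem_EG hz)
  rw [h3, ei_inv hσ hz, ei_mul hσ h4 (adm_star hσ hz)] at h5
  have h6 := adm_mul hσ h4 (adm_star hσ hz)
  have h7 : a + fm σ b a • b + a = fm σ b a • b := by
    rw [add_comm (a + fm σ b a • b) a, ← add_assoc, twov, zero_add]
  rw [h7] at h5 h6
  exact ⟨_, h6, h5⟩

theorem im_iso {σ : F ≃+* F} (hσ : ∀ x, σ (σ x) = x) (hs : ∃ x, σ x ≠ x)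
    {v v' : Fin n → F} (h : Hyp σ v v') {b : Fin n → F}
    (hb : InW σ v v' b) (hbb : fm σ b b = 0) : Im σ v b := by
  by_cases hb0 : b = 0
  · have := im_smul hσ hs h hb hb hbb
    rw [hb0, smul_zero] at this
    rw [hb0]
    exact this
  · obtain ⟨a, ha, hba⟩ := nd hσ h hb hb0
    have := im_smul hσ hs h (ha.smul (fm σ b a)⁻¹) hb hbb
    rw [fm_smul_right, inv_mul_cancel₀ hba, one_smul] at this
    exact this

theorem im_all {σ : F ≃+* F} (hσ : ∀ x, σ (σ x) = x) (hs : ∃ x, σ x ≠ x) (hn : 4 ≤ n)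
    {v v' : Fin n → F} (h : Hyp σ v v') {x : Fin n → F} (hx : InW σ v v' x) : Im σ v x := by
  by_cases hxx : fm σ x x = 0
  · exact im_iso hσ hs h hx hxx
  have hx0 : x ≠ 0 := by
    rintro rfl
    exact hxx (fm_zero_left σ 0)
  obtain ⟨b, hb, hbb, hbx⟩ := exists_iso_ne hσ hs hn h hx hx0
  have hxb : fm σ x b ≠ 0 := fm_symm_ne hσ hbx
  obtain ⟨m, hm⟩ := tr_surj hσ hs (fm_fix hσ x)
  set l := m * (fm σ x b)⁻¹ with hl
  have h1 : Im σ v (x + l • b) := by
    refine im_iso hσ hs h (hx.add (hb.smul l)) ?_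
    rw [fm_add_left, fm_add_right, fm_add_right, fm_smul_left, fm_smul_left, fm_smul_right,
      fm_smul_right, hbb, mul_zero, mul_zero, add_zero, ← fm_swap hσ x b, ← map_mul, hl,
      mul_assoc, inv_mul_cancel₀ hxb, mul_one, ← hm]
    have : m + σ m + m + σ m = (m + m) + (σ m + σ m) := by ring
    rw [this, two, two, add_zero]
  have h2 : Im σ v (l • b) := by
    refine im_iso hσ hs h (hb.smul l) ?_
    rw [fm_smul_left, fm_smul_right, hbb, mul_zero, mul_zero]
  have h3 := h1.add hσ h2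
  rw [add_assoc, twov, add_zero] at h3
  exact h3

/-- the central elements -/
theorem cen {σ : F ≃+* F} (hσ : ∀ x, σ (σ x) = x) (hs : ∃ x, σ x ≠ x) (hn : 4 ≤ n)
    {v v' : Fin n → F} (h : Hyp σ v v') {y : F} (hy : σ y = y) :
    ei σ v 0 y ∈ ⁅EG n σ, EG n σ⁆ := by
  obtain ⟨l, hl⟩ := tr_surj hσ hs hy
  obtain ⟨b, hb, hb0, hbb⟩ := exists_iso hσ hn (v := v) (v' := v')
  obtain ⟨a0, ha0, hba0⟩ := nd hσ h hb hb0
  -- `a` with `fm a b = l`
  obtain ⟨a, ha, hab⟩ : ∃ a, InW σ v v' a ∧ fm σ a b = l := by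
    refine ⟨σ (l * (fm σ a0 b)⁻¹) • a0, ha0.smul _, ?_⟩
    rw [fm_smul_left, hσ, mul_assoc, inv_mul_cancel₀ (fm_symm_ne hσ hba0), mul_one]
  obtain ⟨z, hz⟩ := exists_adm hσ hs h ha
  obtain ⟨w, hw⟩ := exists_adm hσ hs h hb
  have h1 : mv (ei σ v a z) v = v := by
    rw [mv_ei hσ hz, h.iso, fm_symm hσ ha.1, zero_smul, zero_smul, mul_zero, zero_smul,
      add_zero, add_zero, add_zero]
  have h2 : mv (ei σ v a z) b = b + l • v := by
    rw [mv_ei hσ hz, hb.1, hab, zero_smul, mul_zero, zero_smul, add_zero, add_zero]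
  have h3 := ei_conj hσ (ei_mem hσ hz) hw
  have h4 := adm_conj (ei_mem hσ hz) hw
  rw [h1, h2] at h3 h4
  have h5 := comm_mem (ei_mem_EG hz) (ei_mem_EG hw)
  rw [h3] at h5
  -- shift back
  obtain ⟨h6, h7⟩ := ei_shift hσ h4 l
  rw [h7, ei_inv hσ hw, ei_mul hσ h6 (adm_star hσ hw)] at h5
  have h8 : b + l • v + l • v + b = 0 := by
    rw [add_assoc b, twov, add_zero, twov]
  have h9 : w + l + σ l + σ w + fm σ (b + l • v + l • v) b = y := by
    rw [add_assoc b, twov, add_zero, ← hw.tr, ← hl]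
    have : w + l + σ l + σ w + (w + σ w) = (w + w) + (σ w + σ w) + (l + σ l) := by ring
    rw [this, two, two, zero_add, zero_add]
  rw [h8, h9] at h5
  exact h5

end W13_aux

open W13_aux in
theorem perf_two {σ : F ≃+* F} (hH : Hy n σ) (hs : ∃ x, σ x ≠ x) (hn : 4 ≤ n)
    {v a : Fin n → F} {z : F} (h : Adm σ v a z) : ei σ v a z ∈ ⁅EG n σ, EG n σ⁆ := by
  have hσ := hH.inv
  by_cases hv0 : v = 0
  · subst hv0
    rw [ei_zero hσ h]
    exact Subgroup.one_mem _
  have hW : v ∈ Wk n 0 F := by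
    rw [mem_Wk]
    intro i hi
    exact absurd ⟨Nat.zero_le _, by simpa using i.2⟩ hi
  obtain ⟨r, -, hrr, hrv, -⟩ := exists_third hH hW hW hv0 hv0 h.iso h.iso
  have hvr : fm σ v r ≠ 0 := fm_symm_ne hσ hrv
  set v' : Fin n → F := (fm σ v r)⁻¹ • r with hv'
  have hone : fm σ v v' = 1 := by
    rw [hv', fm_smul_right, inv_mul_cancel₀ hvr]
  have hY : Hyp σ v v' := by
    refine ⟨h.iso, ?_, hone, ?_⟩
    · rw [hv', fm_smul_left, fm_smul_right, hrr, mul_zero, mul_zero]
    · rw [← fm_swap hσ, hone, map_one]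
  set l := fm σ v' a with hl
  obtain ⟨h1, h2⟩ := ei_shift hσ h l
  have haW : InW σ v v' (a + l • v) := by
    refine ⟨?_, ?_⟩
    · rw [fm_add_right, fm_smul_right, h.perp, h.iso, mul_zero, add_zero]
    · rw [fm_add_right, fm_smul_right, hY.one', mul_one, ← hl, two]
  rw [h2]
  obtain ⟨w, h3, h4⟩ := im_all hσ hs hn hY haW
  have hfix : σ (w + (z + l + σ l)) = w + (z + l + σ l) := by
    have h5 : (w + (z + l + σ l)) + σ (w + (z + l + σ l)) = 0 := by
      have h6 : (w + (z + l + σ l)) + σ (w + (z + l + σ l)) =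
          (w + σ w) + ((z + l + σ l) + σ (z + l + σ l)) := by
        rw [map_add]; ring
      rw [h6, h3.tr, h1.tr, two]
    have h7 : σ (w + (z + l + σ l)) =
        (w + (z + l + σ l)) + ((w + (z + l + σ l)) + σ (w + (z + l + σ l))) := by
      rw [canc]
    rw [h7, h5, add_zero]
  have h8 := cen hσ hs hn hY hfix
  have h9 : Adm σ v 0 (w + (z + l + σ l)) :=
    ⟨h.iso, fm_zero_right σ v, by rw [hfix, two, fm_zero_left]⟩
  have h10 := ei_mul hσ h3 h9
  rw [fm_zero_right, add_zero, add_zero, canc] at h10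
  rw [← h10]
  exact Subgroup.mul_mem _ h4 h8

end

end CF
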