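import Pool.Agent.CF.W06
import Pool.Agent.CF.W09

/-!
# MP_6c3636_al, CF, module W17: the orders of two small groups (helper7)

`F` has four elements `0, 1, ω, ω + 1`, `σ ω = ω + 1`, `ω * ω = ω + 1`. The elements of `Ug n σ` are the matrices
whose columns have the products of the standard basis; for `n = 2, 3` they are counted in the model `Bool × Bool`
of the field (`a + b ω`).
-/

namespace CF

noncomputable section

open Classical Matrix

variable {n : ℕ} {F : Type} [Field F] [Finite F] [CharP F 2]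

namespace W17_aux

/-- the model of the field with four elements, `(a, b)` is `a + b ω` -/
abbrev B4 : Type := Bool × Bool

/-- addition -/
def ad (x y : B4) : B4 := (xor x.1 y.1, xor x.2 y.2)

/-- multiplication -/
def ml (x y : B4) : B4 :=
  (xor (x.1 && y.1) (x.2 && y.2), xor (xor (x.1 && y.2) (x.2 && y.1)) (x.2 && y.2))

/-- the involution -/
def sg (x : B4) : B4 := (xor x.1 x.2, x.2)

/-- zero -/
def b0 : B4 := (false, false)

/-- one -/
def b1 : B4 := (true, false)

/-- the form, two coordinates -/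
def q2 (x y : B4 × B4) : B4 := ad (ml (sg x.2) y.1) (ml (sg x.1) y.2)

/-- the form, three coordinates -/
def q3 (x y : B4 × B4 × B4) : B4 :=
  ad (ad (ml (sg x.2.2) y.1) (ml (sg x.2.1) y.2.1)) (ml (sg x.1) y.2.2)

/-- equality as a boolean function -/
def eqb (x y : B4) : Bool := (x.1 == y.1) && (x.2 == y.2)

theorem eqb_iff (x y : B4) : eqb x y = true ↔ x = y := by
  revert x y
  decide

/-- the four elements of `F` -/
structure Om (σ : F ≃+* F) (ω : F) : Prop where
  n0 : ω ≠ 0
  n1 : ω ≠ 1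
  s : σ ω = ω + 1
  m : ω * ω = ω + 1
  all : ∀ x : F, x = 0 ∨ x = 1 ∨ x = ω ∨ x = ω + 1

/-- the element of `F` -/
def em (ω : F) (x : B4) : F := (if x.1 then 1 else 0) + (if x.2 then ω else 0)

theorem two (x : F) : x + x = 0 := CharTwo.add_self_eq_zero x

theorem em_ad (ω : F) (x y : B4) : em ω (ad x y) = em ω x + em ω y := by
  obtain ⟨a, b⟩ := x
  obtain ⟨c, d⟩ := y
  have h1 := two (1 : F)
  have h2 := two ω
  cases a <;> cases b <;> cases c <;> cases d <;> simp [em, ad] <;>
    first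
      | linear_combination h1
      | linear_combination -h1
      | linear_combination h2
      | linear_combination -h2
      | linear_combination h1 + h2
      | linear_combination -h1 - h2
      | ring

theorem em_ml {σ : F ≃+* F} {ω : F} (h : Om σ ω) (x y : B4) :
    em ω (ml x y) = em ω x * em ω y := by
  obtain ⟨a, b⟩ := x
  obtain ⟨c, d⟩ := y
  have h1 := two (1 : F)
  have h2 := two ω
  have h3 := h.m
  cases a <;> cases b <;> cases c <;> cases d <;> simp [em, ml] <;>
    first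
      | linear_combination -h3
      | linear_combination -h3 - h2
      | linear_combination -h3 - h1
      | linear_combination -h3 - h1 - h2

theorem em_sg {σ : F ≃+* F} {ω : F} (h : Om σ ω) (x : B4) : em ω (sg x) = σ (em ω x) := by
  obtain ⟨a, b⟩ := x
  have h1 := two (1 : F)
  have h3 := h.s
  cases a <;> cases b <;> simp [em, sg, h3] <;>
    first
      | linear_combination h1
      | linear_combination -h1
      | ring

theorem om_n {σ : F ≃+* F} {ω : F} (h : Om σ ω) : ω + 1 ≠ 0 := by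
  intro h1
  apply h.n1
  have h2 := two (1 : F)
  linear_combination h1 - h2

theorem em_zero_iff {σ : F ≃+* F} {ω : F} (h : Om σ ω) (x : B4) : em ω x = 0 ↔ x = b0 := by
  obtain ⟨a, b⟩ := x
  have h1 := om_n h
  have h2 : (1 : F) + ω ≠ 0 := by rw [add_comm]; exact h1
  cases a <;> cases b <;> simp [em, b0, h.n0, h2]

theorem em_inj {σ : F ≃+* F} {ω : F} (h : Om σ ω) {x y : B4} (hxy : em ω x = em ω y) : x = y := by
  have h1 : em ω (ad x y) = 0 := by rw [em_ad, hxy, two]
  rw [em_zero_iff h] at h1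
  have key : ∀ x y : B4, ad x y = b0 → x = y := by decide
  exact key x y h1

theorem em_surj {σ : F ≃+* F} {ω : F} (h : Om σ ω) (x : F) : ∃ y : B4, em ω y = x := by
  rcases h.all x with h1 | h1 | h1 | h1
  · exact ⟨(false, false), by simp [em, h1]⟩
  · exact ⟨(true, false), by simp [em, h1]⟩
  · exact ⟨(false, true), by simp [em, h1]⟩
  · exact ⟨(true, true), by simp [em, h1, add_comm]⟩

theorem em_b0 (ω : F) : em ω b0 = 0 := by simp [em, b0]

theorem em_b1 (ω : F) : em ω b1 = 1 := by simp [em, b1]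

theorem exists_om {σ : F ≃+* F} (hσ : ∀ x, σ (σ x) = x) (hs : ∃ x, σ x ≠ x)
    (h2 : ¬ 2 < Nat.card {x : F // σ x = x}) : ∃ ω, Om σ ω := by
  -- the fixed elements
  have hfix : ∀ x : F, σ x = x → x = 0 ∨ x = 1 := by
    intro x hx
    by_contra hcon
    push Not at hcon
    apply h2
    have hinj : Function.Injective (![⟨0, map_zero σ⟩, ⟨1, map_one σ⟩, ⟨x, hx⟩] :
        Fin 3 → {x : F // σ x = x}) := by
      intro i j hij
      have e01 : (0 : F) ≠ 1 := zero_ne_one
      fin_cases i <;> fin_cases j <;> simp_all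
    have h3 := Nat.card_le_card_of_injective _ hinj
    rw [Nat.card_eq_fintype_card, Fintype.card_fin] at h3
    omega
  obtain ⟨ω, hω⟩ := hs
  have hstep : ∀ x : F, σ x ≠ x → σ x = x + 1 := by
    intro x hx
    have h3 : σ (x + σ x) = x + σ x := by rw [map_add, hσ, add_comm]
    rcases hfix _ h3 with h4 | h4
    · exfalso
      apply hx
      have := two x
      linear_combination h4 - this
    · have := two x
      linear_combination h4 - this
  have h0 : ω ≠ 0 := by
    rintro rfl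
    exact hω (map_zero σ)
  have h1 : ω ≠ 1 := by
    rintro rfl
    exact hω (map_one σ)
  have hsω := hstep ω hω
  refine ⟨ω, h0, h1, hsω, ?_, ?_⟩
  · have h3 : σ (ω * σ ω) = ω * σ ω := by rw [map_mul, hσ, mul_comm]
    rcases hfix _ h3 with h4 | h4
    · exfalso
      rcases mul_eq_zero.mp h4 with h5 | h5
      · exact h0 h5
      · exact h0 ((map_eq_zero σ).mp h5)
    · rw [hsω] at h4
      have := two ω
      have h5 := two (1 : F)
      linear_combination h4 - this
  · intro x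
    by_cases hx : σ x = x
    · rcases hfix x hx with h3 | h3
      · exact Or.inl h3
      · exact Or.inr (Or.inl h3)
    · have h3 := hstep x hx
      have h4 : σ (x + ω) = x + ω := by
        rw [map_add, h3, hsω]
        have := two (1 : F)
        linear_combination this
      have h5 := two ω
      rcases hfix _ h4 with h6 | h6
      · right; right; left
        linear_combination h6 - h5
      · right; right; right
        linear_combination h6 - h5

theorem card_F {σ : F ≃+* F} {ω : F} (h : Om σ ω) : Nat.card F = 4 := by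
  have e : B4 ≃ F := Equiv.ofBijective (em ω)
    ⟨fun _ _ hxy => em_inj h hxy, fun x => em_surj h x⟩
  rw [← Nat.card_congr e, Nat.card_eq_fintype_card]
  rfl

theorem em_q2 {σ : F ≃+* F} {ω : F} (h : Om σ ω) (x y : B4 × B4) :
    em ω (q2 x y) = σ (em ω x.2) * em ω y.1 + σ (em ω x.1) * em ω y.2 := by
  unfold q2
  rw [em_ad, em_ml h, em_ml h, em_sg h, em_sg h]

theorem em_q3 {σ : F ≃+* F} {ω : F} (h : Om σ ω) (x y : B4 × B4 × B4) :
    em ω (q3 x y) = σ (em ω x.2.2) * em ω y.1 + σ (em ω x.2.1) * em ω y.2.1 +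
      σ (em ω x.1) * em ω y.2.2 := by
  unfold q3
  rw [em_ad, em_ad, em_ml h, em_ml h, em_ml h, em_sg h, em_sg h, em_sg h]

/-- the columns, two of them -/
def c2 (p : (B4 × B4) × B4 × B4) : Fin 2 → B4 × B4 := ![p.1, p.2]

/-- the columns, three of them -/
def c3 (p : (B4 × B4 × B4) × (B4 × B4 × B4) × (B4 × B4 × B4)) : Fin 3 → B4 × B4 × B4 :=
  ![p.1, p.2.2, p.2.1]

/-- the condition for the columns -/
def P2 (p : (B4 × B4) × B4 × B4) : Prop :=
  ∀ i j : Fin 2, q2 (c2 p (Fin.rev i)) (c2 p j) = if i = j then b1 else b0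

/-- the condition for the columns -/
def P3 (p : (B4 × B4 × B4) × (B4 × B4 × B4) × (B4 × B4 × B4)) : Prop :=
  ∀ i j : Fin 3, q3 (c3 p (Fin.rev i)) (c3 p j) = if i = j then b1 else b0

/-- the matrix -/
def M2 (ω : F) (p : (B4 × B4) × B4 × B4) : Matrix (Fin 2) (Fin 2) F :=
  fun i j => em ω ((![(c2 p j).1, (c2 p j).2] : Fin 2 → B4) i)

/-- the matrix -/
def M3 (ω : F) (p : (B4 × B4 × B4) × (B4 × B4 × B4) × (B4 × B4 × B4)) : Matrix (Fin 3) (Fin 3) F :=
  fun i j => em ω ((![(c3 p j).1, (c3 p j).2.1, (c3 p j).2.2] : Fin 3 → B4) i)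

theorem M2_iff {σ : F ≃+* F} {ω : F} (h : Om σ ω) (p : (B4 × B4) × B4 × B4) :
    LieP.adj σ Fin.revPerm (M2 ω p) * M2 ω p = 1 ↔ P2 p := by
  have key : ∀ i j : Fin 2, (LieP.adj σ Fin.revPerm (M2 ω p) * M2 ω p) i j =
      em ω (q2 (c2 p (Fin.rev i)) (c2 p j)) := by
    intro i j
    rw [Matrix.mul_apply, Fin.sum_univ_two, em_q2 h]
    rfl
  constructor
  · intro h1 i j
    have h2 := key i j
    rw [h1, Matrix.one_apply] at h2
    apply em_inj h
    rw [← h2]
    split_ifs
    · exact (em_b1 ω).symm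
    · exact (em_b0 ω).symm
  · intro h1
    ext i j
    rw [key, h1 i j, Matrix.one_apply]
    split_ifs
    · exact em_b1 ω
    · exact em_b0 ω

theorem M3_iff {σ : F ≃+* F} {ω : F} (h : Om σ ω)
    (p : (B4 × B4 × B4) × (B4 × B4 × B4) × (B4 × B4 × B4)) :
    LieP.adj σ Fin.revPerm (M3 ω p) * M3 ω p = 1 ↔ P3 p := by
  have key : ∀ i j : Fin 3, (LieP.adj σ Fin.revPerm (M3 ω p) * M3 ω p) i j =
      em ω (q3 (c3 p (Fin.rev i)) (c3 p j)) := by
    intro i j
    rw [Matrix.mul_apply, Fin.sum_univ_three, em_q3 h]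
    rfl
  constructor
  · intro h1 i j
    have h2 := key i j
    rw [h1, Matrix.one_apply] at h2
    apply em_inj h
    rw [← h2]
    split_ifs
    · exact (em_b1 ω).symm
    · exact (em_b0 ω).symm
  · intro h1
    ext i j
    rw [key, h1 i j, Matrix.one_apply]
    split_ifs
    · exact em_b1 ω
    · exact em_b0 ω

theorem card_U2 {σ : F ≃+* F} {ω : F} (h : Om σ ω) :
    Nat.card (Ug 2 σ) = Nat.card {p : (B4 × B4) × B4 × B4 // P2 p} := by
  symm
  have hM : ∀ p : {p : (B4 × B4) × B4 × B4 // P2 p},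
      LieP.adj σ Fin.revPerm (M2 ω p.1) * M2 ω p.1 = 1 := fun p => (M2_iff h p.1).mpr p.2
  refine Nat.card_congr (Equiv.ofBijective
    (fun p => (⟨⟨M2 ω p.1, LieP.adj σ Fin.revPerm (M2 ω p.1), mul_eq_one_comm.mp (hM p), hM p⟩, hM p⟩ :
      Ug 2 σ)) ⟨?_, ?_⟩)
  · intro p p' hp
    have h1 : M2 ω p.1 = M2 ω p'.1 := congrArg Units.val (congrArg Subtype.val hp)
    have h2 : ∀ i j : Fin 2, (![(c2 p.1 j).1, (c2 p.1 j).2] : Fin 2 → B4) i =
        (![(c2 p'.1 j).1, (c2 p'.1 j).2] : Fin 2 → B4) i := fun i j => em_inj h (congrFun (congrFun h1 i) j)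
    apply Subtype.ext
    exact Prod.ext (Prod.ext (h2 0 0) (h2 1 0)) (Prod.ext (h2 0 1) (h2 1 1))
  · intro g
    choose e he using em_surj h
    let m : Matrix (Fin 2) (Fin 2) F := ((g : GL (Fin 2) F) : Matrix _ _ F)
    let p : (B4 × B4) × B4 × B4 := ((e (m 0 0), e (m 1 0)), (e (m 0 1), e (m 1 1)))
    have hm : M2 ω p = m := by
      ext i j
      fin_cases i <;> fin_cases j <;> exact he _
    have hP : P2 p := by
      rw [← M2_iff h, hm]
      exact g.2
    refine ⟨⟨p, hP⟩, ?_⟩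
    apply Subtype.ext
    apply Units.ext
    exact hm

theorem card_U3 {σ : F ≃+* F} {ω : F} (h : Om σ ω) :
    Nat.card (Ug 3 σ) =
      Nat.card {p : (B4 × B4 × B4) × (B4 × B4 × B4) × (B4 × B4 × B4) // P3 p} := by
  symm
  have hM : ∀ p : {p : (B4 × B4 × B4) × (B4 × B4 × B4) × (B4 × B4 × B4) // P3 p},
      LieP.adj σ Fin.revPerm (M3 ω p.1) * M3 ω p.1 = 1 := fun p => (M3_iff h p.1).mpr p.2
  refine Nat.card_congr (Equiv.ofBijective
    (fun p => (⟨⟨M3 ω p.1, LieP.adj σ Fin.revPerm (M3 ω p.1), mul_eq_one_comm.mp (hM p), hM p⟩, hM p⟩ :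
      Ug 3 σ)) ⟨?_, ?_⟩)
  · intro p p' hp
    have h1 : M3 ω p.1 = M3 ω p'.1 := congrArg Units.val (congrArg Subtype.val hp)
    have h2 : ∀ i j : Fin 3, (![(c3 p.1 j).1, (c3 p.1 j).2.1, (c3 p.1 j).2.2] : Fin 3 → B4) i =
        (![(c3 p'.1 j).1, (c3 p'.1 j).2.1, (c3 p'.1 j).2.2] : Fin 3 → B4) i :=
      fun i j => em_inj h (congrFun (congrFun h1 i) j)
    apply Subtype.ext
    exact Prod.ext (Prod.ext (h2 0 0) (Prod.ext (h2 1 0) (h2 2 0)))
      (Prod.ext (Prod.ext (h2 0 2) (Prod.ext (h2 1 2) (h2 2 2)))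
        (Prod.ext (h2 0 1) (Prod.ext (h2 1 1) (h2 2 1))))
  · intro g
    choose e he using em_surj h
    let m : Matrix (Fin 3) (Fin 3) F := ((g : GL (Fin 3) F) : Matrix _ _ F)
    let p : (B4 × B4 × B4) × (B4 × B4 × B4) × (B4 × B4 × B4) :=
      ((e (m 0 0), e (m 1 0), e (m 2 0)), (e (m 0 2), e (m 1 2), e (m 2 2)), (e (m 0 1), e (m 1 1), e (m 2 1)))
    have hm : M3 ω p = m := by
      ext i j
      fin_cases i <;> fin_cases j <;> exact he _
    have hP : P3 p := by
      rw [← M3_iff h, hm]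
      exact g.2
    refine ⟨⟨p, hP⟩, ?_⟩
    apply Subtype.ext
    apply Units.ext
    exact hm

/-- the conditions as boolean functions -/
def bA (x : B4 × B4 × B4) : Bool := eqb (q3 x x) b0

/-- the conditions as boolean functions -/
def bB (x z : B4 × B4 × B4) : Bool := eqb (q3 z z) b0 && (eqb (q3 x z) b1 && eqb (q3 z x) b1)

/-- the conditions as boolean functions -/
def bC (x z y : B4 × B4 × B4) : Bool := eqb (q3 y y) b1 && (eqb (q3 x y) b0 &&
  (eqb (q3 y x) b0 && (eqb (q3 z y) b0 && eqb (q3 y z) b0)))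

theorem P3_iff (x z y : B4 × B4 × B4) : P3 (x, z, y) ↔ bA x = true ∧ bB x z = true ∧ bC x z y = true := by
  unfold P3 bA bB bC
  simp only [Bool.and_eq_true, eqb_iff]
  constructor
  · intro h
    exact ⟨h 2 0, ⟨h 0 2, h 2 2, h 0 0⟩, h 1 1, h 2 1, h 1 0, h 0 1, h 1 2⟩
  · rintro ⟨h1, ⟨h2, h3, h4⟩, h5, h6, h7, h8, h9⟩ i j
    fin_cases i <;> fin_cases j
    · exact h4
    · exact h8
    · exact h2
    · exact h7
    · exact h5
    · exact h9
    · exact h1
    · exact h6
    · exact h3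

theorem count3 : (∑ x : B4 × B4 × B4, if bA x = true then (∑ z : B4 × B4 × B4, if bB x z = true then
    (∑ y : B4 × B4 × B4, if bC x z y = true then 1 else 0) else 0) else 0) = 648 := by
  decide +kernel

theorem count2 : (∑ x : B4 × B4, ∑ y : B4 × B4, if (eqb (q2 y x) b1 && (eqb (q2 y y) b0 &&
    (eqb (q2 x x) b0 && eqb (q2 x y) b1))) = true then 1 else 0) = 18 := by
  decide +kernel

theorem P2_iff (x y : B4 × B4) : P2 (x, y) ↔ (eqb (q2 y x) b1 && (eqb (q2 y y) b0 &&
    (eqb (q2 x x) b0 && eqb (q2 x y) b1))) = true := by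
  unfold P2
  simp only [Bool.and_eq_true, eqb_iff]
  constructor
  · intro h
    exact ⟨h 0 0, h 0 1, h 1 0, h 1 1⟩
  · rintro ⟨h1, h2, h3, h4⟩ i j
    fin_cases i <;> fin_cases j
    · exact h1
    · exact h2
    · exact h3
    · exact h4

theorem card_P2 : Nat.card {p : (B4 × B4) × B4 × B4 // P2 p} = 18 := by
  rw [Nat.card_eq_fintype_card, Fintype.card_subtype, Finset.card_filter, Fintype.sum_prod_type]
  rw [← count2]
  apply Finset.sum_congr rfl
  intro x _
  apply Finset.sum_congr rfl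
  intro y _
  exact if_congr (P2_iff x y) rfl rfl

theorem card_P3 : Nat.card {p : (B4 × B4 × B4) × (B4 × B4 × B4) × (B4 × B4 × B4) // P3 p} = 648 := by
  rw [Nat.card_eq_fintype_card, Fintype.card_subtype, Finset.card_filter, Fintype.sum_prod_type]
  rw [← count3]
  apply Finset.sum_congr rfl
  intro x _
  rw [Fintype.sum_prod_type]
  by_cases hA : bA x = true
  · rw [if_pos hA]
    apply Finset.sum_congr rfl
    intro z _
    by_cases hB : bB x z = true
    · rw [if_pos hB]
      apply Finset.sum_congr rfl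
      intro y _
      refine if_congr ?_ rfl rfl
      rw [P3_iff]
      exact ⟨fun h => h.2.2, fun h => ⟨hA, hB, h⟩⟩
    · rw [if_neg hB]
      apply Finset.sum_eq_zero
      intro y _
      rw [if_neg]
      rw [P3_iff]
      exact fun h => hB h.2.1
  · rw [if_neg hA]
    apply Finset.sum_eq_zero
    intro z _
    apply Finset.sum_eq_zero
    intro y _
    rw [if_neg]
    rw [P3_iff]
    exact fun h => hA h.1

end W17_aux

open W17_aux

theorem card_F4 {σ : F ≃+* F} (hσ : ∀ x, σ (σ x) = x) (hs : ∃ x, σ x ≠ x)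
    (h2 : ¬ 2 < Nat.card {x : F // σ x = x}) : Nat.card F = 4 ∧ ∀ x : F, x ≠ 0 → x * σ x = 1 := by
  obtain ⟨ω, h⟩ := exists_om hσ hs h2
  refine ⟨card_F h, fun x hx => ?_⟩
  have h3 := two ω
  have h4 := two (1 : F)
  have h5 := h.m
  rcases h.all x with h1 | h1 | h1 | h1
  · exact absurd h1 hx
  · rw [h1, map_one, one_mul]
  · rw [h1, h.s]
    linear_combination h5 + h3
  · rw [h1, map_add, h.s, map_one]
    linear_combination h5 + h3 + (ω + 1) * h4

theorem card_two {σ : F ≃+* F} (hH : Hy 2 σ) (hs : ∃ x, σ x ≠ x)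
    (h2 : ¬ 2 < Nat.card {x : F // σ x = x}) : Nat.card (Ug 2 σ) = 18 := by
  obtain ⟨ω, h⟩ := exists_om hH.inv hs h2
  rw [card_U2 h, card_P2]

theorem card_three {σ : F ≃+* F} (hH : Hy 3 σ) (hs : ∃ x, σ x ≠ x)
    (h2 : ¬ 2 < Nat.card {x : F // σ x = x}) : Nat.card (Ug 3 σ) = 648 := by
  obtain ⟨ω, h⟩ := exists_om hH.inv hs h2
  rw [card_U3 h, card_P3]

end

end CF
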