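import Pool.Agent.CF.W12
import Pool.Agent.CF.W13
import Pool.Agent.CF.E04
import Pool.Agent.CF.W17

/-!
# MP_6c3636_al, CF, module W14: EG is perfect or solvable (helper7)

`EG_perfect`: `commutator (EG n σ)` is the subgroup `⁅⊤, ⊤⁆` of the type `EG n σ`; its image in `GL` is `⁅EG, EG⁆` (`Subgroup.map_commutator`, `Subgroup.range_subtype`), which contains all generators by `perf_one` / `perf_two`. If `4 ≤ n` and `σ = 1` then the fixed field is `F` and `2 < Nat.card F` by `hH.id`. `EG_small`: if `n ≤ 1` there is no nonzero isotropic vector (`n = 1`: `σ (v 0) * v 0 = 0`), so `EG n σ` is trivial (`ei_zero`). If `2 ≤ n ≤ 3` and the fixed field has at most two elements, then `σ ≠ 1` (`hH.id`), and `card_two`, `card_three` (W17), `solv_23` (E04); a subgroup of a solvable group is solvable (`EG_le`).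
-/

namespace CF

noncomputable section

open Classical Matrix

variable {n : ℕ} {F : Type} [Field F] [Finite F] [CharP F 2]

private theorem W14_aux_card {σ : F ≃+* F} (h1 : ∀ x, σ x = x) :
    Nat.card {x : F // σ x = x} = Nat.card F :=
  Nat.card_congr (Equiv.subtypeUnivEquiv h1)

private theorem W14_aux_ne {σ : F ≃+* F} (hH : Hy n σ) (h : ¬ 2 < Nat.card {x : F // σ x = x}) :
    ∃ x, σ x ≠ x := by
  by_contra hcon
  push Not at hcon
  apply h
  rw [W14_aux_card hcon]
  exact (hH.id hcon).2

theorem EG_perfect {σ : F ≃+* F} (hH : Hy n σ)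
    (h : 4 ≤ n ∨ 2 < Nat.card {x : F // σ x = x}) : commutator (EG n σ) = ⊤ := by
  have hle : EG n σ ≤ ⁅EG n σ, EG n σ⁆ := by
    rw [EG, Subgroup.closure_le]
    rintro g ⟨v, a, z, hA, rfl⟩
    by_cases hq : 2 < Nat.card {x : F // σ x = x}
    · exact perf_one hH hq hA
    · exact perf_two hH (W14_aux_ne hH hq) (h.resolve_right hq) hA
  have hmap : (commutator (EG n σ)).map (EG n σ).subtype = ⁅EG n σ, EG n σ⁆ := by
    rw [commutator_def, Subgroup.map_commutator, ← MonoidHom.range_eq_map, Subgroup.range_subtype]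
  rw [eq_top_iff]
  intro x _
  have h1 : (x : GL (Fin n) F) ∈ (commutator (EG n σ)).map (EG n σ).subtype := by
    rw [hmap]
    exact hle x.2
  obtain ⟨y, hy, hxy⟩ := Subgroup.mem_map.1 h1
  have h2 : y = x := Subtype.ext hxy
  rwa [← h2]

theorem EG_small {σ : F ≃+* F} (hH : Hy n σ)
    (h : n ≤ 1 ∨ (n ≤ 3 ∧ ¬ 2 < Nat.card {x : F // σ x = x})) : Group.IsSolvable (EG n σ) := by
  by_cases hn : n ≤ 1
  · have hsub : Subsingleton (Fin n) := by
      constructor
      intro i j
      apply Fin.ext
      omega
    have hbot : EG n σ ≤ ⊥ := by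
      rw [EG, Subgroup.closure_le]
      rintro g ⟨v, a, z, hA, rfl⟩
      have hv : v = 0 := by
        funext i
        have h1 := hA.iso
        rw [fm, Fintype.sum_subsingleton _ i, Subsingleton.elim (Fin.rev i) i] at h1
        rcases mul_eq_zero.1 h1 with h2 | h2
        · exact (map_eq_zero σ).1 h2
        · exact h2
      subst hv
      rw [ei_zero hH.inv hA]
      exact Subgroup.mem_bot.2 rfl
    have hss : Subsingleton (EG n σ) := by
      constructor
      intro x y
      apply Subtype.ext
      rw [Subgroup.mem_bot.1 (hbot x.2), Subgroup.mem_bot.1 (hbot y.2)]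
    infer_instance
  · obtain ⟨h3, hq⟩ := h.resolve_left hn
    have hs := W14_aux_ne hH hq
    have hU : Group.IsSolvable (Ug n σ) := by
      have hn2 : n = 2 ∨ n = 3 := by omega
      rcases hn2 with rfl | rfl
      · exact solv_23 (a := 1) (b := 2) (by norm_num) (by rw [card_two hH hs hq]; norm_num)
      · exact solv_23 (a := 3) (b := 4) (by norm_num) (by rw [card_three hH hs hq]; norm_num)
    exact Group.isSolvable_of_isSolvable_injective
      (f := Subgroup.inclusion (EG_le hH.inv)) (Subgroup.inclusion_injective _)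

end

end CF
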