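import Pool.Agent.CF.W02

/-!
# MP_6c3636_al, CF, module W18: blocks (helper7)

`exists_hom_L`: for `g ∈ St (Fl N k F)` one has `g i j = 0` for `j < k ≤ i` (`mv g (sv j) ∈ Fl`), so the map `g ↦ bL g` to matrices is multiplicative: `(g h) i j = ∑ l, g i l * h l j`, `h l j = 0` for `l ≥ k`, `j < k`; `bL g * bL g⁻¹ = 1`. `exists_hom_M`: for `g ∈ Ug ⊓ St (Fl N k F)` the inverse has the entries `g⁻¹ i j = σ (g (rev j) (rev i))` (`LieP.GI.inv_apply_UG`), and `g⁻¹ ∈ St`, so also `g i j = 0` for `j < k + m ≤ i`. The middle block is multiplicative: `(g h) i j = ∑ l, g i l * h l j` for middle indices `i`, `j`: for `l < k` the factor `g i l` is `0`, for `l ≥ k + m` the factor `h l j` is `0`. `bM g ∈ Ug m σ`: `rev (iM i) = iM (rev i)`, and the middle block of `adj g * g = 1`, or `adj (bM g) = bM (g⁻¹)`. `mem_Uu_of`: `bL g = 1`, `bM g = 1` give the entries below the diagonal and the diagonal; the last block of `g` is `1` because `g⁻¹ i j = σ (g (rev j)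 (rev i))` and `bL (g⁻¹) = 1`.
-/

namespace CF

noncomputable section

open Classical Matrix

variable {n : ℕ} {F : Type} [Field F] [Finite F] [CharP F 2]

/-- the first indices -/
def iL (k m : ℕ) (i : Fin k) : Fin (k + m + k) := ⟨i, by omega⟩

/-- the middle indices -/
def iM (k m : ℕ) (i : Fin m) : Fin (k + m + k) := ⟨k + i, by omega⟩

/-- the first block -/
def bL (k m : ℕ) (g : GL (Fin (k + m + k)) F) : Matrix (Fin k) (Fin k) F := fun i j =>
  (g : Matrix (Fin (k + m + k)) (Fin (k + m + k)) F) (iL k m i) (iL k m j)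

/-- the middle block -/
def bM (k m : ℕ) (g : GL (Fin (k + m + k)) F) : Matrix (Fin m) (Fin m) F := fun i j =>
  (g : Matrix (Fin (k + m + k)) (Fin (k + m + k)) F) (iM k m i) (iM k m j)

/-- the parabolic subgroup -/
def Pk (k m : ℕ) (σ : F ≃+* F) : Subgroup (GL (Fin (k + m + k)) F) :=
  Ug (k + m + k) σ ⊓ St (Fl (k + m + k) k F)

namespace W18_aux

variable {k m : ℕ}

omit [Finite F] [CharP F 2] in
theorem iL_inj : Function.Injective (iL k m) := by
  intro a b h
  have h1 := congrArg (fun x : Fin (k + m + k) => (x : ℕ)) h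
  exact Fin.ext h1

omit [Finite F] [CharP F 2] in
theorem iM_inj : Function.Injective (iM k m) := by
  intro a b h
  have h1 := congrArg (fun x : Fin (k + m + k) => (x : ℕ)) h
  have h2 : k + (a : ℕ) = k + (b : ℕ) := h1
  exact Fin.ext (by omega)

theorem sum_L (f : Fin (k + m + k) → F) (h : ∀ l : Fin (k + m + k), k ≤ (l : ℕ) → f l = 0) :
    ∑ l, f l = ∑ l : Fin k, f (iL k m l) := by
  symm
  refine Fintype.sum_of_injective (iL k m) iL_inj _ _ ?_ (fun _ => rfl)
  intro l hl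
  apply h
  by_contra hk
  exact hl ⟨⟨l, by omega⟩, Fin.ext rfl⟩

theorem sum_M (f : Fin (k + m + k) → F) (h : ∀ l : Fin (k + m + k), (l : ℕ) < k → f l = 0)
    (h' : ∀ l : Fin (k + m + k), k + m ≤ (l : ℕ) → f l = 0) :
    ∑ l, f l = ∑ l : Fin m, f (iM k m l) := by
  symm
  refine Fintype.sum_of_injective (iM k m) iM_inj _ _ ?_ (fun _ => rfl)
  intro l hl
  by_cases h1 : (l : ℕ) < k
  · exact h l h1
  by_cases h2 : k + m ≤ (l : ℕ)
  · exact h' l h2
  exfalso
  apply hl
  refine ⟨⟨(l : ℕ) - k, by omega⟩, Fin.ext ?_⟩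
  show k + ((l : ℕ) - k) = l
  omega

theorem zL {g : GL (Fin (k + m + k)) F} (hg : g ∈ St (Fl (k + m + k) k F)) {i j : Fin (k + m + k)}
    (hj : (j : ℕ) < k) (hi : k ≤ (i : ℕ)) :
    (g : Matrix (Fin (k + m + k)) (Fin (k + m + k)) F) i j = 0 := by
  have h1 : sv j ∈ Fl (k + m + k) k F := by
    rw [mem_Fl]
    intro l hl
    have hne : l ≠ j := by
      intro h
      rw [h] at hl
      omega
    exact Pi.single_eq_of_ne hne 1
  have h2 := mem_Fl.1 ((mem_St.1 hg (sv j)).2 h1) i hi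
  rw [mv_sv] at h2
  exact h2

theorem inv_inv_apply {σ : F ≃+* F} {g : GL (Fin (k + m + k)) F} (hg : g ∈ Pk k m σ)
    (i j : Fin (k + m + k)) :
    (g : Matrix (Fin (k + m + k)) (Fin (k + m + k)) F) i j =
      σ (((g⁻¹ : GL (Fin (k + m + k)) F) : Matrix (Fin (k + m + k)) (Fin (k + m + k)) F)
        (Fin.rev j) (Fin.rev i)) := by
  have h1 := LieP.GI.inv_apply_UG ((Ug (k + m + k) σ).inv_mem hg.1) i j
  rw [inv_inv] at h1
  exact h1

theorem zM {σ : F ≃+* F} {g : GL (Fin (k + m + k)) F} (hg : g ∈ Pk k m σ)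
    {i j : Fin (k + m + k)} (hj : (j : ℕ) < k + m) (hi : k + m ≤ (i : ℕ)) :
    (g : Matrix (Fin (k + m + k)) (Fin (k + m + k)) F) i j = 0 := by
  rw [inv_inv_apply hg i j]
  have h1 : (((g⁻¹ : GL (Fin (k + m + k)) F) : Matrix (Fin (k + m + k)) (Fin (k + m + k)) F)
      (Fin.rev j) (Fin.rev i)) = 0 := by
    apply zL ((St (Fl (k + m + k) k F)).inv_mem hg.2)
    · rw [Fin.val_rev]
      omega
    · rw [Fin.val_rev]
      omega
  rw [h1, map_zero]

theorem bL_one : bL k m (1 : GL (Fin (k + m + k)) F) = 1 := by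
  ext i j
  show ((1 : GL (Fin (k + m + k)) F) : Matrix (Fin (k + m + k)) (Fin (k + m + k)) F)
    (iL k m i) (iL k m j) = _
  rw [Units.val_one, Matrix.one_apply, Matrix.one_apply]
  by_cases h : i = j
  · rw [if_pos h, if_pos (congrArg _ h)]
  · rw [if_neg h, if_neg (fun h' => h (iL_inj h'))]

theorem bM_one : bM k m (1 : GL (Fin (k + m + k)) F) = 1 := by
  ext i j
  show ((1 : GL (Fin (k + m + k)) F) : Matrix (Fin (k + m + k)) (Fin (k + m + k)) F)
    (iM k m i) (iM k m j) = _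
  rw [Units.val_one, Matrix.one_apply, Matrix.one_apply]
  by_cases h : i = j
  · rw [if_pos h, if_pos (congrArg _ h)]
  · rw [if_neg h, if_neg (fun h' => h (iM_inj h'))]

theorem bL_mul {g h : GL (Fin (k + m + k)) F} (hh : h ∈ St (Fl (k + m + k) k F)) :
    bL k m (g * h) = bL k m g * bL k m h := by
  ext i j
  show ((g * h : GL (Fin (k + m + k)) F) : Matrix (Fin (k + m + k)) (Fin (k + m + k)) F)
    (iL k m i) (iL k m j) = _
  rw [Units.val_mul, Matrix.mul_apply, Matrix.mul_apply]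
  refine sum_L _ ?_
  intro l hl
  rw [zL hh (j := iL k m j) j.2 hl, mul_zero]

theorem bM_mul {σ : F ≃+* F} {g h : GL (Fin (k + m + k)) F} (hg : g ∈ Pk k m σ)
    (hh : h ∈ Pk k m σ) : bM k m (g * h) = bM k m g * bM k m h := by
  ext i j
  show ((g * h : GL (Fin (k + m + k)) F) : Matrix (Fin (k + m + k)) (Fin (k + m + k)) F)
    (iM k m i) (iM k m j) = _
  rw [Units.val_mul, Matrix.mul_apply, Matrix.mul_apply]
  refine sum_M _ ?_ ?_
  · intro l hl
    rw [zL hg.2 (i := iM k m i) (j := l) hl (Nat.le_add_right k i), zero_mul]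
  · intro l hl
    rw [zM hh (i := l) (j := iM k m j) (Nat.add_lt_add_left j.2 k) hl, mul_zero]

end W18_aux

open W18_aux

theorem exists_hom_L (k m : ℕ) {σ : F ≃+* F} (hσ : ∀ x, σ (σ x) = x) :
    ∃ φ : Pk k m σ →* GL (Fin k) F, ∀ g : Pk k m σ, (φ g : Matrix (Fin k) (Fin k) F) = bL k m g := by
  let f : Pk k m σ →* Matrix (Fin k) (Fin k) F :=
    { toFun := fun g => bL k m g
      map_one' := bL_one
      map_mul' := fun g h => bL_mul h.2.2 }
  exact ⟨f.toHomUnits, fun g => rfl⟩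

theorem exists_hom_M (k m : ℕ) {σ : F ≃+* F} (hσ : ∀ x, σ (σ x) = x) :
    ∃ ψ : Pk k m σ →* GL (Fin m) F,
      ∀ g : Pk k m σ, (ψ g : Matrix (Fin m) (Fin m) F) = bM k m g ∧ ψ g ∈ Ug m σ := by
  let f : Pk k m σ →* Matrix (Fin m) (Fin m) F :=
    { toFun := fun g => bM k m g
      map_one' := bM_one
      map_mul' := fun g h => bM_mul g.2 h.2 }
  refine ⟨f.toHomUnits, fun g => ⟨rfl, ?_⟩⟩
  show LieP.adj σ Fin.revPerm (bM k m g) * bM k m g = 1
  have h1 : LieP.adj σ Fin.revPerm (bM k m g) =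
      bM k m ((g⁻¹ : Pk k m σ) : GL (Fin (k + m + k)) F) := by
    ext i j
    have h2 := LieP.GI.inv_apply_UG g.2.1 (iM k m i) (iM k m j)
    have h3 : ∀ i : Fin m, Fin.rev (iM k m i) = iM k m (Fin.rev i) := by
      intro i
      apply Fin.ext
      rw [Fin.val_rev]
      show k + m + k - (k + (i : ℕ) + 1) = k + ((Fin.rev i : Fin m) : ℕ)
      rw [Fin.val_rev]
      have := i.2
      omega
    rw [h3, h3] at h2
    exact h2.symm
  rw [h1, ← bM_mul (g⁻¹).2 g.2]
  have h4 : ((g⁻¹ : Pk k m σ) : GL (Fin (k + m + k)) F) * (g : GL (Fin (k + m + k)) F) = 1 := by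
    rw [Subgroup.coe_inv, inv_mul_cancel]
  rw [h4, bM_one]

theorem mem_Uu_of {k m : ℕ} {σ : F ≃+* F} (hσ : ∀ x, σ (σ x) = x) {g : GL (Fin (k + m + k)) F}
    (hg : g ∈ Pk k m σ) (h1 : bL k m g = 1) (h2 : bM k m g = 1) : g ∈ Uu (k + m + k) σ := by
  refine ⟨hg.1, mem_Up.2 ?_⟩
  have hL : ∀ (x : GL (Fin (k + m + k)) F), bL k m x = 1 → ∀ i j : Fin (k + m + k),
      (i : ℕ) < k → (j : ℕ) < k →
      (x : Matrix (Fin (k + m + k)) (Fin (k + m + k)) F) i j =
        (1 : Matrix (Fin (k + m + k)) (Fin (k + m + k)) F) i j := by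
    intro x hx i j hi hj
    have h3 : bL k m x ⟨i, hi⟩ ⟨j, hj⟩ = (1 : Matrix (Fin k) (Fin k) F) ⟨i, hi⟩ ⟨j, hj⟩ := by
      rw [hx]
    refine h3.trans ?_
    rw [Matrix.one_apply, Matrix.one_apply]
    by_cases h : i = j
    · subst h
      rw [if_pos rfl, if_pos rfl]
    · rw [if_neg h, if_neg (fun h' => h (Fin.ext (congrArg (fun x : Fin k => (x : ℕ)) h')))]
  intro i j hij
  have hji : (j : ℕ) ≤ (i : ℕ) := by
    by_contra hc
    exact hij (Fin.lt_def.2 (by omega))
  by_cases hj : (j : ℕ) < k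
  · by_cases hi : (i : ℕ) < k
    · exact hL g h1 i j hi hj
    · rw [zL hg.2 hj (by omega), Matrix.one_apply_ne]
      intro h
      rw [h] at hi
      exact hi hj
  by_cases hj' : (j : ℕ) < k + m
  · by_cases hi' : (i : ℕ) < k + m
    · have h3 : bM k m g ⟨(i : ℕ) - k, by omega⟩ ⟨(j : ℕ) - k, by omega⟩ =
          (1 : Matrix (Fin m) (Fin m) F) ⟨(i : ℕ) - k, by omega⟩ ⟨(j : ℕ) - k, by omega⟩ := by
        rw [h2]
      have h4 : ∀ (l : Fin (k + m + k)) (hl : k ≤ (l : ℕ)) (hl' : (l : ℕ) - k < m),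
          iM k m ⟨(l : ℕ) - k, hl'⟩ = l := by
        intro l hl hl'
        apply Fin.ext
        show k + ((l : ℕ) - k) = l
        omega
      have h5 : bM k m g ⟨(i : ℕ) - k, by omega⟩ ⟨(j : ℕ) - k, by omega⟩ =
          (g : Matrix (Fin (k + m + k)) (Fin (k + m + k)) F) i j := by
        show (g : Matrix (Fin (k + m + k)) (Fin (k + m + k)) F) (iM k m _) (iM k m _) = _
        rw [h4 i (by omega), h4 j (by omega)]
      rw [← h5, h3, Matrix.one_apply, Matrix.one_apply]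
      by_cases h : i = j
      · subst h
        rw [if_pos rfl, if_pos rfl]
      · rw [if_neg h, if_neg]
        intro h'
        have h6 : (i : ℕ) - k = (j : ℕ) - k := congrArg (fun x : Fin m => (x : ℕ)) h'
        exact h (Fin.ext (by omega))
    · rw [zM hg hj' (by omega), Matrix.one_apply_ne]
      intro h
      rw [h] at hi'
      exact hi' hj'
  · have h3 : bL k m g⁻¹ = 1 := by
      have h4 := bL_mul (g := g⁻¹) (h := g) hg.2
      rw [inv_mul_cancel, bL_one, h1, mul_one] at h4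
      exact h4.symm
    rw [inv_inv_apply hg i j, hL g⁻¹ h3 (Fin.rev j) (Fin.rev i)
      (by rw [Fin.val_rev]; omega) (by rw [Fin.val_rev]; omega), Matrix.one_apply, Matrix.one_apply]
    by_cases h : i = j
    · subst h
      rw [if_pos rfl, if_pos rfl, map_one]
    · rw [if_neg h, if_neg (fun h' => h (Fin.rev_injective h'.symm)), map_zero]

end

end CF
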