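import Pool.Agent.CF.W18
import Pool.Agent.CF.W03
import Pool.Agent.CF.T01

/-!
# MP_6c3636_al, CF, module W19: lifts of elements to the parabolic subgroup (helper7)

`lift_L`: by `sl_gen` (T01) it is enough to lift `tv i j c`, `i ≠ j` (the set of all `A` with a lift is a subgroup: `exists_hom_L` on `EG ⊓ St ≤ Pk`). With `v = sv (iL i)`, `a = σ c • sv (rev (iL j))`, `z = 0`: `Adm σ v a 0` (`fm v v = 0`: `rev (iL i) ≠ iL i`; `fm v a = σ c * [rev (iL i) = rev (iL j)] = 0`; `fm a a = 0`: `rev (rev (iL j)) ≠ rev (iL j)`), and `ei v a 0 : x ↦ x + fm v x • a + (c * x (iL j)) • sv (iL i)` (`fm a x = σ (σ c) * x (iL j)`), `fm v x = x (rev (iL i))` is `0` for `x = sv (iL l)`. So the first block of `ei v a 0` is `tv i j c`, and it preserves `Fl`.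
`lift_M`: `em v` is the extension of `v : Fin m → F` by zero to the middle indices; `fm (em v) (em w) = fm v w` (`rev (iM i) = iM (rev i)`), so `Adm σ (em v) (em a) z` if `Adm σ v a z`; `ei (em v) (em a) z` fixes `sv (iL j)` (first block `1`, preserves `Fl`), and its middle block is `eiM σ v a z`. The set of all `B ∈ Ug m σ` with a lift is a subgroup (`exists_hom_L`, `exists_hom_M`).
-/

namespace CF

noncomputable section

open Classical Matrix

variable {n : ℕ} {F : Type} [Field F] [Finite F] [CharP F 2]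

namespace W19_aux

open W18_aux

variable {k m : ℕ}

theorem st_of {n : ℕ} {W : Submodule F (Fin n → F)} {g : GL (Fin n) F}
    (h : ∀ x ∈ W, mv g x ∈ W) (h' : ∀ x ∈ W, mv g⁻¹ x ∈ W) : g ∈ St W := by
  rw [mem_St]
  intro x
  refine ⟨fun hx => ?_, fun hx => h x hx⟩
  have h1 := h' _ hx
  rw [mv_inv] at h1
  exact h1

theorem rev_big (i : Fin k) : k + m ≤ ((Fin.rev (iL k m i) : Fin (k + m + k)) : ℕ) := by
  rw [Fin.val_rev]
  show k + m ≤ k + m + k - ((i : ℕ) + 1)
  have := i.2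
  omega

theorem rev_ne (i j : Fin k) : Fin.rev (iL k m i) ≠ iL k m j := by
  intro h
  have h1 := rev_big (m := m) i
  rw [h] at h1
  have h2 : ((iL k m j : Fin (k + m + k)) : ℕ) = j := rfl
  rw [h2] at h1
  have := j.2
  omega

theorem adm_L {σ : F ≃+* F} {i j : Fin k} (hij : i ≠ j) (c : F) :
    Adm σ (sv (iL k m i)) (σ c • sv (Fin.rev (iL k m j))) 0 := by
  refine ⟨?_, ?_, ?_⟩
  · rw [fm_sv_left]
    exact Pi.single_eq_of_ne (rev_ne i i) 1
  · rw [fm_sv_left, Pi.smul_apply]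
    have h1 : (sv (Fin.rev (iL k m j)) : Fin (k + m + k) → F) (Fin.rev (iL k m i)) = 0 := by
      apply Pi.single_eq_of_ne
      intro h
      exact hij (iL_inj (Fin.rev_injective h))
    rw [h1, smul_zero]
  · rw [map_zero, add_zero, fm_smul_left, fm_sv_left, Fin.rev_rev, Pi.smul_apply]
    have h1 : (sv (Fin.rev (iL k m j)) : Fin (k + m + k) → F) (iL k m j) = 0 :=
      Pi.single_eq_of_ne (rev_ne j j).symm 1
    rw [h1, smul_zero, mul_zero]

theorem mv_L {σ : F ≃+* F} (hσ : ∀ x, σ (σ x) = x) {i j : Fin k} (hij : i ≠ j) (c : F)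
    (x : Fin (k + m + k) → F) :
    mv (ei σ (sv (iL k m i)) (σ c • sv (Fin.rev (iL k m j))) 0) x =
      x + x (Fin.rev (iL k m i)) • (σ c • sv (Fin.rev (iL k m j))) +
        (c * x (iL k m j)) • sv (iL k m i) := by
  rw [mv_ei hσ (adm_L hij c), fm_sv_left, fm_smul_left, fm_sv_left, Fin.rev_rev, hσ, zero_mul,
    zero_smul, add_zero]

theorem sv_Fl (i : Fin k) : sv (iL k m i) ∈ Fl (k + m + k) k F := by
  rw [mem_Fl]
  intro l hl
  apply Pi.single_eq_of_ne
  intro h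
  rw [h] at hl
  have h2 : ((iL k m i : Fin (k + m + k)) : ℕ) = i := rfl
  rw [h2] at hl
  have := i.2
  omega

theorem mv_L_Fl {σ : F ≃+* F} (hσ : ∀ x, σ (σ x) = x) {i j : Fin k} (hij : i ≠ j) (c : F)
    {x : Fin (k + m + k) → F} (hx : x ∈ Fl (k + m + k) k F) :
    mv (ei σ (sv (iL k m i)) (σ c • sv (Fin.rev (iL k m j))) 0) x ∈ Fl (k + m + k) k F := by
  rw [mv_L hσ hij]
  have h1 : x (Fin.rev (iL k m i)) = 0 := mem_Fl.1 hx _ (by
    have := rev_big (m := m) i
    omega)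
  rw [h1, zero_smul, add_zero]
  exact Submodule.add_mem _ hx (Submodule.smul_mem _ _ (sv_Fl i))

/-- extension by zero to the middle indices -/
def em (k m : ℕ) (v : Fin m → F) : Fin (k + m + k) → F := fun l =>
  if h : k ≤ (l : ℕ) ∧ (l : ℕ) < k + m then v ⟨(l : ℕ) - k, by omega⟩ else 0

theorem em_iM (v : Fin m → F) (i : Fin m) : em k m v (iM k m i) = v i := by
  unfold em
  have h1 : ((iM k m i : Fin (k + m + k)) : ℕ) = k + i := rfl
  have h2 : k ≤ ((iM k m i : Fin (k + m + k)) : ℕ) ∧ ((iM k m i : Fin (k + m + k)) : ℕ) < k + m := by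
    rw [h1]
    have := i.2
    omega
  rw [dif_pos h2]
  congr 1
  apply Fin.ext
  show k + (i : ℕ) - k = i
  omega

theorem em_lo (v : Fin m → F) {l : Fin (k + m + k)} (h : (l : ℕ) < k) : em k m v l = 0 := by
  unfold em
  rw [dif_neg]
  omega

theorem em_hi (v : Fin m → F) {l : Fin (k + m + k)} (h : k + m ≤ (l : ℕ)) : em k m v l = 0 := by
  unfold em
  rw [dif_neg]
  omega

theorem rev_iM (i : Fin m) : Fin.rev (iM k m i) = iM k m (Fin.rev i) := by
  apply Fin.ext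
  rw [Fin.val_rev]
  show k + m + k - (k + (i : ℕ) + 1) = k + ((Fin.rev i : Fin m) : ℕ)
  rw [Fin.val_rev]
  have := i.2
  omega

theorem fm_em (σ : F ≃+* F) (v w : Fin m → F) : fm σ (em k m v) (em k m w) = fm σ v w := by
  unfold fm
  rw [sum_M]
  · refine Finset.sum_congr rfl fun i _ => ?_
    rw [rev_iM, em_iM, em_iM]
  · intro l hl
    rw [em_lo w hl, mul_zero]
  · intro l hl
    rw [em_hi w hl, mul_zero]

theorem fm_em_Fl (σ : F ≃+* F) (v : Fin m → F) {x : Fin (k + m + k) → F}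
    (hx : x ∈ Fl (k + m + k) k F) : fm σ (em k m v) x = 0 := by
  unfold fm
  refine Finset.sum_eq_zero fun l _ => ?_
  by_cases h : k ≤ (l : ℕ)
  · rw [mem_Fl.1 hx l h, mul_zero]
  · rw [em_hi v (l := Fin.rev l), map_zero, zero_mul]
    rw [Fin.val_rev]
    omega

theorem adm_M {σ : F ≃+* F} {v a : Fin m → F} {z : F} (h : Adm σ v a z) :
    Adm σ (em k m v) (em k m a) z := by
  refine ⟨?_, ?_, ?_⟩
  · rw [fm_em, h.iso]
  · rw [fm_em, h.perp]
  · rw [fm_em, h.tr]

theorem mv_M_Fl {σ : F ≃+* F} (hσ : ∀ x, σ (σ x) = x) {v a : Fin m → F} {z : F} (h : Adm σ v a z)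
    {x : Fin (k + m + k) → F} (hx : x ∈ Fl (k + m + k) k F) :
    mv (ei σ (em k m v) (em k m a) z) x = x := by
  rw [mv_ei hσ (adm_M h), fm_em_Fl σ v hx, fm_em_Fl σ a hx, mul_zero]
  simp

theorem em_sv (b : Fin m) : (em k m (sv b) : Fin (k + m + k) → F) = sv (iM k m b) := by
  funext l
  by_cases h1 : (l : ℕ) < k
  · rw [em_lo _ h1]
    symm
    apply Pi.single_eq_of_ne
    intro h
    rw [h] at h1
    have h2 : ((iM k m b : Fin (k + m + k)) : ℕ) = k + b := rfl
    omega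
  by_cases h2 : k + m ≤ (l : ℕ)
  · rw [em_hi _ h2]
    symm
    apply Pi.single_eq_of_ne
    intro h
    rw [h] at h2
    have h3 : ((iM k m b : Fin (k + m + k)) : ℕ) = k + b := rfl
    have := b.2
    omega
  have h3 : l = iM k m ⟨(l : ℕ) - k, by omega⟩ := by
    apply Fin.ext
    show (l : ℕ) = k + ((l : ℕ) - k)
    omega
  rw [h3, em_iM]
  unfold sv
  rw [Pi.single_apply, Pi.single_apply]
  by_cases h4 : (⟨(l : ℕ) - k, by omega⟩ : Fin m) = b
  · rw [if_pos h4, if_pos (congrArg _ h4)]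
  · rw [if_neg h4, if_neg (fun h5 => h4 (iM_inj h5))]

end W19_aux

open W19_aux W18_aux

theorem lift_L {k m : ℕ} {σ : F ≃+* F} (hσ : ∀ x, σ (σ x) = x) {A : GL (Fin k) F}
    (hA : A ∈ SLg k F) :
    ∃ g ∈ EG (k + m + k) σ ⊓ St (Fl (k + m + k) k F), bL k m g = (A : Matrix (Fin k) (Fin k) F) := by
  obtain ⟨φ, hφ⟩ := exists_hom_L (F := F) k m hσ
  have key : SLg k F ≤ ((EG (k + m + k) σ ⊓ St (Fl (k + m + k) k F)).subgroupOf (Pk k m σ)).map φ := by
    refine sl_gen _ fun i j hij c => ?_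
    have hA := adm_L (m := m) (σ := σ) hij c
    have hE := ei_mem_EG hA
    have hinv : (ei σ (sv (iL k m i)) (σ c • sv (Fin.rev (iL k m j))) 0)⁻¹ =
        ei σ (sv (iL k m i)) (σ c • sv (Fin.rev (iL k m j))) 0 := by
      rw [ei_inv hσ hA, map_zero]
    have hS : ei σ (sv (iL k m i)) (σ c • sv (Fin.rev (iL k m j))) 0 ∈
        St (Fl (k + m + k) k F) := by
      refine st_of (fun x hx => mv_L_Fl hσ hij c hx) fun x hx => ?_
      rw [hinv]
      exact mv_L_Fl hσ hij c hx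
    refine Subgroup.mem_map.2 ⟨⟨_, ⟨EG_le hσ hE, hS⟩⟩, Subgroup.mem_subgroupOf.2 ⟨hE, hS⟩, ?_⟩
    apply Units.ext
    rw [hφ, tv_coe hij]
    ext a b
    show (ei σ (sv (iL k m i)) (σ c • sv (Fin.rev (iL k m j))) 0 :
      Matrix (Fin (k + m + k)) (Fin (k + m + k)) F) (iL k m a) (iL k m b) = _
    rw [← mv_sv, mv_L hσ hij]
    have h1 : (sv (iL k m b) : Fin (k + m + k) → F) (Fin.rev (iL k m i)) = 0 :=
      Pi.single_eq_of_ne (rev_ne i b) 1
    rw [h1, zero_smul, add_zero, Pi.add_apply, Pi.smul_apply, smul_eq_mul]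
    unfold Matrix.transvection sv
    rw [Matrix.add_apply, Matrix.one_apply, Matrix.single_apply, Pi.single_apply, Pi.single_apply,
      Pi.single_apply]
    have h2 : (iL k m a = iL k m b) ↔ a = b := ⟨fun h => iL_inj h, fun h => congrArg _ h⟩
    have h3 : (iL k m j = iL k m b) ↔ j = b := ⟨fun h => iL_inj h, fun h => congrArg _ h⟩
    have h4 : (iL k m a = iL k m i) ↔ a = i := ⟨fun h => iL_inj h, fun h => congrArg _ h⟩
    simp only [h2, h3, h4]
    congr 1
    by_cases h5 : j = b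
    · by_cases h6 : a = i
      · simp [h5, h6]
      · have h7 : ¬ i = a := fun h => h6 h.symm
        simp [h6, h7]
    · simp [h5]
  obtain ⟨g, hg, hgA⟩ := Subgroup.mem_map.1 (key hA)
  refine ⟨g.1, Subgroup.mem_subgroupOf.1 hg, ?_⟩
  rw [← hφ, hgA]

theorem lift_M {k m : ℕ} {σ : F ≃+* F} (hσ : ∀ x, σ (σ x) = x) {B : GL (Fin m) F}
    (hB : B ∈ EG m σ) :
    ∃ g ∈ EG (k + m + k) σ ⊓ St (Fl (k + m + k) k F), bL k m g = 1 ∧
      bM k m g = (B : Matrix (Fin m) (Fin m) F) := by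
  obtain ⟨φ, hφ⟩ := exists_hom_L (F := F) k m hσ
  obtain ⟨ψ, hψ⟩ := exists_hom_M (F := F) k m hσ
  have key : EG m σ ≤ ((EG (k + m + k) σ ⊓ St (Fl (k + m + k) k F)).subgroupOf (Pk k m σ) ⊓
      φ.ker).map ψ := by
    rw [EG, Subgroup.closure_le]
    rintro _ ⟨v, a, z, h, rfl⟩
    have hA := adm_M (k := k) h
    have hE := ei_mem_EG hA
    have hS : ei σ (em k m v) (em k m a) z ∈ St (Fl (k + m + k) k F) := by
      refine st_of (fun x hx => ?_) fun x hx => ?_
      · rw [mv_M_Fl hσ h hx]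
        exact hx
      · rw [ei_inv hσ hA, mv_M_Fl hσ (adm_star hσ h) hx]
        exact hx
    refine Subgroup.mem_map.2 ⟨⟨_, ⟨EG_le hσ hE, hS⟩⟩, ⟨Subgroup.mem_subgroupOf.2 ⟨hE, hS⟩, ?_⟩, ?_⟩
    · show φ _ = 1
      apply Units.ext
      rw [hφ, Units.val_one]
      ext a' b
      show (ei σ (em k m v) (em k m a) z :
        Matrix (Fin (k + m + k)) (Fin (k + m + k)) F) (iL k m a') (iL k m b) = _
      rw [← mv_sv, mv_M_Fl hσ h (sv_Fl b)]
      unfold sv
      rw [Pi.single_apply, Matrix.one_apply]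
      by_cases h5 : a' = b
      · rw [if_pos h5, if_pos (congrArg _ h5)]
      · rw [if_neg h5, if_neg (fun h6 => h5 (iL_inj h6))]
    · apply Units.ext
      rw [(hψ _).1]
      ext a' b
      show (ei σ (em k m v) (em k m a) z :
        Matrix (Fin (k + m + k)) (Fin (k + m + k)) F) (iM k m a') (iM k m b) = _
      rw [← mv_sv, ← mv_sv, mv_ei hσ hA, mv_ei hσ h, ← em_sv, fm_em, fm_em]
      simp only [Pi.add_apply, Pi.smul_apply, smul_eq_mul, em_iM]
  obtain ⟨g, hg, hgB⟩ := Subgroup.mem_map.1 (key hB)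
  refine ⟨g.1, Subgroup.mem_subgroupOf.1 hg.1, ?_, ?_⟩
  · have h1 : φ g = 1 := hg.2
    rw [← hφ, h1, Units.val_one]
  · rw [← (hψ g).1, hgB]

end

end CF
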