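import Pool.Agent.CF.W19
import Pool.Agent.CF.E01
import Pool.Agent.CF.E04
import Pool.Agent.CF.W09
import Pool.Agent.CF.T04
import Pool.Agent.LieP.I16

/-!
# MP_6c3636_al, CF, module W20: extensions by parabolic subgroups (helper7)

`R = EG ⊓ St (Fl ..) ≤ Pk k m σ` (`EG_le`). Restrict `φ` (`exists_hom_L`) and `ψ` (`exists_hom_M`) to `R` (`Subgroup.inclusion`). `ex_hom` (E01) for `φ`: its range contains `SLg k F` (`lift_L`), so `Ex` by `hL`. For the kernel `K` of `φ` on `R` use `ex_hom` for the restriction of `ψ` to `K`: the range contains `EG m σ` (`lift_M`) and is contained in `Ug m σ`, so `Ex` by `hM`; its kernel consists of elements of `Uu` (`mem_Uu_of`), all of `2`-power order (`LieP.GI.c_s11` with the point `z0 n`: `Uu n σ` is `UU σ (co (z0 n))`, compare `LieP.GI.mem_UU`, `LieP.GI.z0_lt`; or directly `(1 + N) ^ (2 ^ k) = 1 + N ^ (2 ^ k)`), so it is solvable (`solv_two`, `ex_solv`).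
-/

namespace CF

noncomputable section

open Classical Matrix

variable {n : ℕ} {F : Type} [Field F] [Finite F] [CharP F 2]

theorem Uu_two {σ : F ≃+* F} {u : GL (Fin n) F} (hu : u ∈ Uu n σ) : ∃ k : ℕ, u ^ (2 ^ k) = 1 :=
  Up_two hu.2

theorem ex_stab_ug {k m : ℕ} {σ : F ≃+* F} (hσ : ∀ x, σ (σ x) = x)
    (hL : ∀ H : Subgroup (GL (Fin k) F), IsLin H → Ex H)
    (hM : ∀ H : Subgroup (GL (Fin m) F), EG m σ ≤ H → H ≤ Ug m σ → Ex H) :
    Ex ↥(EG (k + m + k) σ ⊓ St (Fl (k + m + k) k F)) := by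
  obtain ⟨φ, hφ⟩ := exists_hom_L (F := F) k m hσ
  obtain ⟨ψ, hψ⟩ := exists_hom_M (F := F) k m hσ
  have hle : EG (k + m + k) σ ⊓ St (Fl (k + m + k) k F) ≤ Pk k m σ :=
    inf_le_inf_right _ (EG_le hσ)
  let ι : ↥(EG (k + m + k) σ ⊓ St (Fl (k + m + k) k F)) →* ↥(Pk k m σ) :=
    Subgroup.inclusion hle
  let f : ↥(EG (k + m + k) σ ⊓ St (Fl (k + m + k) k F)) →* GL (Fin k) F := φ.comp ι
  let f2 : ↥f.ker →* GL (Fin m) F := (ψ.comp ι).comp f.ker.subtype
  have hf : ∀ x : ↥(EG (k + m + k) σ ⊓ St (Fl (k + m + k) k F)),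
      (f x : Matrix (Fin k) (Fin k) F) = bL k m x.1 := fun x => hφ (ι x)
  have hf2 : ∀ x : ↥f.ker, (f2 x : Matrix (Fin m) (Fin m) F) = bM k m x.1.1 := fun x =>
    (hψ (ι x.1)).1
  refine ex_hom f (ex_hom f2 (ex_solv ?_) (hM f2.range ?_ ?_)) (hL f.range ?_)
  · refine solv_two fun x => ?_
    have e1 : bL k m x.1.1.1 = 1 := by
      rw [← hf]
      have h3 : f x.1.1 = 1 := x.1.2
      rw [h3]
      rfl
    have e2 : bM k m x.1.1.1 = 1 := by
      rw [← hf2]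
      have h3 : f2 x.1 = 1 := x.2
      rw [h3]
      rfl
    obtain ⟨r, hr⟩ := Uu_two (mem_Uu_of hσ (hle x.1.1.2) e1 e2)
    refine ⟨r, ?_⟩
    apply Subtype.ext
    apply Subtype.ext
    apply Subtype.ext
    exact hr
  · intro B hB
    obtain ⟨g, hg, e1, e2⟩ := lift_M (k := k) hσ hB
    have h3 : f ⟨g, hg⟩ = 1 := by
      apply Units.ext
      rw [hf]
      exact e1
    refine ⟨⟨⟨g, hg⟩, h3⟩, ?_⟩
    apply Units.ext
    rw [hf2]
    exact e2
  · rintro _ ⟨x, rfl⟩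
    exact (hψ (ι x.1)).2
  · intro A hA
    obtain ⟨g, hg, e1⟩ := lift_L (m := m) hσ (show A ∈ SLg k F from hA)
    refine ⟨⟨g, hg⟩, ?_⟩
    apply Units.ext
    rw [hf]
    exact e1

end

end CF
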