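import Pool.Agent.CF.W08
import Pool.Agent.CF.W11
import Pool.Agent.CF.W14
import Pool.Agent.CF.W20
import Pool.Agent.CF.E02
import Pool.Agent.CF.T06

/-!
# MP_6c3636_al, CF, module W21: extensions by isometry groups (helper7)

Strong induction on `n`. `EG n σ` has a normal image in `H` with commutative quotient (`EG_conj`, `EG_comm` for elements of `H ≤ Ug`), so by `ex_ext` (applied to `(EG n σ).subgroupOf H`), `ex_solv` and `ex_congr` (`Subgroup.subgroupOfEquivOfLe`) it is enough to show `Ex (EG n σ)`. If `n ≤ 1` or (`n ≤ 3` and the fixed field has at most two elements): `EG_small`, `ex_solv`. Otherwise `2 ≤ n` and `EG_perfect`; apply `ex_perf` (E02) with `ab_EG` (W08) and `U = (Uu n σ).subgroupOf (EG n σ)` (`Uu_two`): let `X` be a proper subgroup of the type `EG n σ` which contains `U`; `X' = X.map (EG n σ).subtype` satisfies `Uu ≤ X' ≤ EG` (`Uu_le`), `X' ≠ EG`, so `X' ≤ St (Fl n k F)` with `0 < k`, `2 * k ≤ n` (`tits_ug`). `M = (St (Fl n k F)).subgroupOf (EG n σ)`; `M ≠ ⊤` by `EG_not_le`; `M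 ≃* ↥(EG n σ ⊓ St (Fl n k F))`, and with `m = n - 2 * k`, `n = k + m + k` (`subst`), `ex_stab_ug` gives `Ex M`: `hL` is `ex_lin` (T06) and `hM` is the induction hypothesis for `m < n` and the same `σ` (`Hy m σ`: if `σ = 1` then `m = n - 2 * k` is even).
-/

namespace CF

noncomputable section

open Classical Matrix

variable {n : ℕ} {F : Type} [Field F] [Finite F] [CharP F 2]

private theorem w21_between {n : ℕ} {σ : F ≃+* F} (hH : Hy n σ) (hE : Ex (EG n σ)) (H : Subgroup (GL (Fin n) F))
    (h1 : EG n σ ≤ H) (h2 : H ≤ Ug n σ) : Ex H := by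
  have hN : ((EG n σ).subgroupOf H).Normal := by
    constructor
    intro y hy g
    rw [Subgroup.mem_subgroupOf] at hy ⊢
    exact EG_conj hH.inv (h2 g.2) hy
  refine ex_ext ((EG n σ).subgroupOf H) (ex_congr (Subgroup.subgroupOfEquivOfLe h1).symm hE) (ex_solv ?_)
  apply Group.isSolvable_of_comm
  intro a b
  obtain ⟨x, rfl⟩ := QuotientGroup.mk_surjective a
  obtain ⟨y, rfl⟩ := QuotientGroup.mk_surjective b
  rw [← QuotientGroup.mk_mul, ← QuotientGroup.mk_mul, QuotientGroup.eq, Subgroup.mem_subgroupOf]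
  have h := EG_comm hH (x := (y : GL (Fin n) F)⁻¹) (y := (x : GL (Fin n) F)⁻¹) (inv_mem (h2 y.2)) (inv_mem (h2 x.2))
  have e : (((x * y)⁻¹ * (y * x) : H) : GL (Fin n) F) =
      (y : GL (Fin n) F)⁻¹ * (x : GL (Fin n) F)⁻¹ * ((y : GL (Fin n) F)⁻¹)⁻¹ * ((x : GL (Fin n) F)⁻¹)⁻¹ := by
    rw [Subgroup.coe_mul, Subgroup.coe_inv, Subgroup.coe_mul, Subgroup.coe_mul, _root_.mul_inv_rev, inv_inv, inv_inv]
    simp only [mul_assoc]
  rw [e]
  exact h

private theorem w21_main {σ : F ≃+* F} : ∀ n : ℕ, Hy n σ → Ex (EG n σ) := by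
  intro n
  induction n using Nat.strong_induction_on with
  | _ n ih =>
    intro hH
    by_cases hs : n ≤ 1 ∨ (n ≤ 3 ∧ ¬ 2 < Nat.card {x : F // σ x = x})
    · exact ex_solv (EG_small hH hs)
    · rw [not_or, not_and, not_not] at hs
      obtain ⟨hs1, hs2⟩ := hs
      have hn : 2 ≤ n := by omega
      have hp : commutator (EG n σ) = ⊤ := by
        apply EG_perfect hH
        by_cases h4 : 4 ≤ n
        · exact Or.inl h4
        · exact Or.inr (hs2 (by omega))
      refine ex_perf hp (ab_EG hH) ((Uu n σ).subgroupOf (EG n σ)) ?_ ?_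
      · intro u hu
        rw [Subgroup.mem_subgroupOf] at hu
        obtain ⟨k, hk⟩ := Uu_two hu
        refine ⟨k, Subtype.ext ?_⟩
        rw [Subgroup.coe_pow, Subgroup.coe_one]
        exact hk
      · intro X hX hU
        have hX' : X.map (EG n σ).subtype ≤ EG n σ := Subgroup.map_subtype_le X
        have hU' : Uu n σ ≤ X.map (EG n σ).subtype := by
          intro u hu
          have hu2 : u ∈ EG n σ := Uu_le hH hu
          exact ⟨⟨u, hu2⟩, hU (by rw [Subgroup.mem_subgroupOf]; exact hu), rfl⟩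
        rcases tits_ug hH hn _ hX' hU' with h | ⟨k, hk0, hk1, hk2⟩
        · exfalso
          apply hX
          rw [Subgroup.eq_top_iff']
          rintro ⟨g, hg⟩
          have hg' : g ∈ X.map (EG n σ).subtype := by
            rw [h]
            exact hg
          obtain ⟨x, hx1, hx2⟩ := hg'
          have e : x = ⟨g, hg⟩ := Subtype.ext hx2
          rw [← e]
          exact hx1
        · refine ⟨(St (Fl n k F)).subgroupOf (EG n σ), ?_, ?_, ?_⟩
          · intro x hx
            rw [Subgroup.mem_subgroupOf]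
            exact hk2 ⟨x, hx, rfl⟩
          · intro htop
            rw [Subgroup.subgroupOf_eq_top] at htop
            exact EG_not_le hH hn hk0 hk1 htop
          · obtain ⟨m, rfl⟩ : ∃ m, n = k + m + k := ⟨n - 2 * k, by omega⟩
            have hHm : Hy m σ := by
              refine ⟨hH.inv, fun h => ⟨?_, (hH.id h).2⟩⟩
              have h3 := (hH.id h).1
              rw [Nat.even_iff] at h3 ⊢
              omega
            have hE := ex_stab_ug (k := k) (m := m) (F := F) hH.inv (fun H hH' => ex_lin H hH')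
              (fun H h1 h2 => w21_between hHm (ih m (by omega) hHm) H h1 h2)
            have e1 : (St (Fl (k + m + k) k F)).subgroupOf (EG (k + m + k) σ) =
                (EG (k + m + k) σ ⊓ St (Fl (k + m + k) k F)).subgroupOf (EG (k + m + k) σ) :=
              (Subgroup.inf_subgroupOf_left _ _).symm
            rw [e1]
            exact ex_congr (Subgroup.subgroupOfEquivOfLe inf_le_left).symm hE

theorem ex_ug {n : ℕ} {σ : F ≃+* F} (hH : Hy n σ) (H : Subgroup (GL (Fin n) F))
    (h1 : EG n σ ≤ H) (h2 : H ≤ Ug n σ) : Ex H :=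
  w21_between hH (w21_main n hH) H h1 h2

end

end CF
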